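import Pool.Agent.H56.UD.AA
import Pool.Agent.H43.UB.BIP
import Pool.Agent.H43.UB.CNG
import Pool.Agent.H43.UB.OPN
import Pool.Agent.H43.UB.PTH
import Pool.Agent.H43.UB.CLX

/-!
# THEOREM UD: what INI (helper31) and RES (helper56) use from chapter B (helper43, helper65)

Proofs: chapter B. `gdl`: limits of gap discs. `con_gen`: complements of sets with gap discs in connected open sets are connected. `ph_gap`, `ph_exp`: it applies to `Ph` and to its preimage under `exp`. `germ`: branches over closed discs which are disjoint from `Ph`. `opn`: a connected open set on which the `F n` take values in a compact set disjoint from `Ph` is good if one of its points is good. `path`: lifting of paths in `V \ Ph`. `ind`: closing does not depend on the lift (deck transformations). `clx`: the target.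

PROOF of `con_gen`. `W \ A = O1 ⊔ O2`. `A` has no interior points (collars), `W` is connected: some `x ∈ A ∩ W` is in the closures of `O1` and `O2`. Gap disc `ψ` at `x` in `W`; its collar is connected, say in `O1`. `O` a component of `O2` which meets `ψ (ball 0 θ)`: `O ⊆ ψ (closedBall 0 θ)`, a bounded open set with frontier in `A`. Take `y ∈ closure O` with maximal real part, `p ∈ O`, a gap disc `ψ'` at `y` of size `< |p - y|`; the curve `ψ' (|u| = ρ)` has a point with larger real part (maximum principle), is connected and disjoint from `A`, so it is disjoint from `closure O`; but `O` is connected and has points inside (near `y`) and outside (`p`).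
PROOF of `path`. Let `T` be the set of the `w ∈ V` for which the conclusion holds with `w2 = w`; it contains `w1`, it is open and its complement in `V` is open (`germ`, add the image of a small disc to `K`; discs of radius `dist (w, Ph ∪ Vᶜ) / 2`).
PROOF of `opn`. Montel: `F n → F'` locally uniformly on `K`. The good points of `K` are open (`germ`). Closed: `s ∈ K` a limit of good points, `w = F' s ∈ V'`, so `w ∉ Ph`; branches `G n` over `ball w d` at `s` (`LS.lift`); `F n` is injective on `G n (ball w (d / 2))`, which is large if `deriv (F n) s → 0` (Koebe): then `F n` is injective on compact subsets of `K`, so `F'` is injective or constant, not constant since near a good point `F'` is not constant: `deriv F' s ≠ 0`: good. (`deriv (F n) s` is bounded by Cauchy.)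
-/

set_option autoImplicit false

open Filter Topology Metric Set MeasureTheory

namespace Pool.Agent.H56.UD

variable {𝒰 : Ultrafilter ℕ} {F : ℕ → ℂ → ℂ} {D P : ℕ → Set ℂ} {θ C : ℝ}

/-- arbitrarily small gap discs at all points of `A` -/
def Gp (A : Set ℂ) : Prop := ∀ x ∈ A, ∀ ε : ℝ, 0 < ε → ∃ (ψ : ℂ → ℂ) (θ : ℝ), 0 < θ ∧ θ < 1 ∧
  DifferentiableOn ℂ ψ (ball 0 1) ∧ InjOn ψ (ball 0 1) ∧ x ∈ ψ '' ball 0 θ ∧ ψ '' ball 0 1 ⊆ ball x ε ∧
  ∀ u : ℂ, θ < ‖u‖ → ‖u‖ < 1 → ψ u ∉ A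

theorem con_gen {A : Set ℂ} (hA : IsClosed A) (hg : Gp A) {W : Set ℂ} (hW : IsOpen W) (hc : IsPreconnected W) :
    IsPreconnected (W \ A) := Pool.Agent.H43.UB.con_gen hA hg hW hc

theorem ph_closed : IsClosed (Ph 𝒰 P) := Pool.Agent.H43.UB.ph_closed

theorem ph_gap (h : LS 𝒰 F D P θ C) : Gp (Ph 𝒰 P) := Pool.Agent.H43.UB.ph_gp h

theorem ph_exp (h : LS 𝒰 F D P θ C) : IsClosed {ζ : ℂ | Complex.exp ζ ∈ Ph 𝒰 P} ∧ Gp {ζ : ℂ | Complex.exp ζ ∈ Ph 𝒰 P} :=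
  Pool.Agent.H43.UB.ph_exp h

/-- limits of gap discs -/
theorem gdl (h : LS 𝒰 F D P θ C) {x : ℕ → ℂ} {x0 : ℂ} {r : ℝ} {ψ : ℕ → ℂ → ℂ} (hr : 0 < r)
    (hx : Tendsto x (𝒰 : Filter ℕ) (𝓝 x0)) (hψ : ∀ᶠ n in (𝒰 : Filter ℕ), GD θ C (P n) (x n) r (ψ n)) :
    ∃ ψ' : ℂ → ℂ, DifferentiableOn ℂ ψ' (ball 0 1) ∧ InjOn ψ' (ball 0 1) ∧
      TendstoLocallyUniformlyOn ψ ψ' (𝒰 : Filter ℕ) (ball 0 1) ∧
      (∀ ρ : ℝ, θ < ρ → ball x0 (r / C) ⊆ ψ' '' ball 0 ρ) ∧ ψ' '' ball 0 1 ⊆ ball x0 r ∧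
      ∀ u : ℂ, θ < ‖u‖ → ‖u‖ < 1 → ψ' u ∉ Ph 𝒰 P := Pool.Agent.H43.UB.gdl h hr hx hψ

theorem germ (h : LS 𝒰 F D P θ C) {w s : ℂ} (hg : Gd 𝒰 F D P w s) {r : ℝ} (hr : 0 < r)
    (hb : Disjoint (closedBall w r) (Ph 𝒰 P)) :
    ∃ (M : ℝ) (G : ℕ → ℂ → ℂ) (g : ℂ → ℂ), (∀ᶠ n in (𝒰 : Filter ℕ), Bq (F n) (D n) w r M (G n)) ∧
      TendstoLocallyUniformlyOn G g (𝒰 : Filter ℕ) (ball w r) ∧ DifferentiableOn ℂ g (ball w r) ∧
      InjOn g (ball w r) ∧ g w = s ∧ ∀ u ∈ ball w r, Gd 𝒰 F D P u (g u) := Pool.Agent.H43.UB.germ h hg hr hb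

/-- good points have one value -/
theorem gd_unique (h : LS 𝒰 F D P θ C) {w w' s : ℂ} (hg : Gd 𝒰 F D P w s) (hg' : Gd 𝒰 F D P w' s) : w = w' :=
  Pool.Agent.H43.UB.gd_unique h hg hg'

theorem opn (h : LS 𝒰 F D P θ C) {K V : Set ℂ} (hK : IsOpen K) (hc : IsPreconnected K) (hV : IsCompact V)
    (hP : Disjoint V (Ph 𝒰 P)) (hF : ∀ᶠ n in (𝒰 : Filter ℕ), K ⊆ D n ∧ ∀ s ∈ K, F n s ∈ V) {w0 s0 : ℂ} (h0 : s0 ∈ K)
    (hs : Gd 𝒰 F D P w0 s0) : ∀ s ∈ K, ∃ w ∈ V, Gd 𝒰 F D P w s := Pool.Agent.H43.UB.opn h hK hc hV hP hF h0 hs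

theorem path (h : LS 𝒰 F D P θ C) {V : Set ℂ} (hV : IsOpen V) (hc : IsPreconnected V) (hP : Disjoint V (Ph 𝒰 P))
    {w1 w2 s1 : ℂ} (h1 : w1 ∈ V) (h2 : w2 ∈ V) (hs : Gd 𝒰 F D P w1 s1) :
    ∃ (s2 : ℂ) (K V' : Set ℂ), Gd 𝒰 F D P w2 s2 ∧ IsOpen K ∧ IsPreconnected K ∧ s1 ∈ K ∧ s2 ∈ K ∧ IsCompact V' ∧ V' ⊆ V ∧
      (∀ s ∈ K, ∃ w ∈ V', Gd 𝒰 F D P w s) ∧ ∀ᶠ n in (𝒰 : Filter ℕ), K ⊆ D n ∧ ∀ s ∈ K, F n s ∈ V' :=
  Pool.Agent.H43.UB.path h hV hc hP h1 h2 hs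

/-- closing does not depend on the lift -/
theorem ind (h : LS 𝒰 F D P θ C) {wb sb : ℂ} (hb : Gd 𝒰 F D P wb sb) {r : ℝ} (hr : 0 < r) {ψ q q' : ℕ → ℂ → ℂ}
    (hψ : ∀ᶠ n in (𝒰 : Filter ℕ), GD θ C (P n) 0 r (ψ n) ∧ Lf (F n) (D n) θ (ψ n) (q n) ∧ Lf (F n) (D n) θ (ψ n) (q' n))
    {ζ ζ' s s' : ℂ} (hζ : ζ ∈ Qc θ) (hζ' : ζ' ∈ Qc θ) (hs : s ∈ Sc 𝒰 F D P sb) (hs' : s' ∈ Sc 𝒰 F D P sb)
    (ht : Tendsto (fun n => q n ζ) (𝒰 : Filter ℕ) (𝓝 s)) (ht' : Tendsto (fun n => q' n ζ') (𝒰 : Filter ℕ) (𝓝 s'))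
    {m : ℕ} (hm : 1 ≤ m) (hm2 : m ≤ 2) (hc : ∀ᶠ n in (𝒰 : Filter ℕ), Cls θ m (q n)) :
    ∀ᶠ n in (𝒰 : Filter ℕ), Cls θ m (q' n) :=
  Pool.Agent.H43.UB.ind h hb hr hψ hζ hζ' hs hs' ht ht' hm hm2 hc

/-- the target of chapter B: the limit is the exponential -/
theorem clx (h : LS 𝒰 F D P θ C) {wb sb : ℂ} (hb : Gd 𝒰 F D P wb sb) (ho : Ord 𝒰 F D P θ C sb) : Xp 𝒰 F D P sb :=
  Pool.Agent.H43.UB.clx h hb ho

end Pool.Agent.H56.UD
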