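import Pool.Agent.H56.UD.MY
import Pool.Agent.H56.UD.MI

/-!
# THEOREM UD, chapter M: trapping, the core theorem

`core`: PROOF. `ini` with `α, log 10 + 1, 10 π, ε`; iterate `cycle` (dependent choice): times `i_0 < i_1 < ..`, critical points `c_a`, `l_a = i_(a+1) - 1`, radii `r_a = ‖f^[l_a] z - c_a‖`, base points `x_(a+1) = f c_a`. `f^[l_b - l_a]` maps `ball c_a (r_a / 2)` into `ball c_b (3/10 r_b)` for `a < b` (composition: `pass` inclusion, then `cycle` inclusion; `3/10 ≤ 1/2`). `Cr` finite: some `c` occurs infinitely often (`c_a = c`, `a ∈ S` infinite); for `a < b` in `S`: `r_b > 14/10 r_a`: otherwise `f^[m]`, `m = l_b - l_a > 0`, maps `ball c (r_a / 2)` into `ball c (42/100 r_a)`, so into itself: all `f^[m q]` map it into itself, `c ∈ J`, radius small: contradiction with `PS.leo`. `r_a` bounded (`2 δ'`): contradiction.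
-/

set_option autoImplicit false

open Filter Topology Metric Set MeasureTheory

namespace Pool.Agent.H56.UD

variable {f : ℂ → ℂ} {U J P Cr E : Set ℂ} {δ b0 : ℝ} {η : ℂ → ℂ → ℂ} {ρ : ℝ} {X hh μ : ℂ → ℂ}

/-- THEOREM UD, core: in the planar setting with a field `X` the set `P` is not uniformly disconnected -/
theorem core (h : PS f U J P Cr δ η ρ) (hX : FX f U J E δ X hh μ b0) {θ C r0 : ℝ} (hθ : 0 < θ) (hθ1 : θ < 1) (hC : 1 ≤ C)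
    (hr0 : 0 < r0) (hU : UG θ C r0 P) : False := by
  obtain ⟨y1, hy1, y2, hy2, hne⟩ := h.Jt
  have hδ' : 0 < dist y1 y2 := dist_pos.2 hne
  obtain ⟨α, ε, hα, hε, hcyc⟩ := cycle h hX hθ hθ1 hC hr0 hU hδ'
  obtain ⟨z, k, x, R, G, hst, hG⟩ := ini h hX hθ hθ1 hC hr0 hU α (Real.log 10 + 1) (10 * Real.pi) ε hε
  have key : ∀ s : {p : ℕ × ℂ × ℂ × (ℂ → ℂ) // ST f U J P E δ z p.1 p.2.1 p.2.2.1 α (Real.log 10 + 1)
      (10 * Real.pi) p.2.2.2 ∧ ‖deriv p.2.2.2 0‖ < ε}, ∃ (j : ℕ) (c : ℂ) (G' : ℂ → ℂ), c ∈ Cr ∧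
        ST f U J P E δ z (s.1.1 + j + 1) (f c) (f^[s.1.1 + j + 1] z - f c) α (Real.log 10 + 1) (10 * Real.pi) G' ∧
        ‖deriv G' 0‖ < ε ∧ 0 < ‖f^[s.1.1 + j] z - c‖ ∧ ‖f^[s.1.1 + j] z - c‖ < dist y1 y2 ∧
        (∀ w ∈ ball s.1.2.1 (26 / 100 * ‖s.1.2.2.1‖), f^[j] w ∈ ball c (3 / 10 * ‖f^[s.1.1 + j] z - c‖)) ∧
        (∀ w ∈ ball c (‖f^[s.1.1 + j] z - c‖ / 2), f w ∈ ball (f c) (26 / 100 * ‖f^[s.1.1 + j + 1] z - f c‖)) :=
    fun s => hcyc s.2.1 s.2.2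
  choose jj cc GG h1 h2 h3 h4 h5 h6 h7 using key
  obtain ⟨step, hstep⟩ : ∃ step : {p : ℕ × ℂ × ℂ × (ℂ → ℂ) // ST f U J P E δ z p.1 p.2.1 p.2.2.1 α (Real.log 10 + 1)
      (10 * Real.pi) p.2.2.2 ∧ ‖deriv p.2.2.2 0‖ < ε} → {p : ℕ × ℂ × ℂ × (ℂ → ℂ) // ST f U J P E δ z p.1 p.2.1 p.2.2.1 α
      (Real.log 10 + 1) (10 * Real.pi) p.2.2.2 ∧ ‖deriv p.2.2.2 0‖ < ε},
      ∀ s, (step s).1.2.1 = f (cc s) ∧ (step s).1.2.2.1 = f^[s.1.1 + jj s + 1] z - f (cc s) :=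
    ⟨fun s => ⟨(s.1.1 + jj s + 1, f (cc s), f^[s.1.1 + jj s + 1] z - f (cc s), GG s), ⟨h2 s, h3 s⟩⟩,
      fun s => ⟨rfl, rfl⟩⟩
  obtain ⟨σ, hσ⟩ : ∃ σ : ℕ → {p : ℕ × ℂ × ℂ × (ℂ → ℂ) // ST f U J P E δ z p.1 p.2.1 p.2.2.1 α (Real.log 10 + 1)
      (10 * Real.pi) p.2.2.2 ∧ ‖deriv p.2.2.2 0‖ < ε}, ∀ a, σ (a + 1) = step (σ a) :=
    ⟨fun a => step^[a] ⟨(k, x, R, G), hst, hG⟩, fun a => Function.iterate_succ_apply' step a _⟩
  -- the one step inclusion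
  have inc : ∀ a, ∀ w ∈ ball (cc (σ a)) (‖f^[(σ a).1.1 + jj (σ a)] z - cc (σ a)‖ / 2),
      f^[jj (σ (a + 1)) + 1] w ∈
        ball (cc (σ (a + 1))) (3 / 10 * ‖f^[(σ (a + 1)).1.1 + jj (σ (a + 1))] z - cc (σ (a + 1))‖) := by
    intro a w hw
    rw [Function.iterate_succ_apply]
    apply h6 (σ (a + 1))
    have e := hstep (σ a)
    rw [← hσ a] at e
    rw [e.1, e.2]
    exact h7 (σ a) w hw
  have inc2 : ∀ d a : ℕ, ∃ m : ℕ, 0 < m ∧ ∀ w ∈ ball (cc (σ a)) (‖f^[(σ a).1.1 + jj (σ a)] z - cc (σ a)‖ / 2),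
      f^[m] w ∈ ball (cc (σ (a + d + 1)))
        (3 / 10 * ‖f^[(σ (a + d + 1)).1.1 + jj (σ (a + d + 1))] z - cc (σ (a + d + 1))‖) := by
    intro d
    induction d with
    | zero => exact fun a => ⟨_, Nat.succ_pos _, inc a⟩
    | succ d ih =>
      intro a
      obtain ⟨m, hm, hmw⟩ := ih a
      refine ⟨jj (σ (a + d + 1 + 1)) + 1 + m, by omega, fun w hw => ?_⟩
      have e2 : f^[jj (σ (a + d + 1 + 1)) + 1 + m] w = f^[jj (σ (a + d + 1 + 1)) + 1] (f^[m] w) :=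
        Function.iterate_add_apply f _ m w
      rw [e2]
      apply inc (a + d + 1)
      refine ball_subset_ball ?_ (hmw w hw)
      have := h4 (σ (a + d + 1))
      linarith
  have grow : ∀ a b : ℕ, a < b → cc (σ a) = cc (σ b) →
      14 / 10 * ‖f^[(σ a).1.1 + jj (σ a)] z - cc (σ a)‖ < ‖f^[(σ b).1.1 + jj (σ b)] z - cc (σ b)‖ := by
    intro a b hab hcc
    by_contra hle
    push Not at hle
    obtain ⟨d, rfl⟩ := Nat.exists_eq_add_of_lt hab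
    obtain ⟨m, hm, hmw⟩ := inc2 d a
    have ha := h4 (σ a)
    have hmaps : MapsTo f^[m] (ball (cc (σ a)) (‖f^[(σ a).1.1 + jj (σ a)] z - cc (σ a)‖ / 2))
        (ball (cc (σ a)) (‖f^[(σ a).1.1 + jj (σ a)] z - cc (σ a)‖ / 2)) := by
      intro w hw
      have h8 := hmw w hw
      rw [← hcc] at h8
      refine ball_subset_ball ?_ h8
      rw [← hcc] at hle
      linarith
    obtain ⟨N, hN⟩ := h.leo (ball (cc (σ a)) (‖f^[(σ a).1.1 + jj (σ a)] z - cc (σ a)‖ / 2)) isOpen_ball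
      ⟨cc (σ a), mem_ball_self (by linarith), h.CJ (h1 (σ a))⟩
    have hNm : N ≤ m * N := Nat.le_mul_of_pos_left N hm
    have hJ : J ⊆ ball (cc (σ a)) (‖f^[(σ a).1.1 + jj (σ a)] z - cc (σ a)‖ / 2) := by
      intro y hy
      obtain ⟨w, hw, rfl⟩ := hN (m * N) hNm hy
      rw [Function.iterate_mul]
      exact hmaps.iterate N hw.1
    have d1 := mem_ball.1 (hJ hy1)
    have d2 := mem_ball.1 (hJ hy2)
    have d3 := dist_triangle_right y1 y2 (cc (σ a))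
    have d4 := h5 (σ a)
    linarith
  -- a critical point occurs infinitely often
  have hfin : Finite Cr := h.Cf.to_subtype
  obtain ⟨c, hc⟩ := Finite.exists_infinite_fiber (fun a : ℕ => (⟨cc (σ a), h1 (σ a)⟩ : Cr))
  rw [Set.infinite_coe_iff] at hc
  set S : Set ℕ := (fun a : ℕ => (⟨cc (σ a), h1 (σ a)⟩ : Cr)) ⁻¹' {c} with hS
  have hSc : ∀ a ∈ S, cc (σ a) = c := by
    intro a ha
    have h8 : (⟨cc (σ a), h1 (σ a)⟩ : Cr) = c := ha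
    exact congrArg Subtype.val h8
  have hbdd : BddAbove ((fun a => ‖f^[(σ a).1.1 + jj (σ a)] z - cc (σ a)‖) '' S) := by
    refine ⟨dist y1 y2, ?_⟩
    rintro _ ⟨a, _, rfl⟩
    exact (h5 (σ a)).le
  obtain ⟨a0, ha0⟩ := hc.nonempty
  have hne' : ((fun a => ‖f^[(σ a).1.1 + jj (σ a)] z - cc (σ a)‖) '' S).Nonempty := ⟨_, a0, ha0, rfl⟩
  have hs0 : 0 < sSup ((fun a => ‖f^[(σ a).1.1 + jj (σ a)] z - cc (σ a)‖) '' S) :=
    lt_of_lt_of_le (h4 (σ a0)) (le_csSup hbdd ⟨a0, ha0, rfl⟩)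
  have hlt : sSup ((fun a => ‖f^[(σ a).1.1 + jj (σ a)] z - cc (σ a)‖) '' S) / (14 / 10) <
      sSup ((fun a => ‖f^[(σ a).1.1 + jj (σ a)] z - cc (σ a)‖) '' S) := by
    rw [div_lt_iff₀ (by norm_num)]
    linarith
  obtain ⟨_, ⟨a, haS, rfl⟩, ha⟩ := exists_lt_of_lt_csSup hne' hlt
  obtain ⟨b, hbS, hab⟩ := hc.exists_gt a
  have h9 := grow a b hab ((hSc a haS).trans (hSc b hbS).symm)
  have h10 : ‖f^[(σ b).1.1 + jj (σ b)] z - cc (σ b)‖ ≤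
      sSup ((fun a => ‖f^[(σ a).1.1 + jj (σ a)] z - cc (σ a)‖) '' S) := le_csSup hbdd ⟨b, hbS, rfl⟩
  rw [div_lt_iff₀ (by norm_num)] at ha
  simp only at ha
  linarith

end Pool.Agent.H56.UD
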