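import Mathlib

/-!
# THEOREM UD (the postcritical set is not uniformly disconnected): definitions

`dm`: domains of the iterates. `GD`: gap discs, `UG`: uniformly disconnected. `PS`: the planar setting (dynamics).
`FX`: the field `X` and the line field `μ` (chapter ILF, H66/IL). `Qr`: rectangles. `Lf`: lifts of the collar of a gap disc,
`PU`: pull back units (degree 1 or 2). `Bq`: bounded branches. `LS`: limit systems. `ST`: states.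
See think 1469, 1470, 1477.
-/

set_option autoImplicit false

open Filter Topology Metric Set MeasureTheory

namespace Pool.Agent.H56.UD

/-- the points whose orbit of length `k` stays in `U` and ends in the `δ`-neighbourhood of `J` -/
def dm (f : ℂ → ℂ) (U J : Set ℂ) (δ : ℝ) (k : ℕ) : Set ℂ :=
  {z | (∀ j < k, f^[j] z ∈ U) ∧ f^[k] z ∈ thickening δ J}

/-- gap discs: `ψ` is univalent on the unit disc, its collar `θ < |u| < 1` is disjoint from `P` -/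
structure GD (θ C : ℝ) (P : Set ℂ) (x : ℂ) (r : ℝ) (ψ : ℂ → ℂ) : Prop where
  diff : DifferentiableOn ℂ ψ (ball 0 1)
  inj : InjOn ψ (ball 0 1)
  inn : ball x (r / C) ⊆ ψ '' ball 0 θ
  out : ψ '' ball 0 1 ⊆ ball x r
  col : ∀ u : ℂ, θ < ‖u‖ → ‖u‖ < 1 → ψ u ∉ P

/-- uniformly disconnected sets (below the scale `r0`) -/
def UG (θ C r0 : ℝ) (P : Set ℂ) : Prop := ∀ x ∈ P, ∀ r : ℝ, 0 < r → r < r0 → ∃ ψ, GD θ C P x r ψ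

/-- the planar setting: `J` the Julia set, `P` the closure of the forward orbits of the critical values of the critical
points `Cr` in `J` (all simple), `η c` the square root coordinate at `c` -/
structure PS (f : ℂ → ℂ) (U J P Cr : Set ℂ) (δ : ℝ) (η : ℂ → ℂ → ℂ) (ρ : ℝ) : Prop where
  hδ : 0 < δ
  Uo : IsOpen U
  fd : DifferentiableOn ℂ f U
  Jc : IsCompact J
  Jt : J.Nontrivial
  JU : J ⊆ U
  Jf : ∀ z ∈ J, f z ∈ J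
  Jb : ∀ z ∈ U, f z ∈ J → z ∈ J
  Ji : interior J = ∅
  Pc : IsClosed P
  Pn : P.Nonempty
  PJ : P ⊆ J
  Pf : ∀ z ∈ P, f z ∈ P
  bd : ∃ R0 : ℝ, ∀ k, dm f U J δ k ⊆ ball 0 R0
  lift : ∀ (k : ℕ) (S : Set ℂ) (H : ℂ → ℂ) (q z : ℂ), Convex ℝ S → IsOpen S → DifferentiableOn ℂ H S →
    (∀ u ∈ S, H u ∈ thickening δ J ∧ H u ∉ P) → q ∈ S → z ∈ dm f U J δ k → f^[k] z = H q →
    ∃ G : ℂ → ℂ, DifferentiableOn ℂ G S ∧ G q = z ∧ ∀ u ∈ S, G u ∈ dm f U J δ k ∧ f^[k] (G u) = H u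
  leo : ∀ O : Set ℂ, IsOpen O → (O ∩ J).Nonempty → ∃ N : ℕ, ∀ n ≥ N, J ⊆ f^[n] '' (O ∩ J)
  Cf : Cr.Finite
  CJ : Cr ⊆ J
  CP : ∀ c ∈ Cr, f c ∈ P
  hρ : 0 < ρ
  nf : ∀ c ∈ Cr, DifferentiableOn ℂ (η c) (ball 0 ρ) ∧ InjOn (η c) (ball 0 ρ) ∧ η c 0 = c ∧
    ∀ v ∈ ball (0 : ℂ) ρ, η c v ∈ U ∧ f (η c v) = f c + v ^ 2
  loc : ∃ δ1 : ℝ, 0 < δ1 ∧ δ1 ≤ δ ∧ ∀ y ∈ J, ∀ z ∈ U, f z ∈ ball y δ1 →
    (∃ g : ℂ → ℂ, DifferentiableOn ℂ g (ball y δ1) ∧ g (f z) = z ∧ ∀ u ∈ ball y δ1, g u ∈ U ∧ f (g u) = u) ∨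
    (∃ c ∈ Cr, ball y δ1 ⊆ ball (f c) (ρ ^ 2 / 4) ∧ z ∈ η c '' ball 0 ρ)

/-- the field `X` with `∂̄ X = μ`, `μ = 0` off `J`; the set `E` of uniformly typical points -/
structure FX (f : ℂ → ℂ) (U J E : Set ℂ) (δ : ℝ) (X h μ : ℂ → ℂ) (b0 : ℝ) : Prop where
  hb : 0 < b0
  Xc : Continuous X
  hd : DifferentiableOn ℂ h U
  eq : ∀ z ∈ U, X (f z) = deriv f z * X z + h z
  off : DifferentiableOn ℂ X (thickening δ J \ J)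
  Ec : IsCompact E
  EJ : E ⊆ J
  Ep : 0 < volume E
  lb : ∀ z ∈ E, b0 ≤ ‖μ z‖ ∧ ‖μ z‖ ≤ 1
  T : ∀ ε : ℝ, 0 < ε → ∃ ρ : ℝ, 0 < ρ ∧ ∀ z ∈ E, ∀ r : ℝ, 0 < r → r < ρ →
    ∃ H : ℂ → ℂ, DifferentiableOn ℂ H (ball z r) ∧
      ∀ w ∈ ball z r, ‖X w - μ z * (starRingEnd ℂ) (w - z) - H w‖ ≤ ε * r

/-- rectangles -/
def Qr (α β L : ℝ) : Set ℂ := {ζ | α < ζ.re ∧ ζ.re < β ∧ |ζ.im| < L}

/-- the rectangle of the collar -/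
noncomputable def Qc (θ : ℝ) : Set ℂ := Qr (Real.log θ) 0 (6 * Real.pi)

/-- a lift of the collar of `ψ` (three turns in both directions) -/
structure Lf (F : ℂ → ℂ) (D : Set ℂ) (θ : ℝ) (ψ q : ℂ → ℂ) : Prop where
  diff : DifferentiableOn ℂ q (Qc θ)
  val : ∀ ζ ∈ Qc θ, q ζ ∈ D ∧ F (q ζ) = ψ (Complex.exp ζ)

/-- the lift closes after `m` turns -/
def Cls (θ : ℝ) (m : ℕ) (q : ℂ → ℂ) : Prop :=
  ∀ ζ ∈ Qc θ, ζ + m * (2 * Real.pi * Complex.I) ∈ Qc θ → q (ζ + m * (2 * Real.pi * Complex.I)) = q ζ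

/-- a pull back unit: `F ∘ φ = ψ ∘ β`, `β` the identity or of degree `2` -/
structure PU (F : ℂ → ℂ) (D : Set ℂ) (θ : ℝ) (ψ φ β : ℂ → ℂ) : Prop where
  diff : DifferentiableOn ℂ φ (ball 0 1)
  inj : InjOn φ (ball 0 1)
  val : ∀ v ∈ ball (0 : ℂ) 1, φ v ∈ D ∧ F (φ v) = ψ (β v)
  typ : (∀ v, β v = v) ∨ ∃ α : ℂ, ‖α‖ ≤ θ ∧ ∀ v, β v = (v ^ 2 + α) / (1 + (starRingEnd ℂ) α * v ^ 2)

/-- bounded inverse branches -/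
structure Bq (F : ℂ → ℂ) (D : Set ℂ) (w : ℂ) (ρ M : ℝ) (G : ℂ → ℂ) : Prop where
  diff : DifferentiableOn ℂ G (ball w ρ)
  val : ∀ u ∈ ball w ρ, G u ∈ D ∧ F (G u) = u ∧ ‖G u‖ ≤ M
  lb : 1 ≤ M * ‖deriv G w‖

/-- limit systems -/
structure LS (𝒰 : Ultrafilter ℕ) (F : ℕ → ℂ → ℂ) (D P : ℕ → Set ℂ) (θ C : ℝ) : Prop where
  θ0 : 0 < θ
  θ1 : θ < 1
  C1 : 1 ≤ C
  Pc : ∀ n, IsClosed (P n)
  P0 : ∀ n, (0 : ℂ) ∈ P n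
  Do : ∀ n, IsOpen (D n)
  Fd : ∀ n, DifferentiableOn ℂ (F n) (D n)
  gap : ∀ r M : ℝ, 0 < r → ∀ᶠ n in (𝒰 : Filter ℕ), ∀ x ∈ P n, ‖x‖ ≤ M → ∃ ψ, GD θ C (P n) x r ψ
  lift : ∀ M : ℝ, ∀ᶠ n in (𝒰 : Filter ℕ), ∀ (S : Set ℂ) (H : ℂ → ℂ) (q s : ℂ), Convex ℝ S → IsOpen S →
    DifferentiableOn ℂ H S → (∀ u ∈ S, ‖H u‖ < M ∧ H u ∉ P n) → q ∈ S → s ∈ D n → F n s = H q →
    ∃ G : ℂ → ℂ, DifferentiableOn ℂ G S ∧ G q = s ∧ ∀ u ∈ S, G u ∈ D n ∧ F n (G u) = H u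
  gal : ∀ (w : ℂ) (ρ M : ℝ) (G G' : ℕ → ℂ → ℂ), 0 < ρ →
    (∀ᶠ n in (𝒰 : Filter ℕ), Bq (F n) (D n) w ρ M (G n)) → (∀ᶠ n in (𝒰 : Filter ℕ), Bq (F n) (D n) w ρ M (G' n)) →
    ∃ (t : ℝ) (c : ℂ), t ≠ 0 ∧ ∀ u ∈ ball w ρ,
      Tendsto (fun n => G' n u - (t * G n u + c)) (𝒰 : Filter ℕ) (𝓝 0)
  pb : ∀ M : ℝ, ∀ᶠ n in (𝒰 : Filter ℕ), ∀ (x : ℂ) (r : ℝ) (ψ q : ℂ → ℂ), x ∈ P n → ‖x‖ ≤ M → 0 < r → r ≤ M →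
    GD θ C (P n) x r ψ → Lf (F n) (D n) θ ψ q → Cls θ 2 q →
    ∃ φ β : ℂ → ℂ, PU (F n) (D n) θ ψ φ β ∧ q '' Qc θ ⊆ φ '' ball 0 1 ∧ (Cls θ 1 q → ∀ v, β v = v)

/-- states: `f^k` seen from `z` looks like `x + R exp` on a rectangle -/
structure ST (f : ℂ → ℂ) (U J P E : Set ℂ) (δ : ℝ) (z : ℂ) (k : ℕ) (x R : ℂ) (α β L : ℝ) (G : ℂ → ℂ) : Prop where
  zE : z ∈ E
  xP : x ∈ P
  R0 : R ≠ 0
  diff : DifferentiableOn ℂ G (Qr α β L)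
  inj : InjOn G (Qr α β L)
  val : ∀ ζ ∈ Qr α β L, G ζ ∈ dm f U J δ k ∧ f^[k] (G ζ) = x + R * Complex.exp ζ
  base : G 0 = z

end Pool.Agent.H56.UD
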