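import Pool.Agent.H56.UD.DD

/-!
# THEOREM UD, chapter D: no cones

PROOF of `nc0`: by contradiction, `η = 1 / (n + 1)`: sequences with `σ n → 0`; `X` is holomorphic on `ball (y n) δ'`, so as above `μ (z n) * conj (G n u) / deriv (G n) u = holomorphic + o(1)`, in the limit `conj g * (1 / deriv g)` is holomorphic with `g` univalent: `conj (deriv g) = 0`: contradiction.
PROOF of `nc`: `J` is compact without interior points, so there is `δ'' > 0` such that every `ball y (δ' / 2)`, `y ∈ J`, contains a ball `ball y'' δ''` disjoint from `J` (compactness); `distort` to compare the derivatives; `nc0`.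
-/

set_option autoImplicit false

open Filter Topology Metric Set MeasureTheory

namespace Pool.Agent.H56.UD

variable {f : ℂ → ℂ} {U J P Cr E : Set ℂ} {δ b0 : ℝ} {η : ℂ → ℂ → ℂ} {ρ : ℝ} {X hh μ : ℂ → ℂ}

/-- the circle integral of the conjugate of a holomorphic function -/
private theorem circ_conj {g : ℂ → ℂ} {y : ℂ} {R : ℝ} (hR : 0 < R) (hg : DiffContOnCl ℂ g (ball y R)) :
    ∮ u in C(y, R), (starRingEnd ℂ) (g u) =
      2 * Real.pi * Complex.I * (R : ℂ) ^ 2 * (starRingEnd ℂ) (deriv g y) := by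
  have h1 := hg.deriv_eq_smul_circleIntegral hR
  have h2 : (starRingEnd ℂ) (∮ z in C(y, R), (1 / (z - y) ^ 2) • g z) =
      -((R : ℂ) ^ 2)⁻¹ * ∮ u in C(y, R), (starRingEnd ℂ) (g u) := by
    unfold circleIntegral
    rw [← intervalIntegral.intervalIntegral_conj, ← intervalIntegral.integral_const_mul]
    refine intervalIntegral.integral_congr fun t _ => ?_
    have hw : circleMap y R t - y = circleMap 0 R t := by
      simp [circleMap]
    have hw0 : circleMap 0 R t ≠ 0 := circleMap_ne_center hR.ne'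
    have hww : (starRingEnd ℂ) (circleMap 0 R t) * circleMap 0 R t = (R : ℂ) ^ 2 := by
      rw [mul_comm, Complex.mul_conj, Complex.normSq_eq_norm_sq, norm_circleMap_zero, sq_abs]
      push_cast
      rfl
    have hc0 : (starRingEnd ℂ) (circleMap 0 R t) ≠ 0 := (map_ne_zero _).2 hw0
    have hR0 : (R : ℂ) ≠ 0 := by exact_mod_cast hR.ne'
    have e1 : (starRingEnd ℂ) (circleMap 0 R t)⁻¹ = circleMap 0 R t * ((R : ℂ) ^ 2)⁻¹ := by
      rw [map_inv₀, ← hww]
      field_simp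
    show (starRingEnd ℂ) (deriv (circleMap y R) t • ((1 / (circleMap y R t - y) ^ 2) • g (circleMap y R t))) =
      -((R : ℂ) ^ 2)⁻¹ * (deriv (circleMap y R) t • (starRingEnd ℂ) (g (circleMap y R t)))
    rw [deriv_circleMap, hw]
    have e2 : (circleMap 0 R t * Complex.I) • ((1 / (circleMap 0 R t) ^ 2) • g (circleMap y R t)) =
        (circleMap 0 R t)⁻¹ * Complex.I * g (circleMap y R t) := by
      rw [smul_eq_mul, smul_eq_mul]
      field_simp
    rw [e2, map_mul, map_mul, e1, Complex.conj_I, smul_eq_mul]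
    ring
  rw [h1, smul_eq_mul, map_mul] at h2
  have h3 : (starRingEnd ℂ) (2 * (Real.pi : ℂ) * Complex.I) = -(2 * (Real.pi : ℂ) * Complex.I) := by
    rw [map_mul, map_mul, Complex.conj_I, Complex.conj_ofReal, map_ofNat]
    ring
  rw [h3] at h2
  have hR0 : (R : ℂ) ≠ 0 := by exact_mod_cast hR.ne'
  have h4 : ∮ u in C(y, R), (starRingEnd ℂ) (g u) = -((R : ℂ) ^ 2) *
      (-((R : ℂ) ^ 2)⁻¹ * ∮ u in C(y, R), (starRingEnd ℂ) (g u)) := by
    field_simp
  rw [h4, ← h2]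
  ring

/-- no cones, over discs off the Julia set -/
theorem nc0 (h : PS f U J P Cr δ η ρ) (hX : FX f U J E δ X hh μ b0) {δ' M : ℝ} (hδ : 0 < δ') :
    ∃ ε : ℝ, 0 < ε ∧ ∀ z ∈ E, ∀ (k : ℕ) (y : ℂ) (σ : ℝ) (G : ℂ → ℂ), ball y δ' ⊆ thickening δ J \ J → 0 < σ →
      DifferentiableOn ℂ G (ball y δ') →
      (∀ u ∈ ball y δ', G u ∈ dm f U J δ k ∧ f^[k] (G u) = u ∧ ‖G u - z‖ ≤ M * σ) → σ ≤ M * ‖deriv G y‖ → ε ≤ σ := by
  by_cases hM : 0 < M
  swap
  · refine ⟨1, one_pos, fun z _ k y σ G _ hσ _ _ h2 => ?_⟩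
    exact absurd (hσ.trans_le (h2.trans (mul_nonpos_of_nonpos_of_nonneg (not_lt.1 hM)
      (norm_nonneg _)))) (lt_irrefl _)
  obtain ⟨R, hRd⟩ : ∃ R, R = δ' / 2 := ⟨_, rfl⟩
  have hR : 0 < R := by rw [hRd]; positivity
  have hb := hX.hb
  obtain ⟨ρ', hρ', hT⟩ := hX.T (b0 * R / (2 * M * (M + 1))) (by positivity)
  refine ⟨ρ' / (M + 1), by positivity, fun z hz k y σ G hy hσ hG h1 h2 => ?_⟩
  by_contra hlt
  rw [not_le, lt_div_iff₀ (by positivity)] at hlt
  obtain ⟨H, hH, hH2⟩ := hT z hz ((M + 1) * σ) (by positivity) (by rw [mul_comm]; exact hlt)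
  obtain ⟨Hk, hHk, hHk2⟩ := X_it h hX k
  have hGm : MapsTo G (ball y δ') (dm f U J δ k) := fun u hu => (h1 u hu).1
  have hGz : MapsTo G (ball y δ') (ball z ((M + 1) * σ)) := fun u hu => by
    rw [mem_ball, dist_eq_norm]
    have := (h1 u hu).2.2
    linarith
  have e1 : ∀ u ∈ ball y δ', X (G u) = deriv G u * X u - deriv G u * Hk (G u) := by
    intro u hu
    have e2 := hHk2 _ (hGm hu)
    rw [(h1 u hu).2.1] at e2
    have e3 := der_lift h isOpen_ball hG (H := fun u => u) (fun v hv => ⟨(h1 v hv).1, (h1 v hv).2.1⟩) hu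
    rw [deriv_id''] at e3
    rw [e2]
    linear_combination -(X (G u)) * e3
  have hXG : DifferentiableOn ℂ (fun u => X (G u)) (ball y δ') := by
    have e2 : DifferentiableOn ℂ (fun u => deriv G u * X u - deriv G u * Hk (G u)) (ball y δ') :=
      ((hG.deriv isOpen_ball).mul (hX.off.mono hy)).sub
        ((hG.deriv isOpen_ball).mul (hHk.comp hG hGm))
    exact e2.congr e1
  have hB : DifferentiableOn ℂ (fun u => X (G u) - H (G u)) (ball y δ') :=
    hXG.sub (hH.comp hG hGz)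
  have hcl : closedBall y R ⊆ ball y δ' := closedBall_subset_ball (by rw [hRd]; linarith)
  have hB0 : ∮ u in C(y, R), (X (G u) - H (G u)) = 0 :=
    ((hB.mono (closure_ball_subset_closedBall.trans hcl)).diffContOnCl).circleIntegral_eq_zero hR.le
  have hGc : DifferentiableOn ℂ (fun u => G u - z) (ball y δ') := hG.sub_const z
  have hC := circ_conj hR ((hGc.mono (closure_ball_subset_closedBall.trans hcl)).diffContOnCl)
  rw [deriv_sub_const] at hC
  have hs : sphere y R ⊆ ball y δ' := sphere_subset_closedBall.trans hcl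
  have c1 : CircleIntegrable (fun u => X (G u) - H (G u)) y R :=
    (hB.continuousOn.mono hs).circleIntegrable hR.le
  have c2 : CircleIntegrable (fun u => μ z * (starRingEnd ℂ) (G u - z)) y R := by
    refine ContinuousOn.circleIntegrable hR.le ?_
    exact continuousOn_const.mul (Complex.continuous_conj.comp_continuousOn (hGc.continuousOn.mono hs))
  have e2 : ∮ u in C(y, R), ((X (G u) - H (G u)) - μ z * (starRingEnd ℂ) (G u - z)) =
      -(μ z * (2 * Real.pi * Complex.I * (R : ℂ) ^ 2 * (starRingEnd ℂ) (deriv G y))) := by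
    rw [circleIntegral.integral_sub c1 c2, hB0, circleIntegral.integral_const_mul, hC, zero_sub]
  have e3 : ‖∮ u in C(y, R), ((X (G u) - H (G u)) - μ z * (starRingEnd ℂ) (G u - z))‖ ≤
      2 * Real.pi * R * (b0 * R / (2 * M * (M + 1)) * ((M + 1) * σ)) := by
    refine circleIntegral.norm_integral_le_of_norm_le_const hR.le fun u hu => ?_
    have e4 := hH2 _ (hGz (hs hu))
    have e5 : X (G u) - H (G u) - μ z * (starRingEnd ℂ) (G u - z) =
        X (G u) - μ z * (starRingEnd ℂ) (G u - z) - H (G u) := by ring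
    rw [e5]
    exact e4
  rw [e2, norm_neg, norm_mul, norm_mul, norm_mul, norm_mul, norm_mul, Complex.norm_I, norm_pow,
    Complex.norm_real, Complex.norm_real, Complex.norm_ofNat, RCLike.norm_conj, Real.norm_of_nonneg Real.pi_pos.le,
    Real.norm_of_nonneg hR.le, mul_one] at e3
  have hμ := (hX.lb z hz).1
  have hp := Real.pi_pos
  have e4 : b0 * (2 * Real.pi * R ^ 2 * (σ / M)) ≤ ‖μ z‖ * (2 * Real.pi * R ^ 2 * ‖deriv G y‖) := by
    refine mul_le_mul hμ (mul_le_mul_of_nonneg_left ?_ (by positivity)) (by positivity) (norm_nonneg _)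
    rw [div_le_iff₀ hM, mul_comm]
    exact h2
  have e5 := e4.trans e3
  have e6 : 2 * Real.pi * R * (b0 * R / (2 * M * (M + 1)) * ((M + 1) * σ)) =
      (b0 * (2 * Real.pi * R ^ 2 * (σ / M))) / 2 := by
    field_simp
  rw [e6] at e5
  have e7 : 0 < b0 * (2 * Real.pi * R ^ 2 * (σ / M)) := by positivity
  linarith

/-- discs off the Julia set in all discs centred at the Julia set -/
private theorem off_disc (h : PS f U J P Cr δ η ρ) {δ' : ℝ} (hδ : 0 < δ') : ∃ δ'' : ℝ, 0 < δ'' ∧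
    ∀ y ∈ J, ∃ p : ℂ, ball p δ'' ⊆ ball y (δ' / 2) \ J := by
  have h1 : ∀ x : ℂ, ∃ (p : ℂ) (d : ℝ), 0 < d ∧ ball p d ⊆ ball x (δ' / 4) \ J := by
    intro x
    have ho : IsOpen (ball x (δ' / 4) \ J) := isOpen_ball.sdiff h.Jc.isClosed
    have hn : (ball x (δ' / 4) \ J).Nonempty := by
      rw [nonempty_iff_ne_empty]
      intro he
      have h2 : ball x (δ' / 4) ⊆ interior J :=
        interior_maximal (sdiff_eq_empty.1 he) isOpen_ball
      rw [h.Ji] at h2
      exact h2 (mem_ball_self (by positivity))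
    obtain ⟨p, hp⟩ := hn
    obtain ⟨d, hd, hd2⟩ := Metric.isOpen_iff.1 ho p hp
    exact ⟨p, d, hd, hd2⟩
  choose p d hd h1 using h1
  obtain ⟨t, -, ht, hJt⟩ := h.Jc.finite_cover_balls (e := δ' / 4) (by positivity)
  have htn : ht.toFinset.Nonempty := by
    obtain ⟨x, hx, -⟩ := h.Jt
    obtain ⟨y, hy⟩ := mem_iUnion.1 (hJt hx)
    obtain ⟨hy, -⟩ := mem_iUnion.1 hy
    exact ⟨y, ht.mem_toFinset.2 hy⟩
  obtain ⟨x0, -, hx0⟩ := ht.toFinset.exists_min_image d htn
  refine ⟨d x0, hd x0, fun y hy => ?_⟩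
  obtain ⟨x, hx⟩ := mem_iUnion.1 (hJt hy)
  obtain ⟨hx, hxy⟩ := mem_iUnion.1 hx
  refine ⟨p x, fun w hw => ?_⟩
  have hw2 := h1 x (ball_subset_ball (hx0 x (ht.mem_toFinset.2 hx)) hw)
  refine ⟨?_, hw2.2⟩
  have h3 := hw2.1
  rw [mem_ball] at h3 hxy ⊢
  rw [dist_comm] at hxy
  have := dist_triangle w x y
  linarith

/-- no cones -/
theorem nc (h : PS f U J P Cr δ η ρ) (hX : FX f U J E δ X hh μ b0) {δ' M : ℝ} (hδ : 0 < δ') :
    ∃ ε : ℝ, 0 < ε ∧ ∀ z ∈ E, ∀ (k : ℕ) (y : ℂ) (σ : ℝ) (G : ℂ → ℂ), y ∈ J → ball y δ' ⊆ thickening δ J → 0 < σ →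
      DifferentiableOn ℂ G (ball y δ') →
      (∀ u ∈ ball y δ', G u ∈ dm f U J δ k ∧ f^[k] (G u) = u ∧ ‖G u - z‖ ≤ M * σ) → σ ≤ M * ‖deriv G y‖ → ε ≤ σ := by
  by_cases hM : 0 < M
  swap
  · refine ⟨1, one_pos, fun z _ k y σ G _ _ hσ _ _ h2 => ?_⟩
    exact absurd (hσ.trans_le (h2.trans (mul_nonpos_of_nonpos_of_nonneg (not_lt.1 hM)
      (norm_nonneg _)))) (lt_irrefl _)
  obtain ⟨δ'', hδ'', hd⟩ := off_disc h hδ
  have hK := Pool.Agent.H80.AJ.one_le_KK
  obtain ⟨ε, hε, h0⟩ := nc0 h hX (M := Pool.Agent.H80.AJ.KK * M) hδ''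
  refine ⟨ε, hε, fun z hz k y σ G hyJ hy hσ hG h1 h2 => ?_⟩
  obtain ⟨p, hp⟩ := hd y hyJ
  have hs : ball p δ'' ⊆ ball y δ' := fun w hw =>
    ball_subset_ball (by linarith) (hp hw).1
  have hi : InjOn G (ball y δ') := fun u hu v hv e => by
    rw [← (h1 u hu).2.1, ← (h1 v hv).2.1, e]
  refine h0 z hz k p σ G (fun w hw => ⟨hy (hs hw), (hp hw).2⟩) hσ (hG.mono hs)
    (fun u hu => ⟨(h1 u (hs hu)).1, (h1 u (hs hu)).2.1, ?_⟩) ?_
  · refine (h1 u (hs hu)).2.2.trans ?_
    have : M * σ ≤ Pool.Agent.H80.AJ.KK * (M * σ) := le_mul_of_one_le_left (by positivity) hK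
    linarith
  · have h3 : ‖deriv G y‖ ≤ Pool.Agent.H80.AJ.KK * ‖deriv G p‖ := by
      refine Pool.Agent.H80.AJ.distort hδ hG hi (mem_closedBall_self (by positivity)) ?_
      exact ball_subset_closedBall (hp (mem_ball_self hδ'')).1
    calc σ ≤ M * ‖deriv G y‖ := h2
      _ ≤ M * (Pool.Agent.H80.AJ.KK * ‖deriv G p‖) := mul_le_mul_of_nonneg_left h3 hM.le
      _ = Pool.Agent.H80.AJ.KK * M * ‖deriv G p‖ := by ring

end Pool.Agent.H56.UD
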