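import Mathlib

/-!
# THEOREM UD, chapter A: limits along ultrafilters

`ulim`: a sequence of functions which are holomorphic and bounded by `M` on the open set `S` (eventually) has a limit.
PROOF. For `u ∈ S` the sequence `G n u` is eventually in the compact ball, so it has a limit `g u` along the ultrafilter (`IsCompact.ultrafilter_le_nhds`; put `g u = 0` off `S`).
Equicontinuity: if `closedBall u (2 r) ⊆ S` then `‖deriv (G n) v‖ ≤ M / r` on `ball u r` (Cauchy, `Complex.norm_deriv_le_of_forall_mem_sphere_norm_le`), so `G n` is `M / r`-Lipschitz on `ball u r` (mean value inequality on the convex ball), eventually in `n`; so is `g`.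
Local uniform convergence on `ball u (r / 2)`: cover the compact ball by finitely many `ε`-balls, pointwise convergence at the centres. `TendstoLocallyUniformlyOn.differentiableOn` gives holomorphy.
`ulim_inj`: `G n` injective on the open preconnected `S`, the limit `g` is not constant on `S`: `g` is injective. PROOF. Suppose `g a = g b`, `a ≠ b`. Discs `ball a r`, `ball b r` disjoint in `S`. `g - g a` is not identically `0` near `a` nor near `b` (identity theorem), so there are circles of radii `< r` around `a` and `b` on which `|g - g a| ≥ m > 0`; for large `n`: `|G n - g| < m / 3` on both circles and `|G n a - g a|, |G n b - g a| < m / 3`; a theorem of Rouché type (Mathlib: `DiffContOnCl.ball_subset_image_closedBall`: `ball (G n a) (m / 3..) ⊆ G n '' closedBall a r`): both images contain the point `G n a`: contradiction with the injectivity (`G n b` is near `G n a`: both images `G n '' closedBall a r` and `G n '' closedBall b r` contain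 `ball (G n a) (m/6)` and `ball (G n b) (m/6)`, choose `|G n a - G n b| < m/6`).
`ulim_deriv`: `TendstoLocallyUniformlyOn.deriv`.
-/

set_option autoImplicit false

open Filter Topology Metric Set

namespace Pool.Agent.H56.UD

private theorem aa_rou {F : ℂ → ℂ} {a : ℂ} {r R m : ℝ} (hr : 0 < r) (hrR : r < R)
    (hF : DifferentiableOn ℂ F (ball a R)) (hm : 0 < m) (hs : ∀ z ∈ sphere a r, m ≤ ‖F z - F a‖) :
    ball (F a) (m / 2) ⊆ F '' closedBall a r := by
  have hcl : DiffContOnCl ℂ F (ball a r) := hF.diffContOnCl_ball (closedBall_subset_ball hrR)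
  refine hcl.ball_subset_image_closedBall hr hs ?_
  intro hcon
  have hev : ∀ᶠ z in 𝓝 a, F z = F a := by
    filter_upwards [hcon] with z hz
    exact not_not.1 hz
  have han : AnalyticOnNhd ℂ F (ball a R) := hF.analyticOnNhd isOpen_ball
  have hE := han.eqOn_of_preconnected_of_eventuallyEq (analyticOnNhd_const (v := F a))
    (convex_ball a R).isPreconnected (mem_ball_self (hr.trans hrR)) hev
  have hmem : a + (r : ℂ) ∈ sphere a r := by
    simp [abs_of_pos hr]
  have h1 := hs _ hmem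
  have h2 : F (a + (r : ℂ)) = F a := hE (mem_ball.2 (by simpa [abs_of_pos hr] using hrR))
  rw [h2, sub_self, norm_zero] at h1
  linarith

private theorem aa_cir {g : ℂ → ℂ} {a : ℂ} {S : Set ℂ} (hS : IsOpen S) (ha : a ∈ S)
    (hg : DifferentiableOn ℂ g S) (hn : ¬ ∀ᶠ z in 𝓝 a, g z = g a) {ρ : ℝ} (hρ : 0 < ρ) :
    ∃ r R m : ℝ, 0 < r ∧ r < ρ ∧ r < R ∧ ball a R ⊆ S ∧ 0 < m ∧
      ∀ z ∈ sphere a r, m ≤ ‖g z - g a‖ := by
  obtain ⟨R, hR, hRS⟩ := Metric.isOpen_iff.1 hS a ha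
  have han : AnalyticAt ℂ g a := hg.analyticAt (hS.mem_nhds ha)
  have hne : ∀ᶠ z in 𝓝[≠] a, g z ≠ g a := by
    rcases han.eventually_eq_or_eventually_ne (analyticAt_const (v := g a)) with h | h
    · exact absurd h hn
    · exact h
  rw [eventually_nhdsWithin_iff, Metric.eventually_nhds_iff] at hne
  obtain ⟨d, hd, hdd⟩ := hne
  set r := min (min ρ R) d / 2 with hrdef
  have hmin : 0 < min (min ρ R) d := lt_min (lt_min hρ hR) hd
  have hr : 0 < r := by positivity
  have h1 : min (min ρ R) d ≤ ρ := (min_le_left _ _).trans (min_le_left _ _)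
  have h2 : min (min ρ R) d ≤ R := (min_le_left _ _).trans (min_le_right _ _)
  have h3 : min (min ρ R) d ≤ d := min_le_right _ _
  have hrR : r < R := by rw [hrdef]; linarith
  have hsub : sphere a r ⊆ S := fun z hz => hRS (mem_ball.2 (by rw [mem_sphere.1 hz]; exact hrR))
  have hcont : ContinuousOn (fun z => ‖g z - g a‖) (sphere a r) :=
    ((hg.continuousOn.mono hsub).sub continuousOn_const).norm
  have hnon : (sphere a r).Nonempty := ⟨a + (r : ℂ), by simp [abs_of_pos hr]⟩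
  obtain ⟨z0, hz0, hz0m⟩ := (isCompact_sphere a r).exists_isMinOn hnon hcont
  refine ⟨r, R, ‖g z0 - g a‖, hr, by rw [hrdef]; linarith, hrR, hRS, ?_, fun z hz => hz0m hz⟩
  rw [norm_pos_iff, sub_ne_zero]
  refine hdd ?_ ?_
  · rw [mem_sphere.1 hz0, hrdef]; linarith
  · intro h
    have h0 : z0 = a := h
    rw [h0, mem_sphere, dist_self] at hz0
    linarith

private theorem aa_unif (𝒰 : Ultrafilter ℕ) {G : ℕ → ℂ → ℂ} {g : ℂ → ℂ} {S K : Set ℂ}
    (hl : TendstoLocallyUniformlyOn G g (𝒰 : Filter ℕ) S) (hK : IsCompact K) (hKS : K ⊆ S)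
    {ε : ℝ} (hε : 0 < ε) : ∀ᶠ n in (𝒰 : Filter ℕ), ∀ z ∈ K, ‖G n z - g z‖ < ε := by
  have h1 := (tendstoLocallyUniformlyOn_iff_tendstoUniformlyOn_of_compact hK).1 (hl.mono hKS)
  rw [Metric.tendstoUniformlyOn_iff] at h1
  filter_upwards [h1 ε hε] with k hk z hz
  have := hk z hz
  rwa [dist_comm, dist_eq_norm] at this

/-- the main step: near `a` all values near `g a` are taken -/
private theorem aa_hit (𝒰 : Ultrafilter ℕ) {G : ℕ → ℂ → ℂ} {g : ℂ → ℂ} {S : Set ℂ} (hS : IsOpen S)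
    (hG : ∀ᶠ n in (𝒰 : Filter ℕ), DifferentiableOn ℂ (G n) S)
    (hl : TendstoLocallyUniformlyOn G g (𝒰 : Filter ℕ) S) {a : ℂ} (ha : a ∈ S)
    (hn : ¬ ∀ᶠ z in 𝓝 a, g z = g a) {s : ℕ → ℂ} (hs : Tendsto s (𝒰 : Filter ℕ) (𝓝 (g a)))
    {ρ : ℝ} (hρ : 0 < ρ) :
    ∀ᶠ n in (𝒰 : Filter ℕ), ∃ w ∈ closedBall a ρ, w ∈ S ∧ G n w = s n := by
  have hgd : DifferentiableOn ℂ g S := hl.differentiableOn hG hS
  obtain ⟨r, R, m, hr, hrρ, hrR, hRS, hm, hmz⟩ := aa_cir hS ha hgd hn hρ
  have hcb : closedBall a r ⊆ S := (closedBall_subset_ball hrR).trans hRS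
  have h1 := aa_unif 𝒰 hl (isCompact_closedBall a r) hcb (show (0 : ℝ) < m / 10 by positivity)
  have h2 := (Metric.tendsto_nhds.1 hs) (m / 10) (by positivity)
  filter_upwards [hG, h1, h2] with n hn1 hn2 hn3
  have ha2 := hn2 a (mem_closedBall_self hr.le)
  have hsph : ∀ z ∈ sphere a r, m / 2 ≤ ‖G n z - G n a‖ := by
    intro z hz
    have e1 := hmz z hz
    have e2 := hn2 z (sphere_subset_closedBall hz)
    have e3 : g z - g a = (G n z - G n a) - (G n z - g z) + (G n a - g a) := by ring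
    have e4 : ‖g z - g a‖ ≤ ‖G n z - G n a‖ + ‖G n z - g z‖ + ‖G n a - g a‖ := by
      rw [e3]
      exact (norm_add_le _ _).trans (by gcongr; exact norm_sub_le _ _)
    linarith
  have hball := aa_rou hr hrR (hn1.mono hRS) (show (0 : ℝ) < m / 2 by positivity) hsph
  have hmem : s n ∈ ball (G n a) (m / 2 / 2) := by
    rw [mem_ball]
    have e1 : dist (s n) (G n a) ≤ dist (s n) (g a) + dist (g a) (G n a) := dist_triangle _ _ _
    have e2 : dist (g a) (G n a) = ‖G n a - g a‖ := by rw [dist_comm, dist_eq_norm]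
    rw [e2] at e1
    linarith
  obtain ⟨w, hw, hw2⟩ := hball hmem
  exact ⟨w, closedBall_subset_closedBall hrρ.le hw, hcb hw, hw2⟩

private theorem aa_lip {F : ℂ → ℂ} {S : Set ℂ} {u : ℂ} {r M : ℝ} (hr : 0 < r)
    (hS : IsOpen S) (hb : closedBall u (2 * r) ⊆ S) (hF : DifferentiableOn ℂ F S)
    (hM : ∀ v ∈ S, ‖F v‖ ≤ M) {v w : ℂ} (hv : v ∈ ball u r) (hw : w ∈ ball u r) :
    ‖F w - F v‖ ≤ M / r * ‖w - v‖ := by
  have hsub : ball u r ⊆ S := fun x hx => hb (mem_closedBall.2 (by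
    have := mem_ball.1 hx
    linarith))
  refine (convex_ball u r).norm_image_sub_le_of_norm_deriv_le (fun x hx =>
    hF.differentiableAt (hS.mem_nhds (hsub hx))) (fun x hx => ?_) hv hw
  have hcb : closedBall x r ⊆ S := by
    intro y hy
    refine hb (mem_closedBall.2 ?_)
    have h1 := mem_ball.1 hx
    have h2 := mem_closedBall.1 hy
    have h3 := dist_triangle y x u
    linarith
  exact Complex.norm_deriv_le_of_forall_mem_sphere_norm_le hr (hF.diffContOnCl_ball hcb)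
    (fun z hz => hM z (hcb (sphere_subset_closedBall hz)))

theorem ulim (𝒰 : Ultrafilter ℕ) {G : ℕ → ℂ → ℂ} {S : Set ℂ} (hS : IsOpen S) {M : ℝ}
    (hG : ∀ᶠ n in (𝒰 : Filter ℕ), DifferentiableOn ℂ (G n) S ∧ ∀ u ∈ S, ‖G n u‖ ≤ M) :
    ∃ g : ℂ → ℂ, DifferentiableOn ℂ g S ∧ (∀ u ∈ S, ‖g u‖ ≤ M) ∧
      TendstoLocallyUniformlyOn G g (𝒰 : Filter ℕ) S := by
  have hpt : ∀ u ∈ S, ∃ y : ℂ, ‖y‖ ≤ M ∧ Tendsto (fun n => G n u) (𝒰 : Filter ℕ) (𝓝 y) := by
    intro u hu
    have hle : ((𝒰.map (fun n => G n u) : Ultrafilter ℂ) : Filter ℂ) ≤ 𝓟 (closedBall 0 M) := by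
      rw [le_principal_iff, Ultrafilter.coe_map, mem_map]
      filter_upwards [hG] with n hn
      simpa using hn.2 u hu
    obtain ⟨y, hy, hy2⟩ := (isCompact_closedBall (0 : ℂ) M).ultrafilter_le_nhds _ hle
    exact ⟨y, by simpa using hy, by rw [Ultrafilter.coe_map] at hy2; exact hy2⟩
  choose! g hgM hgt using hpt
  have hlip : ∀ u ∈ S, ∀ r : ℝ, 0 < r → closedBall u (2 * r) ⊆ S → ∀ v ∈ ball u r, ∀ w ∈ ball u r,
      ‖g w - g v‖ ≤ M / r * ‖w - v‖ := by
    intro u hu r hr hb v hv w hw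
    have hsub : ball u r ⊆ S := fun x hx => hb (mem_closedBall.2 (by
      have := mem_ball.1 hx
      linarith))
    have h1 : Tendsto (fun n => ‖G n w - G n v‖) (𝒰 : Filter ℕ) (𝓝 ‖g w - g v‖) :=
      ((hgt w (hsub hw)).sub (hgt v (hsub hv))).norm
    refine le_of_tendsto h1 ?_
    filter_upwards [hG] with n hn
    exact aa_lip hr hS hb hn.1 hn.2 hv hw
  have hloc : TendstoLocallyUniformlyOn G g (𝒰 : Filter ℕ) S := by
    rw [Metric.tendstoLocallyUniformlyOn_iff]
    intro ε hε u hu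
    obtain ⟨R, hR, hRS⟩ := Metric.isOpen_iff.1 hS u hu
    have hM0 : 0 ≤ M := (norm_nonneg _).trans (hgM u hu)
    set r := R / 3 with hrdef
    have hr : 0 < r := by positivity
    have hb : closedBall u (2 * r) ⊆ S :=
      (closedBall_subset_ball (by rw [hrdef]; linarith)).trans hRS
    have hL0 : 0 ≤ M / r := by positivity
    set d := min r (ε / (4 * (M / r + 1))) with hddef
    have hd : 0 < d := lt_min hr (by positivity)
    have hdr : d ≤ r := min_le_left _ _
    have hd2 : M / r * d ≤ ε / 4 := by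
      have e1 : d ≤ ε / (4 * (M / r + 1)) := min_le_right _ _
      calc M / r * d ≤ (M / r + 1) * (ε / (4 * (M / r + 1))) := by
            gcongr
            linarith
        _ = ε / 4 := by field_simp
    refine ⟨ball u d, mem_nhdsWithin_of_mem_nhds (ball_mem_nhds u hd), ?_⟩
    have h2 := (Metric.tendsto_nhds.1 (hgt u hu)) (ε / 4) (by positivity)
    filter_upwards [hG, h2] with n hn1 hn2 y hy
    have hy1 : y ∈ ball u r := ball_subset_ball hdr hy
    have hu1 : u ∈ ball u r := mem_ball_self hr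
    have hyd : ‖y - u‖ ≤ d := by
      rw [← dist_eq_norm]; exact (mem_ball.1 hy).le
    have e1 := hlip u hu r hr hb u hu1 y hy1
    have e2 := aa_lip hr hS hb hn1.1 hn1.2 hu1 hy1
    have e3 : M / r * ‖y - u‖ ≤ ε / 4 := (mul_le_mul_of_nonneg_left hyd hL0).trans hd2
    rw [dist_eq_norm] at hn2 ⊢
    have e4 : g y - G n y = (g y - g u) - (G n y - G n u) - (G n u - g u) := by ring
    have e5 : ‖g y - G n y‖ ≤ ‖g y - g u‖ + ‖G n y - G n u‖ + ‖G n u - g u‖ := by
      rw [e4]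
      exact (norm_sub_le _ _).trans (by gcongr; exact norm_sub_le _ _)
    linarith
  exact ⟨g, hloc.differentiableOn (hG.mono fun n hn => hn.1) hS, hgM, hloc⟩

theorem ulim_inj (𝒰 : Ultrafilter ℕ) {G : ℕ → ℂ → ℂ} {g : ℂ → ℂ} {S : Set ℂ} (hS : IsOpen S) (hc : IsPreconnected S)
    (hG : ∀ᶠ n in (𝒰 : Filter ℕ), DifferentiableOn ℂ (G n) S ∧ InjOn (G n) S)
    (hl : TendstoLocallyUniformlyOn G g (𝒰 : Filter ℕ) S) (hn : ∃ u ∈ S, ∃ v ∈ S, g u ≠ g v) : InjOn g S := by
  have hG1 : ∀ᶠ n in (𝒰 : Filter ℕ), DifferentiableOn ℂ (G n) S := hG.mono fun n hn => hn.1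
  have hgd : DifferentiableOn ℂ g S := hl.differentiableOn hG1 hS
  intro a ha b hb hab
  by_contra hne
  have hnc : ¬ ∀ᶠ z in 𝓝 b, g z = g b := by
    intro h
    have hE := (hgd.analyticOnNhd hS).eqOn_of_preconnected_of_eventuallyEq
      (analyticOnNhd_const (v := g b)) hc hb h
    obtain ⟨u, hu, v, hv, huv⟩ := hn
    exact huv ((hE hu).trans (hE hv).symm)
  have hd : 0 < dist a b := dist_pos.2 hne
  have hs : Tendsto (fun n => G n a) (𝒰 : Filter ℕ) (𝓝 (g b)) := by
    rw [← hab]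
    exact hl.tendsto_at ha
  have h1 := aa_hit 𝒰 hS hG1 hl hb hnc hs (half_pos hd)
  obtain ⟨n, hn1, hn2⟩ := (h1.and hG).exists
  obtain ⟨w, hw, hwS, hwe⟩ := hn1
  have h2 : w = a := hn2.2 hwS ha hwe
  rw [h2, mem_closedBall] at hw
  linarith

theorem ulim_deriv (𝒰 : Ultrafilter ℕ) {G : ℕ → ℂ → ℂ} {g : ℂ → ℂ} {S : Set ℂ} (hS : IsOpen S)
    (hG : ∀ᶠ n in (𝒰 : Filter ℕ), DifferentiableOn ℂ (G n) S)
    (hl : TendstoLocallyUniformlyOn G g (𝒰 : Filter ℕ) S) :
    TendstoLocallyUniformlyOn (fun n => deriv (G n)) (deriv g) (𝒰 : Filter ℕ) S := by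
  exact hl.deriv hG hS

/-- the images of the `G n` contain the compact subsets of the image of the limit: if `g` is injective on `S` and
`s n → g u` then eventually `s n = G n (v n)` with `v n → u` -/
theorem ulim_pre (𝒰 : Ultrafilter ℕ) {G : ℕ → ℂ → ℂ} {g : ℂ → ℂ} {S : Set ℂ} (hS : IsOpen S)
    (hG : ∀ᶠ n in (𝒰 : Filter ℕ), DifferentiableOn ℂ (G n) S)
    (hl : TendstoLocallyUniformlyOn G g (𝒰 : Filter ℕ) S) (hi : InjOn g S) {u : ℂ} (hu : u ∈ S) {s : ℕ → ℂ}
    (hs : Tendsto s (𝒰 : Filter ℕ) (𝓝 (g u))) :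
    ∃ v : ℕ → ℂ, (∀ᶠ n in (𝒰 : Filter ℕ), v n ∈ S ∧ G n (v n) = s n) ∧ Tendsto v (𝒰 : Filter ℕ) (𝓝 u) := by
  have hnc : ¬ ∀ᶠ z in 𝓝 u, g z = g u := by
    intro h
    have h1 : ∀ᶠ z in 𝓝[≠] u, g z = g u := h.filter_mono nhdsWithin_le_nhds
    have h2 : ∀ᶠ z in 𝓝[≠] u, z ∈ S := (hS.mem_nhds hu |> fun t => mem_nhdsWithin_of_mem_nhds t)
    have h3 : ∀ᶠ z in 𝓝[≠] u, z ∈ ({u}ᶜ : Set ℂ) := self_mem_nhdsWithin
    obtain ⟨z, hz1, hz2, hz3⟩ := (h1.and (h2.and h3)).exists
    exact hz3 (hi hz2 hu hz1)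
  obtain ⟨R, hR, hRS⟩ := Metric.isOpen_iff.1 hS u hu
  have hcb : closedBall u (R / 2) ⊆ S := (closedBall_subset_ball (by linarith)).trans hRS
  have hex : ∀ n : ℕ, ∃ v : ℂ, (DifferentiableOn ℂ (G n) S ∧
      ∃ w ∈ closedBall u (R / 2), G n w = s n) → (v ∈ closedBall u (R / 2) ∧ G n v = s n ∧
        ∀ w ∈ closedBall u (R / 2), G n w = s n → dist v u ≤ dist w u) := by
    intro n
    by_cases hP : DifferentiableOn ℂ (G n) S ∧ ∃ w ∈ closedBall u (R / 2), G n w = s n
    · obtain ⟨hd, w0, hw0, hw0s⟩ := hP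
      have hcomp : IsCompact (closedBall u (R / 2) ∩ G n ⁻¹' {s n}) := by
        refine (isCompact_closedBall u (R / 2)).of_isClosed_subset ?_ inter_subset_left
        exact (hd.continuousOn.mono hcb).preimage_isClosed_of_isClosed isClosed_closedBall
          isClosed_singleton
      obtain ⟨v, hv, hvm⟩ := hcomp.exists_isMinOn ⟨w0, hw0, hw0s⟩
        (f := fun z => dist z u) (by fun_prop)
      exact ⟨v, fun _ => ⟨hv.1, hv.2, fun w hw hws => hvm (show w ∈ _ from ⟨hw, hws⟩)⟩⟩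
    · exact ⟨0, fun h => absurd h hP⟩
  choose v hv using hex
  refine ⟨v, ?_, ?_⟩
  · filter_upwards [hG, aa_hit 𝒰 hS hG hl hu hnc hs (half_pos hR)] with n hn1 hn2
    obtain ⟨w, hw, _, hws⟩ := hn2
    obtain ⟨h1, h2, _⟩ := hv n ⟨hn1, w, hw, hws⟩
    exact ⟨hcb h1, h2⟩
  · rw [Metric.tendsto_nhds]
    intro ε hε
    have hmin : 0 < min (ε / 2) (R / 2) := lt_min (half_pos hε) (half_pos hR)
    filter_upwards [hG, aa_hit 𝒰 hS hG hl hu hnc hs hmin] with n hn1 hn2
    obtain ⟨w, hw, _, hws⟩ := hn2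
    have hwd := mem_closedBall.1 hw
    have hw2 : w ∈ closedBall u (R / 2) := mem_closedBall.2 (hwd.trans (min_le_right _ _))
    obtain ⟨_, _, h3⟩ := hv n ⟨hn1, w, hw2, hws⟩
    have h4 := h3 w hw2 hws
    have h5 := hwd.trans (min_le_left _ _)
    linarith

end Pool.Agent.H56.UD
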