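import Pool.Agent.H56.UD.DA
import Pool.Agent.H56.UD.AA

/-!
# THEOREM UD, chapter D: small pull backs

PROOF of `sh`. Suppose not: for `n : ℕ` data `k n, φ n, y n ∈ J, v n` with `δ2 = 1 / (n + 1)` and `v1 n, v2 n ∈ closedBall 0 ρ0` with `‖φ n (v1 n) - φ n (v2 n)‖ ≥ ε`. Let `𝒰 = hyperfilter ℕ`. `φ n` is bounded by `R0` on the unit disc (`PS.bd`), `ulim`: `φ n → g` locally uniformly on `ball 0 1`; limits `v1, v2, v0 ∈ closedBall 0 ρ0` of `v1 n, v2 n, v n`: `‖g v1 - g v2‖ ≥ ε`, so `g` is not constant, injective by `ulim_inj`; `g v0 ∈ J` (`J` closed). `ulim_pre` shows: there is `r > 0` with `ball (g v0) r ⊆ φ n '' ball 0 1` eventually (otherwise choose bad points `s n → g v0`: take `r n → 0`). Let `O = ball (g v0) r`. By `PS.leo`: `N` with `J ⊆ f^[m] '' (O ∩ J)` for `m ≥ N`. Let `a ≠ b` in `J` (`PS.Jt`).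
Case `k n ≥ N` eventually: `J ⊆ f^[k n] '' O ⊆ ball (y n) (1/(n+1))`: `‖a - b‖ ≤ 2 / (n + 1)` eventually: contradiction.
Case `k n < N` eventually: `k n = k` is constant along `𝒰`; so `‖f^[k] s - f^[k] s'‖ ≤ 2/(n+1)` eventually for all `s, s' ∈ O`, so `f^[k]` is constant on `O`, so `f^[N + k]` is constant on `O ∩ J`, but its image contains `a` and `b`.
`sh2`: the same for pull back units over gap discs (the hypothesis `φ v0 ∈ J` is automatic: for `β = id` the point `ψ u0 = x ∈ P ⊆ J`, `|u0| < θ`; for `β` of degree `2`: `β v = u0` has a solution with `|v|^2 = |(u0 - α) / (1 - conj α u0)| ≤ 2 θ / (1 + θ ^ 2)`).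
-/

set_option autoImplicit false

open Filter Topology Metric Set MeasureTheory

namespace Pool.Agent.H56.UD

variable {f : ℂ → ℂ} {U J P Cr : Set ℂ} {δ : ℝ} {η : ℂ → ℂ → ℂ} {ρ : ℝ}

/-- limits along an ultrafilter in a compact set -/
theorem lim_cpt (𝒰 : Ultrafilter ℕ) {K : Set ℂ} (hK : IsCompact K) {v : ℕ → ℂ} (hv : ∀ n, v n ∈ K) :
    ∃ a ∈ K, Tendsto v (𝒰 : Filter ℕ) (𝓝 a) := by
  have h1 : ((𝒰.map v : Ultrafilter ℂ) : Filter ℂ) ≤ 𝓟 K := by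
    rw [Ultrafilter.coe_map, le_principal_iff, mem_map]
    exact Eventually.of_forall hv
  obtain ⟨a, ha, hl⟩ := hK.ultrafilter_le_nhds (𝒰.map v) h1
  exact ⟨a, ha, hl⟩

/-- the images of the discs contain a fixed disc -/
theorem img_ball (𝒰 : Ultrafilter ℕ) (hU : (𝒰 : Filter ℕ) ≤ atTop) {G : ℕ → ℂ → ℂ} {g : ℂ → ℂ} {S : Set ℂ}
    (hS : IsOpen S) (hG : ∀ᶠ n in (𝒰 : Filter ℕ), DifferentiableOn ℂ (G n) S)
    (hl : TendstoLocallyUniformlyOn G g (𝒰 : Filter ℕ) S) (hi : InjOn g S) {u : ℂ} (hu : u ∈ S) :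
    ∃ r : ℝ, 0 < r ∧ ∀ᶠ n in (𝒰 : Filter ℕ), ball (g u) r ⊆ G n '' S := by
  by_contra hcon
  push Not at hcon
  have h1 : ∀ r : ℝ, 0 < r → ∀ᶠ n in (𝒰 : Filter ℕ), ∃ s ∈ ball (g u) r, s ∉ G n '' S := by
    intro r hr
    have := hcon r hr
    refine this.mono fun n hn => ?_
    rw [not_subset] at hn
    exact hn
  have h2 : ∀ n : ℕ, ∃ s : ℂ, (∃ t, t ∉ G n '' S) → s ∉ G n '' S ∧
      dist (g u) s < infDist (g u) (G n '' S)ᶜ + 1 / ((n : ℝ) + 1) := by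
    intro n
    by_cases ht : ∃ t, t ∉ G n '' S
    · have hne : ((G n '' S)ᶜ).Nonempty := ht
      have hlt : infDist (g u) (G n '' S)ᶜ < infDist (g u) (G n '' S)ᶜ + 1 / ((n : ℝ) + 1) := by
        have : (0 : ℝ) < 1 / ((n : ℝ) + 1) := by positivity
        linarith
      obtain ⟨s, hs, hs2⟩ := (infDist_lt_iff hne).1 hlt
      exact ⟨s, fun _ => ⟨hs, hs2⟩⟩
    · exact ⟨0, fun h => absurd h ht⟩
  choose s hs using h2
  have h3 : Tendsto s (𝒰 : Filter ℕ) (𝓝 (g u)) := by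
    rw [Metric.tendsto_nhds]
    intro e he
    have h4 : Tendsto (fun n : ℕ => 1 / ((n : ℝ) + 1)) (𝒰 : Filter ℕ) (𝓝 0) :=
      tendsto_one_div_add_atTop_nhds_zero_nat.mono_left hU
    filter_upwards [h1 (e / 2) (by linarith), h4.eventually (gt_mem_nhds (show (0 : ℝ) < e / 2 by linarith))]
      with n hn hn2
    obtain ⟨t, ht, ht2⟩ := hn
    have h5 := (hs n ⟨t, ht2⟩).2
    have h6 : infDist (g u) (G n '' S)ᶜ ≤ dist (g u) t := infDist_le_dist_of_mem ht2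
    have h7 : dist (g u) t < e / 2 := by rw [dist_comm]; exact ht
    rw [dist_comm]
    linarith
  obtain ⟨v, hv, -⟩ := ulim_pre 𝒰 hS hG hl hi hu h3
  obtain ⟨n, hn, hn2⟩ := (hv.and (h1 1 one_pos)).exists
  obtain ⟨t, -, ht2⟩ := hn2
  exact (hs n ⟨t, ht2⟩).1 ⟨v n, hn.1, hn.2⟩

/-- small pull backs -/
theorem sh (h : PS f U J P Cr δ η ρ) {ρ0 ε : ℝ} (h0 : 0 < ρ0) (h1 : ρ0 < 1) (hε : 0 < ε) :
    ∃ δ2 : ℝ, 0 < δ2 ∧ ∀ (k : ℕ) (φ : ℂ → ℂ) (y : ℂ), y ∈ J → DifferentiableOn ℂ φ (ball 0 1) → InjOn φ (ball 0 1) →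
      (∀ v ∈ ball (0 : ℂ) 1, φ v ∈ dm f U J δ k ∧ f^[k] (φ v) ∈ ball y δ2) → (∃ v ∈ closedBall (0 : ℂ) ρ0, φ v ∈ J) →
      ∀ v ∈ closedBall (0 : ℂ) ρ0, ∀ v' ∈ closedBall (0 : ℂ) ρ0, ‖φ v - φ v'‖ < ε := by
  by_contra hcon
  push Not at hcon
  have hc : ∀ n : ℕ, ∃ (k : ℕ) (φ : ℂ → ℂ) (y : ℂ), y ∈ J ∧ DifferentiableOn ℂ φ (ball 0 1) ∧ InjOn φ (ball 0 1) ∧
      (∀ v ∈ ball (0 : ℂ) 1, φ v ∈ dm f U J δ k ∧ f^[k] (φ v) ∈ ball y (1 / ((n : ℝ) + 1))) ∧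
      (∃ v ∈ closedBall (0 : ℂ) ρ0, φ v ∈ J) ∧
      ∃ v ∈ closedBall (0 : ℂ) ρ0, ∃ v' ∈ closedBall (0 : ℂ) ρ0, ε ≤ ‖φ v - φ v'‖ :=
    fun n => hcon _ (by positivity)
  choose k φ y hy hd hi hv hex v1 hv1 v2 hv2 hn using hc
  choose v0 hv0 hJ using hex
  obtain ⟨R0, hR⟩ := h.bd
  set 𝒰 : Ultrafilter ℕ := hyperfilter ℕ with h𝒰
  have hU : (𝒰 : Filter ℕ) ≤ atTop := Nat.hyperfilter_le_atTop
  obtain ⟨g, gd, -, gl⟩ := ulim 𝒰 (G := φ) (S := ball (0 : ℂ) 1) isOpen_ball (M := R0)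
    (Eventually.of_forall fun n => ⟨hd n, fun u hu => (mem_ball_zero_iff.1 (hR (k n) (hv n u hu).1)).le⟩)
  have hsub : closedBall (0 : ℂ) ρ0 ⊆ ball 0 1 := closedBall_subset_ball h1
  have hcp : IsCompact (closedBall (0 : ℂ) ρ0) := isCompact_closedBall _ _
  obtain ⟨a0, ha0, hl0⟩ := lim_cpt 𝒰 hcp hv0
  obtain ⟨a1, ha1, hl1⟩ := lim_cpt 𝒰 hcp hv1
  obtain ⟨a2, ha2, hl2⟩ := lim_cpt 𝒰 hcp hv2
  have hcomp : ∀ (w : ℕ → ℂ) (a : ℂ), (∀ n, w n ∈ closedBall (0 : ℂ) ρ0) → a ∈ closedBall (0 : ℂ) ρ0 →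
      Tendsto w (𝒰 : Filter ℕ) (𝓝 a) → Tendsto (fun n => φ n (w n)) (𝒰 : Filter ℕ) (𝓝 (g a)) := by
    intro w a hw ha hl
    refine gl.tendsto_comp (gd.continuousOn a (hsub ha)) (hsub ha) ?_
    exact tendsto_nhdsWithin_iff.2 ⟨hl, Eventually.of_forall fun n => hsub (hw n)⟩
  have c0 := hcomp v0 a0 hv0 ha0 hl0
  have c1 := hcomp v1 a1 hv1 ha1 hl1
  have c2 := hcomp v2 a2 hv2 ha2 hl2
  have hge : ε ≤ ‖g a1 - g a2‖ := ge_of_tendsto (c1.sub c2).norm (Eventually.of_forall hn)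
  have hgi : InjOn g (ball 0 1) := by
    refine ulim_inj 𝒰 isOpen_ball (convex_ball _ _).isPreconnected
      (Eventually.of_forall fun n => ⟨hd n, hi n⟩) gl ⟨a1, hsub ha1, a2, hsub ha2, fun he => ?_⟩
    rw [he, sub_self, norm_zero] at hge
    linarith
  have hgJ : g a0 ∈ J := h.Jc.isClosed.mem_of_tendsto c0 (Eventually.of_forall hJ)
  obtain ⟨r, hr, hO⟩ := img_ball 𝒰 hU isOpen_ball (Eventually.of_forall hd) gl hgi (hsub ha0)
  obtain ⟨N, hN⟩ := h.leo (ball (g a0) r) isOpen_ball ⟨g a0, mem_ball_self hr, hgJ⟩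
  obtain ⟨a, ha, b, hb, hab⟩ := h.Jt
  have hO2 : ∀ᶠ n in (𝒰 : Filter ℕ), ∀ s ∈ ball (g a0) r, f^[k n] s ∈ ball (y n) (1 / ((n : ℝ) + 1)) := by
    refine hO.mono fun n hn s hs => ?_
    obtain ⟨v, hv', rfl⟩ := hn hs
    exact (hv n v hv').2
  have hz : Tendsto (fun n : ℕ => 1 / ((n : ℝ) + 1)) (𝒰 : Filter ℕ) (𝓝 0) :=
    tendsto_one_div_add_atTop_nhds_zero_nat.mono_left hU
  have hz2 : ∀ e : ℝ, 0 < e → ∀ᶠ n : ℕ in (𝒰 : Filter ℕ), 1 / ((n : ℝ) + 1) < e / 2 := fun e he =>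
    hz.eventually (gt_mem_nhds (show (0 : ℝ) < e / 2 by linarith))
  rcases (𝒰.eventually_or (p := fun n => N ≤ k n) (q := fun n => ¬ N ≤ k n)).1
    (Eventually.of_forall fun n => em _) with hk | hk
  · obtain ⟨n, ⟨hn1, hn2⟩, hn3⟩ := ((hk.and hO2).and (hz2 (dist a b) (dist_pos.2 hab))).exists
    obtain ⟨s, hs, hsa⟩ := hN (k n) hn1 ha
    obtain ⟨t, ht, htb⟩ := hN (k n) hn1 hb
    have e1 : dist a (y n) < 1 / ((n : ℝ) + 1) := by rw [← hsa]; exact hn2 s hs.1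
    have e2 : dist b (y n) < 1 / ((n : ℝ) + 1) := by rw [← htb]; exact hn2 t ht.1
    have := dist_triangle_right a b (y n)
    linarith
  · obtain ⟨s, hs, hsa⟩ := hN N le_rfl ha
    obtain ⟨t, ht, htb⟩ := hN N le_rfl hb
    have hne : ∀ j < N, f^[j] s ≠ f^[j] t := by
      intro j hj he
      apply hab
      rw [← hsa, ← htb, show N = (N - j) + j by omega, Function.iterate_add_apply, Function.iterate_add_apply, he]
    have h5 : ∀ᶠ n : ℕ in (𝒰 : Filter ℕ), ∀ j ∈ Finset.range N, 1 / ((n : ℝ) + 1) < dist (f^[j] s) (f^[j] t) / 2 := by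
      rw [Filter.eventually_all_finset]
      intro j hj
      exact hz2 _ (dist_pos.2 (hne j (Finset.mem_range.1 hj)))
    obtain ⟨n, ⟨hn1, hn2⟩, hn3⟩ := ((hk.and hO2).and h5).exists
    have e0 := hn3 (k n) (Finset.mem_range.2 (by omega))
    have e1 := hn2 s hs.1
    have e2 := hn2 t ht.1
    rw [mem_ball] at e1 e2
    have := dist_triangle_right (f^[k n] s) (f^[k n] t) (y n)
    linarith

/-- the Möbius maps of the disc -/
theorem mob_lt {α w : ℂ} (ha : ‖α‖ < 1) (hw : ‖w‖ < 1) :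
    ‖(w + α) / (1 + (starRingEnd ℂ) α * w)‖ < 1 := by
  have hden : (1 + (starRingEnd ℂ) α * w) ≠ 0 := by
    intro h0
    have h1 : ‖(starRingEnd ℂ) α * w‖ = 1 := by
      have : (starRingEnd ℂ) α * w = -1 := by linear_combination h0
      rw [this]; simp
    rw [norm_mul, RCLike.norm_conj] at h1
    nlinarith [norm_nonneg α, norm_nonneg w]
  rw [norm_div, div_lt_one (norm_pos_iff.2 hden)]
  have key : ‖w + α‖ ^ 2 < ‖1 + (starRingEnd ℂ) α * w‖ ^ 2 := by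
    have e1 : ‖1 + (starRingEnd ℂ) α * w‖ ^ 2 - ‖w + α‖ ^ 2 = (1 - ‖α‖ ^ 2) * (1 - ‖w‖ ^ 2) := by
      simp only [← Complex.normSq_eq_norm_sq, Complex.normSq_apply]
      simp only [Complex.add_re, Complex.add_im, Complex.mul_re, Complex.mul_im, Complex.conj_re, Complex.conj_im,
        Complex.one_re, Complex.one_im]
      ring
    have : 0 < (1 - ‖α‖ ^ 2) * (1 - ‖w‖ ^ 2) := by
      apply mul_pos <;> nlinarith [norm_nonneg α, norm_nonneg w]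
    linarith
  exact lt_of_pow_lt_pow_left₀ 2 (norm_nonneg _) key

/-- the preimages of `ball 0 θ` under the degree two maps -/
theorem mob_pre {θ : ℝ} (hθ : 0 < θ) (hθ1 : θ < 1) {α u : ℂ} (ha : ‖α‖ ≤ θ) (hu : ‖u‖ ≤ θ) :
    ∃ v : ℂ, ‖v‖ ≤ 1 - (1 - θ ^ 2) ^ 2 / 16 ∧ (v ^ 2 + α) / (1 + (starRingEnd ℂ) α * v ^ 2) = u := by
  have hden : (1 - (starRingEnd ℂ) α * u) ≠ 0 := by
    intro h0
    have h1 : ‖(starRingEnd ℂ) α * u‖ = 1 := by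
      have : (starRingEnd ℂ) α * u = 1 := by linear_combination -h0
      rw [this]; simp
    rw [norm_mul, RCLike.norm_conj] at h1
    nlinarith [norm_nonneg α, norm_nonneg u]
  set w : ℂ := (u - α) / (1 - (starRingEnd ℂ) α * u) with hw
  obtain ⟨v, hv⟩ := IsAlgClosed.exists_pow_nat_eq w (n := 2) two_pos
  have ha1 : ‖α‖ ^ 2 ≤ θ ^ 2 := pow_le_pow_left₀ (norm_nonneg _) ha 2
  have hu1 : ‖u‖ ^ 2 ≤ θ ^ 2 := pow_le_pow_left₀ (norm_nonneg _) hu 2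
  have hθ2 : θ ^ 2 < 1 := by nlinarith
  have hw1 : 1 - ‖w‖ ^ 2 = (1 - ‖α‖ ^ 2) * (1 - ‖u‖ ^ 2) / ‖1 - (starRingEnd ℂ) α * u‖ ^ 2 := by
    have hd2 : ‖1 - (starRingEnd ℂ) α * u‖ ^ 2 ≠ 0 := by
      have := norm_pos_iff.2 hden
      positivity
    have e1 : ‖1 - (starRingEnd ℂ) α * u‖ ^ 2 - ‖u - α‖ ^ 2 = (1 - ‖α‖ ^ 2) * (1 - ‖u‖ ^ 2) := by
      simp only [← Complex.normSq_eq_norm_sq, Complex.normSq_apply]
      simp only [Complex.sub_re, Complex.sub_im, Complex.mul_re, Complex.mul_im, Complex.conj_re, Complex.conj_im,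
        Complex.one_re, Complex.one_im]
      ring
    rw [hw, norm_div, div_pow, ← e1, sub_div, div_self hd2]
  have hd3 : ‖1 - (starRingEnd ℂ) α * u‖ ^ 2 ≤ 4 := by
    have h1 : ‖1 - (starRingEnd ℂ) α * u‖ ≤ 2 := by
      refine le_trans (norm_sub_le _ _) ?_
      rw [norm_mul, RCLike.norm_conj, norm_one]
      nlinarith [norm_nonneg α, norm_nonneg u]
    have := pow_le_pow_left₀ (norm_nonneg _) h1 2
    linarith
  have hd4 : 0 < ‖1 - (starRingEnd ℂ) α * u‖ ^ 2 := by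
    have := norm_pos_iff.2 hden
    positivity
  have hw2 : (1 - θ ^ 2) ^ 2 / 4 ≤ 1 - ‖w‖ ^ 2 := by
    rw [hw1, div_le_div_iff₀ (by norm_num) hd4]
    have h1 : (1 - θ ^ 2) ^ 2 ≤ (1 - ‖α‖ ^ 2) * (1 - ‖u‖ ^ 2) := by
      rw [sq]
      exact mul_le_mul (by linarith) (by linarith) (by linarith) (by linarith)
    have h2 : 0 ≤ (1 - θ ^ 2) ^ 2 := sq_nonneg _
    nlinarith
  refine ⟨v, ?_, ?_⟩
  · have hx1 : (1 - θ ^ 2) ^ 2 ≤ 1 := by nlinarith [sq_nonneg θ]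
    have hx0 : 0 ≤ (1 - θ ^ 2) ^ 2 := sq_nonneg _
    have hv4 : ‖v‖ ^ 4 ≤ (1 - (1 - θ ^ 2) ^ 2 / 16) ^ 4 := by
      have e2 : ‖v‖ ^ 4 = ‖w‖ ^ 2 := by
        rw [← hv, norm_pow]; ring
      have e3 : 1 - 4 * ((1 - θ ^ 2) ^ 2 / 16) ≤ (1 - (1 - θ ^ 2) ^ 2 / 16) ^ 4 := by
        have := one_add_mul_le_pow (a := -((1 - θ ^ 2) ^ 2 / 16)) (by linarith) 4
        push_cast at this
        calc 1 - 4 * ((1 - θ ^ 2) ^ 2 / 16) = 1 + 4 * -((1 - θ ^ 2) ^ 2 / 16) := by ring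
          _ ≤ (1 + -((1 - θ ^ 2) ^ 2 / 16)) ^ 4 := this
          _ = (1 - (1 - θ ^ 2) ^ 2 / 16) ^ 4 := by ring
      rw [e2]
      linarith
    exact le_of_pow_le_pow_left₀ (by norm_num) (by linarith) hv4
  · rw [hv, hw]
    have hα : (1 : ℂ) - (starRingEnd ℂ) α * α ≠ 0 := by
      intro h0
      have h1 : ‖(starRingEnd ℂ) α * α‖ = 1 := by
        have : (starRingEnd ℂ) α * α = 1 := by linear_combination -h0
        rw [this]; simp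
      rw [norm_mul, RCLike.norm_conj] at h1
      nlinarith [norm_nonneg α]
    have e1 : (u - α) / (1 - (starRingEnd ℂ) α * u) + α
        = u * (1 - (starRingEnd ℂ) α * α) / (1 - (starRingEnd ℂ) α * u) := by
      rw [div_add' _ _ _ hden]
      ring_nf
    have e2 : 1 + (starRingEnd ℂ) α * ((u - α) / (1 - (starRingEnd ℂ) α * u))
        = (1 - (starRingEnd ℂ) α * α) / (1 - (starRingEnd ℂ) α * u) := by
      rw [mul_div_assoc', add_div' _ _ _ hden]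
      ring_nf
    rw [e1, e2, div_div_div_cancel_right₀ hden, mul_div_cancel_right₀ _ hα]

/-- small pull back units over gap discs -/
theorem sh2 (h : PS f U J P Cr δ η ρ) {θ C ρ0 ε : ℝ} (hθ : 0 < θ) (hθ1 : θ < 1) (hC : 1 ≤ C) (h0 : 0 < ρ0) (h1 : ρ0 < 1)
    (hε : 0 < ε) :
    ∃ δ2 : ℝ, 0 < δ2 ∧ ∀ (k : ℕ) (x : ℂ) (r : ℝ) (ψ φ β : ℂ → ℂ), x ∈ P → 0 < r → r < δ2 → GD θ C P x r ψ →
      PU (f^[k]) (dm f U J δ k) θ ψ φ β →
      (∃ v ∈ ball (0 : ℂ) 1, φ v ∈ J) ∧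
      ∀ v ∈ closedBall (0 : ℂ) ρ0, ∀ v' ∈ closedBall (0 : ℂ) ρ0, ‖φ v - φ v'‖ < ε := by
  have hx0 : 0 < (1 - θ ^ 2) ^ 2 := by
    have : 0 < 1 - θ ^ 2 := by nlinarith
    positivity
  have hx1 : (1 - θ ^ 2) ^ 2 ≤ 1 := by
    have : 0 < 1 - θ ^ 2 := by nlinarith
    nlinarith [sq_nonneg θ]
  set ρ1 : ℝ := max (max ρ0 θ) (1 - (1 - θ ^ 2) ^ 2 / 16) with hρ1
  have hρ10 : 0 < ρ1 := lt_of_lt_of_le h0 (le_trans (le_max_left _ _) (le_max_left _ _))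
  have hρ11 : ρ1 < 1 := by
    rw [hρ1]
    refine max_lt (max_lt h1 hθ1) (by linarith)
  obtain ⟨δ2, hδ2, hsh⟩ := sh h hρ10 hρ11 hε
  refine ⟨δ2, hδ2, fun k x r ψ φ β hx hr hrδ hG hP => ?_⟩
  have hβ : ∀ v ∈ ball (0 : ℂ) 1, β v ∈ ball (0 : ℂ) 1 := by
    intro v hv
    rw [mem_ball_zero_iff] at hv ⊢
    rcases hP.typ with ht | ⟨α, hα, ht⟩
    · rw [ht]; exact hv
    · rw [ht]
      refine mob_lt (lt_of_le_of_lt hα hθ1) ?_
      rw [norm_pow]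
      nlinarith [norm_nonneg v]
  obtain ⟨u0, hu0, hux⟩ := hG.inn (mem_ball_self (by positivity : 0 < r / C))
  rw [mem_ball_zero_iff] at hu0
  have hv0 : ∃ v ∈ closedBall (0 : ℂ) ρ1, β v = u0 := by
    rcases hP.typ with ht | ⟨α, hα, ht⟩
    · refine ⟨u0, ?_, ht u0⟩
      rw [mem_closedBall_zero_iff]
      exact le_trans hu0.le (le_trans (le_max_right _ _) (le_max_left _ _))
    · obtain ⟨v, hv, hv2⟩ := mob_pre hθ hθ1 hα hu0.le
      refine ⟨v, ?_, by rw [ht]; exact hv2⟩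
      rw [mem_closedBall_zero_iff]
      exact le_trans hv (le_max_right _ _)
  obtain ⟨v0, hv0, hv02⟩ := hv0
  have hsub : closedBall (0 : ℂ) ρ1 ⊆ ball 0 1 := closedBall_subset_ball hρ11
  have hJ0 : φ v0 ∈ J := by
    refine J_back h (hP.val v0 (hsub hv0)).1 ?_
    rw [(hP.val v0 (hsub hv0)).2, hv02, hux]
    exact h.PJ hx
  refine ⟨⟨v0, hsub hv0, hJ0⟩, ?_⟩
  have := hsh k φ x (h.PJ hx) hP.diff hP.inj (fun v hv => ⟨(hP.val v hv).1, ?_⟩) ⟨v0, hv0, hJ0⟩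
  · intro v hv v' hv'
    have hle : ρ0 ≤ ρ1 := le_trans (le_max_left _ _) (le_max_left _ _)
    exact this v (closedBall_subset_closedBall hle hv) v' (closedBall_subset_closedBall hle hv')
  · rw [(hP.val v hv).2]
    exact ball_subset_ball hrδ.le (hG.out ⟨β v, hβ v hv, rfl⟩)

end Pool.Agent.H56.UD
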