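import Pool.Agent.H56.UD.Defs

/-!
# THEOREM UD: definitions for the chapter on limit systems, and its target

`Ph`: the limit of the sets `P n`. `Gd w s`: `s` is a good point over `w` (a limit of nondegenerate points of `D n` whose
values tend to `w ∉ Ph`). `Sg`: the good points. `Sc sb`: the component of `sb`.
-/

set_option autoImplicit false

open Filter Topology Metric Set MeasureTheory

namespace Pool.Agent.H56.UD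

/-- the limit set of the `P n` -/
def Ph (𝒰 : Ultrafilter ℕ) (P : ℕ → Set ℂ) : Set ℂ :=
  {w | ∀ ε : ℝ, 0 < ε → ∀ᶠ n in (𝒰 : Filter ℕ), ∃ y ∈ P n, ‖y - w‖ < ε}

/-- good pairs -/
def Gd (𝒰 : Ultrafilter ℕ) (F : ℕ → ℂ → ℂ) (D P : ℕ → Set ℂ) (w s : ℂ) : Prop :=
  w ∉ Ph 𝒰 P ∧ ∃ (M : ℝ) (z : ℕ → ℂ),
    (∀ᶠ n in (𝒰 : Filter ℕ), z n ∈ D n ∧ 1 ≤ M * ‖deriv (F n) (z n)‖ ∧ ‖deriv (F n) (z n)‖ ≤ M) ∧
    Tendsto z (𝒰 : Filter ℕ) (𝓝 s) ∧ Tendsto (fun n => F n (z n)) (𝒰 : Filter ℕ) (𝓝 w)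

/-- the good points -/
def Sg (𝒰 : Ultrafilter ℕ) (F : ℕ → ℂ → ℂ) (D P : ℕ → Set ℂ) : Set ℂ := {s | ∃ w, Gd 𝒰 F D P w s}

/-- the component of `sb` in the set of the good points -/
def Sc (𝒰 : Ultrafilter ℕ) (F : ℕ → ℂ → ℂ) (D P : ℕ → Set ℂ) (sb : ℂ) : Set ℂ :=
  connectedComponentIn (Sg 𝒰 F D P) sb

/-- at all scales some lift of the collar of a gap disc at `0`, with a limit in the component of `sb`, does not close after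
two turns -/
def Ord (𝒰 : Ultrafilter ℕ) (F : ℕ → ℂ → ℂ) (D P : ℕ → Set ℂ) (θ C : ℝ) (sb : ℂ) : Prop :=
  ∀ r : ℝ, 0 < r → ∃ ψ q : ℕ → ℂ → ℂ,
    (∀ᶠ n in (𝒰 : Filter ℕ), GD θ C (P n) 0 r (ψ n) ∧ Lf (F n) (D n) θ (ψ n) (q n) ∧ ¬ Cls θ 2 (q n)) ∧
    ∃ ζ ∈ Qc θ, ∃ s ∈ Sc 𝒰 F D P sb, Tendsto (fun n => q n ζ) (𝒰 : Filter ℕ) (𝓝 s)

/-- the limit is exactly the exponential -/
def Xp (𝒰 : Ultrafilter ℕ) (F : ℕ → ℂ → ℂ) (D P : ℕ → Set ℂ) (sb : ℂ) : Prop :=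
  ∃ κ c : ℂ, κ ≠ 0 ∧
    (∀ s ∈ Sc 𝒰 F D P sb, ∀ w, Gd 𝒰 F D P w s → w = Complex.exp ((s - c) / κ)) ∧
    ∀ L ε : ℝ, 0 < ε → ∀ᶠ n in (𝒰 : Filter ℕ), ∃ G : ℂ → ℂ, DifferentiableOn ℂ G (ball 0 L) ∧
      ∀ ζ ∈ ball (0 : ℂ) L, G ζ ∈ D n ∧ F n (G ζ) = Complex.exp ζ ∧ ‖G ζ - (κ * ζ + c)‖ < ε

end Pool.Agent.H56.UD
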