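import Pool.Agent.H56.UD.Defs
import Pool.Agent.H56.UD.AA
import Pool.Agent.H80.AJ.Cover
import Pool.Agent.H80.AJ.Distort

/-!
# THEOREM UD, chapter R (restoration): locally bounded sequences, univalent functions on rectangles

PROOF of `ulim_loc`. For every `u ∈ S` the sequence `G n u` is eventually bounded, so it has a limit `g u` (put `g u = 0` off `S`; limits along an ultrafilter in a compact ball, unique in the Hausdorff space `ℂ`). For `u ∈ S` and `r, M` as in `hG` `ulim` gives a limit `g1` on `ball u r`, locally uniform, so pointwise: `g1 = g` on `ball u r`. Differentiability and locally uniform convergence are local (`tendstoLocallyUniformlyOn_of_forall_exists_nhds`-like, `TendstoLocallyUniformlyOn` unfold).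
PROOF of `ral`. `K ∪ {0}` is compact in the open convex set `Qr α β L`; the union of the segments `[0, ζ]`, `ζ ∈ K`, is compact too (image of `[0,1] × K` under `(t, ζ) ↦ t ζ`), so there is `r > 0` such that all `ball p r`, `p` in it, are in `Qr α β L` (`IsCompact.exists_thickening_subset_open`). Chain of `N` points `p j = (j / N) ζ`, `‖ζ‖ / N ≤ r / 2`: `distort` gives `‖deriv G (p (j+1))‖ ≤ KK ‖deriv G (p j)‖` and the converse, `distort_lip` the bound for the values. (Copy `enc_seg`, `qr_open`, `qr_convex` from `H56/UD/MB`.)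
-/

set_option autoImplicit false

open Filter Topology Metric Set

namespace Pool.Agent.H56.UD

theorem ulim_loc (𝒰 : Ultrafilter ℕ) {G : ℕ → ℂ → ℂ} {S : Set ℂ} (hS : IsOpen S)
    (hG : ∀ u ∈ S, ∃ r M : ℝ, 0 < r ∧ ball u r ⊆ S ∧
      ∀ᶠ n in (𝒰 : Filter ℕ), DifferentiableOn ℂ (G n) (ball u r) ∧ ∀ v ∈ ball u r, ‖G n v‖ ≤ M) :
    ∃ g : ℂ → ℂ, DifferentiableOn ℂ g S ∧ TendstoLocallyUniformlyOn G g (𝒰 : Filter ℕ) S := by
  have hpt : ∀ u ∈ S, ∃ y : ℂ, Tendsto (fun n => G n u) (𝒰 : Filter ℕ) (𝓝 y) := by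
    intro u hu
    obtain ⟨r, M, hr, -, hev⟩ := hG u hu
    have hle : ((𝒰.map (fun n => G n u) : Ultrafilter ℂ) : Filter ℂ) ≤ 𝓟 (closedBall 0 M) := by
      rw [le_principal_iff, Ultrafilter.coe_map, mem_map]
      filter_upwards [hev] with n hn
      simpa using hn.2 u (mem_ball_self hr)
    obtain ⟨y, -, hy2⟩ := (isCompact_closedBall (0 : ℂ) M).ultrafilter_le_nhds _ hle
    exact ⟨y, by rw [Ultrafilter.coe_map] at hy2; exact hy2⟩
  choose! g hgt using hpt
  have hloc : ∀ u ∈ S, ∃ r : ℝ, 0 < r ∧ ball u r ⊆ S ∧ DifferentiableOn ℂ g (ball u r) ∧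
      TendstoLocallyUniformlyOn G g (𝒰 : Filter ℕ) (ball u r) := by
    intro u hu
    obtain ⟨r, M, hr, hrS, hev⟩ := hG u hu
    obtain ⟨g1, h1, -, h3⟩ := ulim 𝒰 isOpen_ball hev
    have he : EqOn g1 g (ball u r) := fun v hv =>
      tendsto_nhds_unique (h3.tendsto_at hv) (hgt v (hrS hv))
    exact ⟨r, hr, hrS, h1.congr fun v hv => (he hv).symm, h3.congr_right he⟩
  refine ⟨g, fun u hu => ?_, ?_⟩
  · obtain ⟨r, hr, -, hd, -⟩ := hloc u hu
    exact (hd.differentiableAt (ball_mem_nhds u hr)).differentiableWithinAt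
  · rw [Metric.tendstoLocallyUniformlyOn_iff]
    intro ε hε u hu
    obtain ⟨r, hr, -, -, ht⟩ := hloc u hu
    rw [Metric.tendstoLocallyUniformlyOn_iff] at ht
    obtain ⟨t, ht1, ht2⟩ := ht ε hε u (mem_ball_self hr)
    rw [isOpen_ball.nhdsWithin_eq (mem_ball_self hr)] at ht1
    exact ⟨t, mem_nhdsWithin_of_mem_nhds ht1, ht2⟩

private theorem ra_seg {g : ℂ → ℂ} {S : Set ℂ} {r : ℝ} (hr : 0 < r) (hg : DifferentiableOn ℂ g S)
    (hi : InjOn g S) (N : ℕ) (p : ℕ → ℂ) (hp : ∀ j ≤ N, ball (p j) r ⊆ S)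
    (hst : ∀ j < N, ‖p (j + 1) - p j‖ ≤ r / 2) :
    ‖deriv g (p N)‖ ≤ Pool.Agent.H80.AJ.KK ^ N * ‖deriv g (p 0)‖ ∧
      ‖g (p N) - g (p 0)‖ ≤ N * Pool.Agent.H80.AJ.KK ^ N * r * ‖deriv g (p 0)‖ := by
  induction N with
  | zero =>
    refine ⟨by simp, by simp⟩
  | succ N ih =>
    obtain ⟨h1, h2⟩ := ih (fun j hj => hp j (by omega)) fun j hj => hst j (by omega)
    have hb := hp N (by omega)
    have hgb := hg.mono hb
    have hib := hi.mono hb
    have hw : p (N + 1) ∈ closedBall (p N) (r / 2) := by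
      rw [mem_closedBall, dist_eq_norm]
      exact hst N (by omega)
    have hc : p N ∈ closedBall (p N) (r / 2) := mem_closedBall_self (by linarith)
    have h3 := Pool.Agent.H80.AJ.distort hr hgb hib hw hc
    have h4 := Pool.Agent.H80.AJ.distort_lip hr hgb hib hw hc hc
    have hK := Pool.Agent.H80.AJ.one_le_KK
    have hK0 := Pool.Agent.H80.AJ.KK_pos
    have hKN : 0 < Pool.Agent.H80.AJ.KK ^ N := pow_pos hK0 N
    have hD := norm_nonneg (deriv g (p 0))
    refine ⟨?_, ?_⟩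
    · calc ‖deriv g (p (N + 1))‖ ≤ Pool.Agent.H80.AJ.KK * ‖deriv g (p N)‖ := h3
        _ ≤ Pool.Agent.H80.AJ.KK * (Pool.Agent.H80.AJ.KK ^ N * ‖deriv g (p 0)‖) := mul_le_mul_of_nonneg_left h1 hK0.le
        _ = Pool.Agent.H80.AJ.KK ^ (N + 1) * ‖deriv g (p 0)‖ := by ring
    · have h5 : ‖g (p (N + 1)) - g (p N)‖ ≤ Pool.Agent.H80.AJ.KK ^ (N + 1) * r * ‖deriv g (p 0)‖ := by
        calc ‖g (p (N + 1)) - g (p N)‖ ≤ Pool.Agent.H80.AJ.KK * ‖deriv g (p N)‖ * ‖p (N + 1) - p N‖ := h4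
          _ ≤ Pool.Agent.H80.AJ.KK * (Pool.Agent.H80.AJ.KK ^ N * ‖deriv g (p 0)‖) * r := by
              refine mul_le_mul (mul_le_mul_of_nonneg_left h1 hK0.le)
                ((hst N (by omega)).trans (by linarith)) (norm_nonneg _) (by positivity)
          _ = Pool.Agent.H80.AJ.KK ^ (N + 1) * r * ‖deriv g (p 0)‖ := by ring
      have h6 : N * Pool.Agent.H80.AJ.KK ^ N * r * ‖deriv g (p 0)‖ ≤ N * Pool.Agent.H80.AJ.KK ^ (N + 1) * r * ‖deriv g (p 0)‖ := by
        have h7 : Pool.Agent.H80.AJ.KK ^ N ≤ Pool.Agent.H80.AJ.KK ^ (N + 1) := pow_le_pow_right₀ hK (by omega)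
        gcongr
      calc ‖g (p (N + 1)) - g (p 0)‖ = ‖(g (p (N + 1)) - g (p N)) + (g (p N) - g (p 0))‖ := by
            congr 1
            ring
        _ ≤ ‖g (p (N + 1)) - g (p N)‖ + ‖g (p N) - g (p 0)‖ := norm_add_le _ _
        _ ≤ Pool.Agent.H80.AJ.KK ^ (N + 1) * r * ‖deriv g (p 0)‖ + N * Pool.Agent.H80.AJ.KK ^ (N + 1) * r * ‖deriv g (p 0)‖ := by
            linarith
        _ = ((N + 1 : ℕ) : ℝ) * Pool.Agent.H80.AJ.KK ^ (N + 1) * r * ‖deriv g (p 0)‖ := by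
            push_cast
            ring

private theorem ra_open (α β L : ℝ) : IsOpen (Qr α β L) := by
  have h1 : IsOpen {ζ : ℂ | α < ζ.re} := isOpen_lt continuous_const Complex.continuous_re
  have h2 : IsOpen {ζ : ℂ | ζ.re < β} := isOpen_lt Complex.continuous_re continuous_const
  have h3 : IsOpen {ζ : ℂ | |ζ.im| < L} := isOpen_lt Complex.continuous_im.abs continuous_const
  exact h1.inter (h2.inter h3)

private theorem ra_convex (α β L : ℝ) : Convex ℝ (Qr α β L) := by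
  intro u hu v hv a b ha hb hab
  obtain ⟨h1, h2, h3⟩ := hu
  obtain ⟨h4, h5, h6⟩ := hv
  have hre : (a • u + b • v).re = a * u.re + b * v.re := by simp
  have him : (a • u + b • v).im = a * u.im + b * v.im := by simp
  have hb' : b = 1 - a := by linarith
  refine ⟨?_, ?_, ?_⟩
  · rw [hre, hb']
    rcases eq_or_lt_of_le ha with h0 | h0
    · rw [← h0]
      linarith
    · nlinarith [mul_nonneg hb (sub_pos.2 h4).le, mul_pos h0 (sub_pos.2 h1)]
  · rw [hre, hb']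
    rcases eq_or_lt_of_le ha with h0 | h0
    · rw [← h0]
      linarith
    · nlinarith [mul_nonneg hb (sub_pos.2 h5).le, mul_pos h0 (sub_pos.2 h2)]
  · rw [him]
    rw [abs_lt] at h3 h6 ⊢
    rw [hb']
    rcases eq_or_lt_of_le ha with h0 | h0
    · rw [← h0]
      constructor <;> linarith [h6.1, h6.2]
    · constructor
      · nlinarith [mul_nonneg hb (sub_pos.2 h6.1).le, mul_pos h0 (sub_pos.2 h3.1)]
      · nlinarith [mul_nonneg hb (sub_pos.2 h6.2).le, mul_pos h0 (sub_pos.2 h3.2)]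

/-- univalent functions on rectangles -/
theorem ral {α β L : ℝ} (hα : α < 0) (hβ : 0 < β) (hL : 0 < L) {K : Set ℂ} (hK : IsCompact K) (hKQ : K ⊆ Qr α β L) :
    ∃ M : ℝ, 1 ≤ M ∧ ∀ G : ℂ → ℂ, DifferentiableOn ℂ G (Qr α β L) → InjOn G (Qr α β L) →
      ∀ ζ ∈ K, ‖G ζ - G 0‖ ≤ M * ‖deriv G 0‖ ∧ ‖deriv G 0‖ ≤ M * ‖deriv G ζ‖ := by
  have h0 : (0 : ℂ) ∈ Qr α β L := by
    refine ⟨?_, ?_, ?_⟩
    · rw [Complex.zero_re]
      exact hα
    · rw [Complex.zero_re]
      exact hβ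
    · rw [Complex.zero_im, abs_zero]
      exact hL
  have hKc : IsCompact ((fun p : ℝ × ℂ => p.1 • p.2) '' (Icc (0 : ℝ) 1 ×ˢ K)) :=
    (isCompact_Icc.prod hK).image (continuous_fst.smul continuous_snd)
  have hKS : (fun p : ℝ × ℂ => p.1 • p.2) '' (Icc (0 : ℝ) 1 ×ˢ K) ⊆ Qr α β L := by
    rintro _ ⟨⟨s, ζ⟩, ⟨hs, hζ⟩, rfl⟩
    have h1 := ra_convex α β L h0 (hKQ hζ) (show (0 : ℝ) ≤ 1 - s by linarith [hs.2]) hs.1 (by ring)
    rw [smul_zero, zero_add] at h1
    exact h1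
  obtain ⟨r, hr, hrQ⟩ := hKc.exists_cthickening_subset_open (ra_open α β L) hKS
  have hb : ∀ s : ℝ, 0 ≤ s → s ≤ 1 → ∀ ζ ∈ K, ball (s • ζ) r ⊆ Qr α β L := by
    intro s hs0 hs1 ζ hζ
    refine (ball_subset_thickening ?_ r).trans ((thickening_subset_cthickening r _).trans hrQ)
    exact ⟨(s, ζ), ⟨⟨hs0, hs1⟩, hζ⟩, rfl⟩
  obtain ⟨B, hB⟩ := hK.isBounded.exists_norm_le
  obtain ⟨N, hN⟩ := exists_nat_gt (max (2 * B / r) 0)
  have hN0 : (0 : ℝ) < N := (le_max_right _ _).trans_lt hN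
  have hNB : 2 * B / r < N := (le_max_left _ _).trans_lt hN
  have hKK := Pool.Agent.H80.AJ.KK_pos
  have hKN : 0 < Pool.Agent.H80.AJ.KK ^ N := pow_pos hKK N
  have hNn : 0 ≤ N * Pool.Agent.H80.AJ.KK ^ N * r := by positivity
  refine ⟨1 + N * Pool.Agent.H80.AJ.KK ^ N * r + Pool.Agent.H80.AJ.KK ^ N, by linarith, ?_⟩
  intro G hd hi ζ hζ
  have hst : ∀ s s' : ℝ, |s - s'| = 1 / N → ‖s • ζ - s' • ζ‖ ≤ r / 2 := by
    intro s s' hss
    rw [← sub_smul, norm_smul, Real.norm_eq_abs, hss, div_mul_eq_mul_div, one_mul,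
      div_le_iff₀ hN0]
    have h1 := hB ζ hζ
    rw [div_lt_iff₀ hr] at hNB
    linarith
  have h2 : ((N : ℝ) / N) • ζ = ζ := by
    rw [div_self hN0.ne', one_smul]
  have h3 : (((0 : ℕ) : ℝ) / N) • ζ = 0 := by
    rw [Nat.cast_zero, zero_div, zero_smul]
  have hfrac : ∀ j ≤ N, 0 ≤ (j : ℝ) / N ∧ (j : ℝ) / N ≤ 1 := by
    intro j hj
    refine ⟨by positivity, ?_⟩
    rw [div_le_one hN0]
    exact_mod_cast hj
  have hD := norm_nonneg (deriv G 0)
  have hDζ := norm_nonneg (deriv G ζ)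
  constructor
  · have h1 := (ra_seg hr hd hi N (fun j => ((j : ℝ) / N) • ζ)
      (fun j hj => hb _ (hfrac j hj).1 (hfrac j hj).2 ζ hζ) (fun j _ => hst _ _ (by
        rw [← sub_div, Nat.cast_succ, add_sub_cancel_left, abs_of_pos (by positivity)]))).2
    simp only [h2, h3] at h1
    refine h1.trans ?_
    gcongr
    linarith
  · have h1 := (ra_seg hr hd hi N (fun j => (1 - (j : ℝ) / N) • ζ)
      (fun j hj => hb _ (by linarith [(hfrac j hj).2]) (by linarith [(hfrac j hj).1]) ζ hζ)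
      (fun j _ => hst _ _ (by
        have h4 : 1 - ((j + 1 : ℕ) : ℝ) / N - (1 - (j : ℝ) / N) = -(1 / N) := by
          push_cast
          ring
        rw [h4, abs_neg, abs_of_pos (by positivity)]))).1
    have h5 : (1 - (N : ℝ) / N) • ζ = 0 := by
      rw [div_self hN0.ne', sub_self, zero_smul]
    have h6 : (1 - ((0 : ℕ) : ℝ) / N) • ζ = ζ := by
      rw [Nat.cast_zero, zero_div, sub_zero, one_smul]
    simp only [h5, h6] at h1
    refine h1.trans ?_
    gcongr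
    linarith

end Pool.Agent.H56.UD
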