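import Pool.Agent.H56.UD.DA
import Pool.Agent.H56.UD.AA

/-!
# THEOREM UD, chapter D: frames, the Galois lemma, no cones

`Fm`: a sequence of frames. `Fn`, `Dn`, `Pn`: the rescaled data: `Fn n s = (f^k (z + σ s) - x) / R`.
PROOF of `galois` (think 1469, section 1). On `ball w ρ` write `W = x n + R n u`, `G n` the rescaled branch, `Γ u = z n + σ n * G n u ∈ dm (k n)`, `f^k (Γ u) = x n + R n u`. By `X_it` and the chain rule (`deriv (f^k) (Γ u) * (σ n * deriv (G n) u) = R n`):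
`X (x n + R n u) = (R n / (σ n * deriv (G n) u)) * X (Γ u) + H_k (Γ u)`, and (T) at `z n` on `ball (z n) (2 M |σ n|)`: `X (Γ u) = μ (z n) * conj (σ n * G n u) + H (Γ u) + e`, `|e| ≤ ε_n |σ n|`, `ε_n → 0`. The same for `G' n`; subtract and divide by `R n * conj (σ n) / σ n`:
`μ (z n) * (conj (G n u) / deriv (G n) u - conj (G' n u) / deriv (G' n) u) = (holomorphic in u) + o(1)` locally uniformly on `ball w ρ` (`|deriv (G n) u| ≥ c` locally: `distort`, univalence of `G n` (it has the left inverse `Fn n`), `1 ≤ M |deriv (G n) w|`). Limits along `𝒰` (`ulim`, `ulim_deriv`; `μ (z n) → b`, `|b| ≥ b0`; `g`, `g'` holomorphic, `deriv ≠ 0`): the left side tends locally uniformly to `b (conj g / deriv g - conj g' / deriv g')`, which is therefore a locally uniform limit of holomorphic functions, so holomorphic: `A`. For a function of the form `conj g * p - conj g' * p'` (`p = 1 / deriv g`, `p' = 1 / deriv g'` holomorphic) to be holomorphic one needs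 `conj (deriv g) * p = conj (deriv g') * p'` (apply `∂̄`; in Lean: real differentiability, the antilinear part of the derivative is `0`; or compare the derivatives in the directions `1` and `i`). So `conj (deriv g' / deriv g) = deriv g' / deriv g`... precisely `deriv g' / deriv g = conj (deriv g' / deriv g)`: real valued holomorphic on a ball, hence constant `t ≠ 0`; `g' - t g` is constant `c`. Then `G' n u - (t * G n u + c) → 0` for every `u ∈ ball w ρ`.
-/

set_option autoImplicit false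

open Filter Topology Metric Set MeasureTheory

namespace Pool.Agent.H56.UD

/-- a sequence of frames -/
structure Fm (𝒰 : Ultrafilter ℕ) (E P : Set ℂ) (z : ℕ → ℂ) (k : ℕ → ℕ) (x R σ : ℕ → ℂ) : Prop where
  zE : ∀ n, z n ∈ E
  xP : ∀ n, x n ∈ P
  R0 : ∀ n, R n ≠ 0
  σ0 : ∀ n, σ n ≠ 0
  Rt : Tendsto R (𝒰 : Filter ℕ) (𝓝 0)
  σt : Tendsto σ (𝒰 : Filter ℕ) (𝓝 0)

/-- the rescaled iterates -/
noncomputable def Fn (f : ℂ → ℂ) (z : ℕ → ℂ) (k : ℕ → ℕ) (x R σ : ℕ → ℂ) (n : ℕ) (s : ℂ) : ℂ :=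
  (f^[k n] (z n + σ n * s) - x n) / R n

/-- their domains -/
def Dn (f : ℂ → ℂ) (U J : Set ℂ) (δ : ℝ) (z : ℕ → ℂ) (k : ℕ → ℕ) (σ : ℕ → ℂ) (n : ℕ) : Set ℂ :=
  {s | z n + σ n * s ∈ dm f U J δ (k n)}

/-- the rescaled postcritical set -/
def Pn (P : Set ℂ) (x R : ℕ → ℂ) (n : ℕ) : Set ℂ := {w | x n + R n * w ∈ P}

variable {f : ℂ → ℂ} {U J P Cr E : Set ℂ} {δ b0 : ℝ} {η : ℂ → ℂ → ℂ} {ρ : ℝ} {X hh μ : ℂ → ℂ}

/-- one branch -/
private theorem gal_br (h : PS f U J P Cr δ η ρ) {z x R σ : ℂ} {k : ℕ} (hR : R ≠ 0) {w : ℂ} {r M : ℝ} {G : ℂ → ℂ}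
    (hG : Bq (fun s => (f^[k] (z + σ * s) - x) / R) {s | z + σ * s ∈ dm f U J δ k} w r M G) {u : ℂ}
    (hu : u ∈ ball w r) : z + σ * G u ∈ dm f U J δ k ∧ f^[k] (z + σ * G u) = x + R * u ∧
      deriv (f^[k]) (z + σ * G u) * (σ * deriv G u) = R := by
  have h1 : ∀ u ∈ ball w r, z + σ * G u ∈ dm f U J δ k ∧ f^[k] (z + σ * G u) = x + R * u := by
    intro u hu
    obtain ⟨a, b, -⟩ := hG.val u hu
    have b' : (f^[k] (z + σ * G u) - x) / R = u := b
    refine ⟨a, ?_⟩
    rw [div_eq_iff hR] at b'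
    linear_combination b'
  refine ⟨(h1 u hu).1, (h1 u hu).2, ?_⟩
  have hd : DifferentiableOn ℂ (fun u => z + σ * G u) (ball w r) := (hG.diff.const_mul σ).const_add z
  have h2 := der_lift h isOpen_ball (H := fun u => x + R * u) hd h1 hu
  have h3 : deriv (fun u => z + σ * G u) u = σ * deriv G u := by
    rw [deriv_const_add, deriv_const_mul _ (hG.diff.differentiableAt (isOpen_ball.mem_nhds hu))]
  have h4 : deriv (fun u => x + R * u) u = R := by
    rw [deriv_const_add, deriv_const_mul _ differentiableAt_id, deriv_id'', mul_one]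
  rw [h3, h4] at h2
  exact h2

/-- the identity for two branches at a fixed stage -/
private theorem gal_one (h : PS f U J P Cr δ η ρ) (hX : FX f U J E δ X hh μ b0) {z x R σ : ℂ} {k : ℕ}
    (hR : R ≠ 0) (hσ : σ ≠ 0) {w : ℂ} {r M ε : ℝ} (hM : 0 < M) {T : ℂ → ℂ}
    (hT : DifferentiableOn ℂ T (ball z (2 * M * ‖σ‖)))
    (hT2 : ∀ v ∈ ball z (2 * M * ‖σ‖), ‖X v - μ z * (starRingEnd ℂ) (v - z) - T v‖ ≤ ε * (2 * M * ‖σ‖))
    {G G' : ℂ → ℂ}
    (hG : Bq (fun s => (f^[k] (z + σ * s) - x) / R) {s | z + σ * s ∈ dm f U J δ k} w r M G)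
    (hG' : Bq (fun s => (f^[k] (z + σ * s) - x) / R) {s | z + σ * s ∈ dm f U J δ k} w r M G') :
    ∃ H : ℂ → ℂ, DifferentiableOn ℂ H (ball w r) ∧ ∀ u ∈ ball w r,
      ‖μ z * ((starRingEnd ℂ) (G u) * deriv G' u - (starRingEnd ℂ) (G' u) * deriv G u) - H u‖ ≤
        ε * (2 * M) * (‖deriv G u‖ + ‖deriv G' u‖) := by
  obtain ⟨Hk, hk1, hk2⟩ := X_it h hX k
  have hσn : 0 < ‖σ‖ := norm_pos_iff.2 hσ
  have hin : ∀ g : ℂ → ℂ, (∀ u ∈ ball w r, ‖g u‖ ≤ M) → ∀ u ∈ ball w r, z + σ * g u ∈ ball z (2 * M * ‖σ‖) := by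
    intro g hg u hu
    rw [mem_ball, dist_eq_norm, add_sub_cancel_left, norm_mul]
    have := hg u hu
    nlinarith
  have hb1 := hin G fun u hu => (hG.val u hu).2.2
  have hb2 := hin G' fun u hu => (hG'.val u hu).2.2
  have hcs : (starRingEnd ℂ) σ ≠ 0 := (map_ne_zero _).2 hσ
  have d1 : DifferentiableOn ℂ (fun u => z + σ * G u) (ball w r) := (hG.diff.const_mul σ).const_add z
  have d2 : DifferentiableOn ℂ (fun u => z + σ * G' u) (ball w r) := (hG'.diff.const_mul σ).const_add z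
  have e1 : DifferentiableOn ℂ (deriv G) (ball w r) := hG.diff.deriv isOpen_ball
  have e2 : DifferentiableOn ℂ (deriv G') (ball w r) := hG'.diff.deriv isOpen_ball
  have t1 : DifferentiableOn ℂ (fun u => T (z + σ * G u)) (ball w r) := hT.comp d1 hb1
  have t2 : DifferentiableOn ℂ (fun u => T (z + σ * G' u)) (ball w r) := hT.comp d2 hb2
  have k1 : DifferentiableOn ℂ (fun u => Hk (z + σ * G u)) (ball w r) :=
    hk1.comp d1 fun u hu => (gal_br h hR hG hu).1
  have k2 : DifferentiableOn ℂ (fun u => Hk (z + σ * G' u)) (ball w r) :=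
    hk1.comp d2 fun u hu => (gal_br h hR hG' hu).1
  refine ⟨fun u => -(deriv G' u * T (z + σ * G u) - deriv G u * T (z + σ * G' u)) / (starRingEnd ℂ) σ -
    σ / (R * (starRingEnd ℂ) σ) * (deriv G u * deriv G' u * (Hk (z + σ * G u) - Hk (z + σ * G' u))), ?_, ?_⟩
  · refine DifferentiableOn.sub ?_ ?_
    · exact ((e2.mul t1).sub (e1.mul t2)).neg.div_const _
    · exact ((e1.mul e2).mul (k1.sub k2)).const_mul _
  · intro u hu
    obtain ⟨a1, a2, a3⟩ := gal_br h hR hG hu
    obtain ⟨b1, b2, b3⟩ := gal_br h hR hG' hu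
    have x1 := hk2 _ a1
    have x2 := hk2 _ b1
    rw [a2] at x1
    rw [b2] at x2
    have f1 := hT2 _ (hb1 u hu)
    have f2 := hT2 _ (hb2 u hu)
    rw [add_sub_cancel_left, map_mul] at f1 f2
    obtain ⟨p1, hp1⟩ : ∃ p, p = X (z + σ * G u) - μ z * ((starRingEnd ℂ) σ * (starRingEnd ℂ) (G u)) -
      T (z + σ * G u) := ⟨_, rfl⟩
    obtain ⟨p2, hp2⟩ : ∃ p, p = X (z + σ * G' u) - μ z * ((starRingEnd ℂ) σ * (starRingEnd ℂ) (G' u)) -
      T (z + σ * G' u) := ⟨_, rfl⟩
    rw [← hp1] at f1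
    rw [← hp2] at f2
    have y1 : σ * deriv G u * X (x + R * u) = R * X (z + σ * G u) + σ * deriv G u * Hk (z + σ * G u) := by
      rw [x1]
      linear_combination X (z + σ * G u) * a3
    have y2 : σ * deriv G' u * X (x + R * u) = R * X (z + σ * G' u) + σ * deriv G' u * Hk (z + σ * G' u) := by
      rw [x2]
      linear_combination X (z + σ * G' u) * b3
    have key : μ z * ((starRingEnd ℂ) (G u) * deriv G' u - (starRingEnd ℂ) (G' u) * deriv G u) -
        (-(deriv G' u * T (z + σ * G u) - deriv G u * T (z + σ * G' u)) / (starRingEnd ℂ) σ -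
          σ / (R * (starRingEnd ℂ) σ) * (deriv G u * deriv G' u * (Hk (z + σ * G u) - Hk (z + σ * G' u)))) =
        -(deriv G' u * p1 - deriv G u * p2) / (starRingEnd ℂ) σ := by
      rw [hp1, hp2]
      field_simp
      linear_combination deriv G u * y2 - deriv G' u * y1
    rw [key, norm_div, norm_neg, Complex.norm_conj, div_le_iff₀ hσn]
    calc ‖deriv G' u * p1 - deriv G u * p2‖ ≤ ‖deriv G' u * p1‖ + ‖deriv G u * p2‖ := norm_sub_le _ _
      _ = ‖deriv G' u‖ * ‖p1‖ + ‖deriv G u‖ * ‖p2‖ := by rw [norm_mul, norm_mul]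
      _ ≤ ‖deriv G' u‖ * (ε * (2 * M * ‖σ‖)) + ‖deriv G u‖ * (ε * (2 * M * ‖σ‖)) :=
        add_le_add (mul_le_mul_of_nonneg_left f1 (norm_nonneg _)) (mul_le_mul_of_nonneg_left f2 (norm_nonneg _))
      _ = ε * (2 * M) * (‖deriv G u‖ + ‖deriv G' u‖) * ‖σ‖ := by ring

/-- the antiholomorphic derivative of a combination -/
private theorem gal_bar {g g' p p' : ℂ → ℂ} {u : ℂ} (hg : DifferentiableAt ℂ g u) (hg' : DifferentiableAt ℂ g' u)
    (hp : DifferentiableAt ℂ p u) (hp' : DifferentiableAt ℂ p' u)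
    (hA : DifferentiableAt ℂ (fun v => (starRingEnd ℂ) (g v) * p v - (starRingEnd ℂ) (g' v) * p' v) u) :
    (starRingEnd ℂ) (deriv g u) * p u = (starRingEnd ℂ) (deriv g' u) * p' u := by
  have hdir : ∀ F : ℂ → ℂ, DifferentiableAt ℂ F u → ∀ v : ℂ,
      HasDerivAt (fun t : ℝ => F (u + t * v)) (deriv F u * v) 0 := by
    intro F hF v
    have h1 : HasDerivAt (fun ζ : ℂ => u + ζ * v) v ((0 : ℝ) : ℂ) := by
      have := ((hasDerivAt_id ((0 : ℝ) : ℂ)).mul_const v).const_add u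
      simpa using this
    have h2 : HasDerivAt F (deriv F u) ((fun ζ : ℂ => u + ζ * v) ((0 : ℝ) : ℂ)) := by
      have h3 : (fun ζ : ℂ => u + ζ * v) ((0 : ℝ) : ℂ) = u := by simp
      rw [h3]
      exact hF.hasDerivAt
    have h4 : HasDerivAt (F ∘ fun ζ : ℂ => u + ζ * v) (deriv F u * v) ((0 : ℝ) : ℂ) := HasDerivAt.comp _ h2 h1
    exact h4.comp_ofReal
  have hv : ∀ v : ℂ, deriv (fun v => (starRingEnd ℂ) (g v) * p v - (starRingEnd ℂ) (g' v) * p' v) u * v =
      (star (deriv g u * v) * p u + (starRingEnd ℂ) (g u) * (deriv p u * v)) -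
        (star (deriv g' u * v) * p' u + (starRingEnd ℂ) (g' u) * (deriv p' u * v)) := by
    intro v
    have h1 := hdir _ hA v
    have h2 := (((hdir g hg v).star).mul (hdir p hp v)).sub (((hdir g' hg' v).star).mul (hdir p' hp' v))
    have h3 := h1.unique h2
    rw [h3]
    simp
  have h1 := hv 1
  have hi := hv Complex.I
  simp only [mul_one, star_mul', Complex.star_def, Complex.conj_I] at h1 hi
  have h2 : (2 * Complex.I) * ((starRingEnd ℂ) (deriv g u) * p u - (starRingEnd ℂ) (deriv g' u) * p' u) = 0 := by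
    linear_combination hi - Complex.I * h1
  have h3 : (2 : ℂ) * Complex.I ≠ 0 := mul_ne_zero two_ne_zero Complex.I_ne_zero
  exact sub_eq_zero.1 ((mul_eq_zero.1 h2).resolve_left h3)

/-- uniformly approximable functions are holomorphic -/
private theorem gal_app {A : ℂ → ℂ} {w : ℂ} {r : ℝ}
    (h : ∀ r' < r, ∀ ε : ℝ, 0 < ε → ∃ H : ℂ → ℂ, DifferentiableOn ℂ H (ball w r) ∧ ∀ u ∈ closedBall w r', ‖A u - H u‖ ≤ ε) :
    DifferentiableOn ℂ A (ball w r) := by
  intro u hu
  obtain ⟨r', h1, h2⟩ := exists_between (mem_ball.1 hu)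
  choose H hH1 hH2 using fun n : ℕ => h r' h2 (1 / ((n : ℝ) + 1)) (by positivity)
  have h3 : TendstoUniformlyOn H A atTop (ball w r') := by
    rw [Metric.tendstoUniformlyOn_iff]
    intro ε hε
    obtain ⟨N, hN⟩ := exists_nat_one_div_lt hε
    filter_upwards [eventually_ge_atTop N] with n hn v hv
    rw [dist_eq_norm]
    refine (hH2 n v (ball_subset_closedBall hv)).trans_lt (lt_of_le_of_lt ?_ hN)
    exact one_div_le_one_div_of_le (by positivity) (by exact_mod_cast Nat.add_le_add_right hn 1)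
  have h4 : DifferentiableOn ℂ A (ball w r') :=
    h3.tendstoLocallyUniformlyOn.differentiableOn
      (Eventually.of_forall fun n => (hH1 n).mono (ball_subset_ball h2.le)) isOpen_ball
  exact (h4.differentiableAt (isOpen_ball.mem_nhds (mem_ball.2 h1))).differentiableWithinAt

/-- the relation of the limits -/
private theorem gal_lim {g g' : ℂ → ℂ} {w : ℂ} {r : ℝ} (hr : 0 < r) (hg : DifferentiableOn ℂ g (ball w r))
    (hg' : DifferentiableOn ℂ g' (ball w r)) (h0 : deriv g w ≠ 0) (h0' : deriv g' w ≠ 0)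
    (hc : ∀ u ∈ ball w r, (starRingEnd ℂ) (deriv g u) * deriv g' u = (starRingEnd ℂ) (deriv g' u) * deriv g u) :
    ∃ (t : ℝ) (c : ℂ), t ≠ 0 ∧ ∀ u ∈ ball w r, g' u = t * g u + c := by
  have hd : DifferentiableOn ℂ (deriv g) (ball w r) := hg.deriv isOpen_ball
  have hd' : DifferentiableOn ℂ (deriv g') (ball w r) := hg'.deriv isOpen_ball
  have hw : w ∈ ball w r := mem_ball_self hr
  have hcont : ContinuousAt (deriv g) w := (hd.differentiableAt (isOpen_ball.mem_nhds hw)).continuousAt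
  obtain ⟨s, hs, hs2⟩ := Metric.mem_nhds_iff.1 (hcont.eventually_ne h0)
  obtain ⟨s', hs', hss, hsr⟩ : ∃ s', 0 < s' ∧ s' ≤ s ∧ s' ≤ r := ⟨min s r, lt_min hs hr, min_le_left _ _, min_le_right _ _⟩
  have hne : ∀ u ∈ ball w s', deriv g u ≠ 0 := fun u hu => hs2 (ball_subset_ball hss hu)
  have hq : DifferentiableOn ℂ (fun u => deriv g' u / deriv g u) (ball w s') :=
    (hd'.mono (ball_subset_ball hsr)).div (hd.mono (ball_subset_ball hsr)) hne
  have hreal : ∀ u ∈ ball w s', (deriv g' u / deriv g u).im = 0 := by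
    intro u hu
    rw [← Complex.conj_eq_iff_im, map_div₀, div_eq_div_iff ((map_ne_zero _).2 (hne u hu)) (hne u hu)]
    rw [← hc u (ball_subset_ball hsr hu)]
    ring
  obtain ⟨q, hq2⟩ := (hq.analyticOnNhd isOpen_ball).eq_const_of_im_eq_const (c₀ := 0) hreal isOpen_ball
    ((convex_ball w s').isConnected ⟨w, mem_ball_self hs'⟩)
  have hqw := hq2 w (mem_ball_self hs')
  have hq0 : q ≠ 0 := by
    rw [← hqw]
    exact div_ne_zero h0' h0
  have hqr : ((q.re : ℝ) : ℂ) = q := by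
    rw [← Complex.conj_eq_iff_re, Complex.conj_eq_iff_im, ← hqw]
    exact hreal w (mem_ball_self hs')
  -- the identity theorem
  have hE : EqOn (deriv g') (fun u => q * deriv g u) (ball w r) := by
    refine (hd'.analyticOnNhd isOpen_ball).eqOn_of_preconnected_of_eventuallyEq
      ((hd.const_mul q).analyticOnNhd isOpen_ball) (convex_ball w r).isPreconnected hw ?_
    filter_upwards [ball_mem_nhds w hs'] with u hu
    have := hq2 u hu
    rw [div_eq_iff (hne u hu)] at this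
    exact this
  have hF : DifferentiableOn ℂ (fun u => g' u - q * g u) (ball w r) := hg'.sub (hg.const_mul q)
  have hF0 : (ball w r).EqOn (deriv fun u => g' u - q * g u) 0 := by
    intro u hu
    have a1 := hg.differentiableAt (isOpen_ball.mem_nhds hu)
    have a2 := hg'.differentiableAt (isOpen_ball.mem_nhds hu)
    rw [deriv_fun_sub a2 (a1.const_mul q), deriv_const_mul _ a1, hE hu]
    exact sub_self _
  refine ⟨q.re, g' w - q * g w, ?_, fun u hu => ?_⟩
  · intro h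
    apply hq0
    rw [← hqr, h]
    rfl
  · have h5 := isOpen_ball.is_const_of_deriv_eq_zero (convex_ball w r).isPreconnected hF hF0 hu hw
    rw [hqr]
    have h6 : g' u - q * g u = g' w - q * g w := h5
    linear_combination h6

/-- the Galois lemma: here the centres `x n` may be arbitrary and `R n` need not tend to `0` -/
theorem galois (h : PS f U J P Cr δ η ρ) (hX : FX f U J E δ X hh μ b0) {𝒰 : Ultrafilter ℕ} {z : ℕ → ℂ} {k : ℕ → ℕ}
    {x R σ : ℕ → ℂ} (hz : ∀ n, z n ∈ E) (hR : ∀ n, R n ≠ 0) (hσ : ∀ n, σ n ≠ 0)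
    (ht : Tendsto σ (𝒰 : Filter ℕ) (𝓝 0)) {w : ℂ} {r M : ℝ} {G G' : ℕ → ℂ → ℂ} (hr : 0 < r)
    (hG : ∀ᶠ n in (𝒰 : Filter ℕ), Bq (Fn f z k x R σ n) (Dn f U J δ z k σ n) w r M (G n))
    (hG' : ∀ᶠ n in (𝒰 : Filter ℕ), Bq (Fn f z k x R σ n) (Dn f U J δ z k σ n) w r M (G' n)) :
    ∃ (t : ℝ) (c : ℂ), t ≠ 0 ∧ ∀ u ∈ ball w r, Tendsto (fun n => G' n u - (t * G n u + c)) (𝒰 : Filter ℕ) (𝓝 0) := by
  have hw : w ∈ ball w r := mem_ball_self hr
  have hM : 0 < M := by
    obtain ⟨n, hn⟩ := hG.exists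
    by_contra hcon
    have h1 := hn.lb
    have h2 : M * ‖deriv (G n) w‖ ≤ 0 := mul_nonpos_of_nonpos_of_nonneg (not_lt.1 hcon) (norm_nonneg _)
    linarith
  obtain ⟨g, hg1, -, hg3⟩ := ulim 𝒰 (isOpen_ball (x := w) (ε := r)) (G := G) (M := M)
    (hG.mono fun n hn => ⟨hn.diff, fun u hu => (hn.val u hu).2.2⟩)
  obtain ⟨g', hg1', -, hg3'⟩ := ulim 𝒰 (isOpen_ball (x := w) (ε := r)) (G := G') (M := M)
    (hG'.mono fun n hn => ⟨hn.diff, fun u hu => (hn.val u hu).2.2⟩)
  have hd3 := ulim_deriv 𝒰 isOpen_ball (hG.mono fun n hn => hn.diff) hg3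
  have hd3' := ulim_deriv 𝒰 isOpen_ball (hG'.mono fun n hn => hn.diff) hg3'
  have hd1 : DifferentiableOn ℂ (deriv g) (ball w r) := hg1.deriv isOpen_ball
  have hd1' : DifferentiableOn ℂ (deriv g') (ball w r) := hg1'.deriv isOpen_ball
  -- the limit of the line field
  obtain ⟨b, -, hb⟩ : ∃ b ∈ closedBall (0 : ℂ) 1, Tendsto (fun n => μ (z n)) (𝒰 : Filter ℕ) (𝓝 b) := by
    have h0 : closedBall (0 : ℂ) 1 ∈ 𝒰.map fun n => μ (z n) := by
      rw [Ultrafilter.mem_map]
      refine Filter.univ_mem' fun n => ?_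
      show μ (z n) ∈ closedBall (0 : ℂ) 1
      rw [mem_closedBall_zero_iff]
      exact (hX.lb _ (hz n)).2
    exact (isCompact_closedBall (0 : ℂ) 1).ultrafilter_le_nhds' (𝒰.map fun n => μ (z n)) h0
  have hb0 : b ≠ 0 := by
    have h1 : b0 ≤ ‖b‖ := ge_of_tendsto hb.norm (Eventually.of_forall fun n => (hX.lb _ (hz n)).1)
    have h2 := hX.hb
    intro h3
    rw [h3, norm_zero] at h1
    linarith
  -- the derivatives at `w`
  have hne : ∀ {G : ℕ → ℂ → ℂ} {g : ℂ → ℂ},
      (∀ᶠ n in (𝒰 : Filter ℕ), Bq (Fn f z k x R σ n) (Dn f U J δ z k σ n) w r M (G n)) →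
      TendstoLocallyUniformlyOn (fun n => deriv (G n)) (deriv g) (𝒰 : Filter ℕ) (ball w r) → deriv g w ≠ 0 := by
    intro G g hG hd
    have h1 : Tendsto (fun n => deriv (G n) w) (𝒰 : Filter ℕ) (𝓝 (deriv g w)) := hd.tendsto_at hw
    have h2 : 1 ≤ M * ‖deriv g w‖ :=
      ge_of_tendsto (h1.norm.const_mul M) (hG.mono fun n hn => hn.lb)
    intro h3
    rw [h3, norm_zero, mul_zero] at h2
    linarith
  have hne1 := hne hG hd3
  have hne1' := hne hG' hd3'
  -- the combination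
  have hA : DifferentiableOn ℂ (fun u => b * ((starRingEnd ℂ) (g u) * deriv g' u - (starRingEnd ℂ) (g' u) * deriv g u))
      (ball w r) := by
    refine gal_app fun r' hr' ε hε => ?_
    have hK : IsCompact (closedBall w r') := isCompact_closedBall w r'
    have hKs : closedBall w r' ⊆ ball w r := closedBall_subset_ball hr'
    -- locally uniform convergence of the combinations
    have hcc : TendstoLocallyUniformlyOn (fun n u => μ (z n) * ((starRingEnd ℂ) (G n u) * deriv (G' n) u -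
        (starRingEnd ℂ) (G' n u) * deriv (G n) u))
        (fun u => b * ((starRingEnd ℂ) (g u) * deriv g' u - (starRingEnd ℂ) (g' u) * deriv g u))
        (𝒰 : Filter ℕ) (ball w r) := by
      have hcv : ∀ {F : ℕ → ℂ → ℂ} {F0 : ℂ → ℂ}, ContinuousOn F0 (ball w r) →
          TendstoLocallyUniformlyOn F F0 (𝒰 : Filter ℕ) (ball w r) → ∀ v ∈ ball w r,
          Tendsto (fun y : ℕ × ℂ => F y.1 y.2) ((𝒰 : Filter ℕ) ×ˢ 𝓝[ball w r] v) (𝓝 (F0 v)) := by
        intro F F0 hF0 hF v hv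
        have h1 := tendstoLocallyUniformlyOn_iff_forall_tendsto.1 hF v hv
        have h2 : Tendsto (fun y : ℕ × ℂ => F0 y.2) ((𝒰 : Filter ℕ) ×ˢ 𝓝[ball w r] v) (𝓝 (F0 v)) :=
          (hF0 v hv).tendsto.comp tendsto_snd
        exact h2.congr_uniformity h1
      rw [tendstoLocallyUniformlyOn_iff_forall_tendsto]
      intro v hv
      have c1 := hcv hg1.continuousOn hg3 v hv
      have c2 := hcv hg1'.continuousOn hg3' v hv
      have c3 := hcv hd1.continuousOn hd3 v hv
      have c4 := hcv hd1'.continuousOn hd3' v hv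
      have c5 : Tendsto (fun y : ℕ × ℂ => μ (z y.1)) ((𝒰 : Filter ℕ) ×ˢ 𝓝[ball w r] v) (𝓝 b) :=
        hb.comp tendsto_fst
      have c6 := c5.mul ((((Complex.continuous_conj.tendsto _).comp c1).mul c4).sub
        (((Complex.continuous_conj.tendsto _).comp c2).mul c3))
      have hcont : ContinuousOn (fun u => b * ((starRingEnd ℂ) (g u) * deriv g' u -
          (starRingEnd ℂ) (g' u) * deriv g u)) (ball w r) :=
        continuousOn_const.mul (((Complex.continuous_conj.comp_continuousOn hg1.continuousOn).mul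
          hd1'.continuousOn).sub ((Complex.continuous_conj.comp_continuousOn hg1'.continuousOn).mul hd1.continuousOn))
      have c7 : Tendsto (fun y : ℕ × ℂ => b * ((starRingEnd ℂ) (g y.2) * deriv g' y.2 -
          (starRingEnd ℂ) (g' y.2) * deriv g y.2)) ((𝒰 : Filter ℕ) ×ˢ 𝓝[ball w r] v)
          (𝓝 (b * ((starRingEnd ℂ) (g v) * deriv g' v - (starRingEnd ℂ) (g' v) * deriv g v))) :=
        (hcont v hv).tendsto.comp tendsto_snd
      exact (c7.prodMk_nhds c6).mono_right (nhds_le_uniformity _)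
    have hU := (tendstoLocallyUniformlyOn_iff_forall_isCompact isOpen_ball).1 hcc _ hKs hK
    have hU1 := (tendstoLocallyUniformlyOn_iff_forall_isCompact isOpen_ball).1 hd3 _ hKs hK
    have hU1' := (tendstoLocallyUniformlyOn_iff_forall_isCompact isOpen_ball).1 hd3' _ hKs hK
    obtain ⟨C, hC⟩ := hK.exists_bound_of_continuousOn (hd1.continuousOn.mono hKs)
    obtain ⟨C', hC'⟩ := hK.exists_bound_of_continuousOn (hd1'.continuousOn.mono hKs)
    rw [Metric.tendstoUniformlyOn_iff] at hU hU1 hU1'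
    -- the size of the error
    obtain ⟨L, hL, hL1, hL2⟩ : ∃ L : ℝ, 0 < L ∧ C + 1 ≤ L ∧ C' + 1 ≤ L :=
      ⟨max 1 (max (C + 1) (C' + 1)), lt_of_lt_of_le one_pos (le_max_left _ _),
        (le_max_left _ _).trans (le_max_right _ _), (le_max_right _ _).trans (le_max_right _ _)⟩
    obtain ⟨ε', hε', hε2⟩ : ∃ ε' : ℝ, 0 < ε' ∧ ε' * (2 * M) * (L + L) ≤ ε / 2 := by
      refine ⟨ε / 2 / ((2 * M) * (L + L)), by positivity, le_of_eq ?_⟩
      field_simp
    obtain ⟨ρ0, hρ0, hT⟩ := hX.T ε' hε'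
    have hsm : ∀ᶠ n in (𝒰 : Filter ℕ), 2 * M * ‖σ n‖ < ρ0 := by
      have h1 : Tendsto (fun n => 2 * M * ‖σ n‖) (𝒰 : Filter ℕ) (𝓝 (2 * M * 0)) := by
        have := ht.norm.const_mul (2 * M)
        rwa [norm_zero] at this
      rw [mul_zero] at h1
      exact h1.eventually_lt_const hρ0
    obtain ⟨n, hn, hn1, hn1', hns, hnG, hnG'⟩ := (((hU (ε / 2) (by linarith)).and ((hU1 1 one_pos).and
      ((hU1' 1 one_pos).and (hsm.and (hG.and hG')))))).exists
    obtain ⟨T, hT1, hT2⟩ := hT (z n) (hz n) (2 * M * ‖σ n‖)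
      (mul_pos (by linarith) (norm_pos_iff.2 (hσ n))) hns
    obtain ⟨H, hH1, hH2⟩ := gal_one h hX (hR n) (hσ n) hM hT1 hT2 hnG hnG'
    refine ⟨H, hH1, fun u hu => ?_⟩
    have i1 := hn u hu
    have i2 := hH2 u (hKs hu)
    have i3 : ‖deriv (G n) u‖ ≤ L := by
      have j1 := hn1 u hu
      have j2 := hC u hu
      rw [dist_eq_norm] at j1
      have j3 : ‖deriv (G n) u‖ ≤ ‖deriv g u‖ + ‖deriv g u - deriv (G n) u‖ := by
        have := norm_sub_le (deriv g u) (deriv g u - deriv (G n) u)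
        rwa [sub_sub_cancel] at this
      linarith
    have i4 : ‖deriv (G' n) u‖ ≤ L := by
      have j1 := hn1' u hu
      have j2 := hC' u hu
      rw [dist_eq_norm] at j1
      have j3 : ‖deriv (G' n) u‖ ≤ ‖deriv g' u‖ + ‖deriv g' u - deriv (G' n) u‖ := by
        have := norm_sub_le (deriv g' u) (deriv g' u - deriv (G' n) u)
        rwa [sub_sub_cancel] at this
      linarith
    rw [dist_eq_norm] at i1
    have i5 : ε' * (2 * M) * (‖deriv (G n) u‖ + ‖deriv (G' n) u‖) ≤ ε' * (2 * M) * (L + L) :=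
      mul_le_mul_of_nonneg_left (add_le_add i3 i4) (by positivity)
    calc _ = ‖(b * ((starRingEnd ℂ) (g u) * deriv g' u - (starRingEnd ℂ) (g' u) * deriv g u) -
          μ (z n) * ((starRingEnd ℂ) (G n u) * deriv (G' n) u - (starRingEnd ℂ) (G' n u) * deriv (G n) u)) +
          (μ (z n) * ((starRingEnd ℂ) (G n u) * deriv (G' n) u - (starRingEnd ℂ) (G' n u) * deriv (G n) u) -
            H u)‖ := by
          congr 1
          ring
      _ ≤ _ := norm_add_le _ _
      _ ≤ ε := by linarith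
  have hc : ∀ u ∈ ball w r, (starRingEnd ℂ) (deriv g u) * deriv g' u = (starRingEnd ℂ) (deriv g' u) * deriv g u := by
    intro u hu
    have hn := isOpen_ball.mem_nhds hu
    refine gal_bar (hg1.differentiableAt hn) (hg1'.differentiableAt hn) (hd1'.differentiableAt hn)
      (hd1.differentiableAt hn) ?_
    have h1 := (hA.differentiableAt hn).const_mul b⁻¹
    refine h1.congr_of_eventuallyEq (Eventually.of_forall fun v => ?_)
    show _ = b⁻¹ * (b * _)
    rw [inv_mul_cancel_left₀ hb0]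
  obtain ⟨t, c, ht0, htc⟩ := gal_lim hr hg1 hg1' hne1 hne1' hc
  refine ⟨t, c, ht0, fun u hu => ?_⟩
  have h1 : Tendsto (fun n => G n u) (𝒰 : Filter ℕ) (𝓝 (g u)) := hg3.tendsto_at hu
  have h2 : Tendsto (fun n => G' n u) (𝒰 : Filter ℕ) (𝓝 (g' u)) := hg3'.tendsto_at hu
  have h3 := h2.sub ((h1.const_mul (t : ℂ)).add_const c)
  rw [htc u hu, sub_self] at h3
  exact h3

end Pool.Agent.H56.UD
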