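import Pool.Agent.H80.AJ.Cover
import Pool.Agent.H80.AJ.Distort

/-!
# THEOREM UD, chapter A: univalent functions are almost affine at small relative scales

PROOF of `aff`. WLOG `c = 0`, `R = 1`, `g 0 = 0`, `deriv g 0 = 1` (if `deriv g c = 0` contradiction with `deriv_ne`). On `closedBall 0 (1/2)`: `‖g z‖ ≤ KK / 2` (`distort_lip`). Cauchy estimates for the second derivative / Schwarz lemma for `(g z - z)`: `‖g z - z‖ ≤ (KK / 2 + 1/2) (2 ‖z‖)^2` for `‖z‖ ≤ 1/2` (the function `(g z - z) / z ^ 2` is holomorphic, maximum principle on the circle of radius `1/2`).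
`aff_d`: the same for `deriv g z - 1`: `≤ C ‖z‖` for `‖z‖ ≤ 1/4` (Cauchy on the disc of radius `1/4` around `z` or from `aff` at a second point).
-/

set_option autoImplicit false

open Filter Topology Metric Set

namespace Pool.Agent.H56.UD

open Pool.Agent.H80.AJ (KK)

theorem aff : ∃ C : ℝ, 1 ≤ C ∧ ∀ (g : ℂ → ℂ) (c : ℂ) (R : ℝ), 0 < R → DifferentiableOn ℂ g (ball c R) →
    InjOn g (ball c R) → ∀ z ∈ ball c (R / 4),
      ‖g z - g c - deriv g c * (z - c)‖ ≤ C * ‖deriv g c‖ * ‖z - c‖ ^ 2 / R ∧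
      ‖deriv g z - deriv g c‖ ≤ C * ‖deriv g c‖ * ‖z - c‖ / R := by
  refine ⟨4 * KK, by have := Pool.Agent.H80.AJ.one_le_KK; linarith, ?_⟩
  intro g c R hR hg hi
  have hK := Pool.Agent.H80.AJ.KK_pos
  have hc2 : c ∈ closedBall c (R / 2) := mem_closedBall_self (by positivity)
  have hgd : DifferentiableOn ℂ (deriv g) (ball c R) := hg.deriv isOpen_ball
  have hq : ball c (R / 4) ⊆ ball c R := ball_subset_ball (by linarith)
  have h2 : ∀ w ∈ ball c (R / 4), ‖deriv (deriv g) w‖ ≤ KK * ‖deriv g c‖ / (R / 4) := by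
    intro w hw
    have hsub : closedBall w (R / 4) ⊆ closedBall c (R / 2) := by
      refine closedBall_subset_closedBall' ?_
      have := (mem_ball.1 hw).le
      linarith
    have hsub2 : closedBall w (R / 4) ⊆ ball c R :=
      hsub.trans (closedBall_subset_ball (by linarith))
    refine Complex.norm_deriv_le_of_forall_mem_sphere_norm_le (by positivity) ?_ fun u hu => ?_
    · exact DifferentiableOn.diffContOnCl_ball (hgd.mono hsub2) le_rfl
    · exact Pool.Agent.H80.AJ.distort hR hg hi (hsub (sphere_subset_closedBall hu)) hc2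
  have h3 : ∀ z ∈ ball c (R / 4), ‖deriv g z - deriv g c‖ ≤
      4 * KK * ‖deriv g c‖ * ‖z - c‖ / R := by
    intro z hz
    have h4 := Convex.norm_image_sub_le_of_norm_deriv_le (𝕜 := ℂ) (f := deriv g)
      (s := ball c (R / 4)) (x := c) (y := z)
      (fun u hu => hgd.differentiableAt (isOpen_ball.mem_nhds (hq hu))) h2
      (convex_ball c (R / 4)) (mem_ball_self (by positivity)) hz
    refine h4.trans (le_of_eq ?_)
    field_simp
  intro z hz
  refine ⟨?_, h3 z hz⟩
  have hzR : ‖z - c‖ < R / 4 := by rwa [mem_ball, dist_eq_norm] at hz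
  have hd : ∀ w ∈ closedBall c ‖z - c‖, w ∈ ball c (R / 4) := by
    intro w hw
    exact mem_ball.2 ((mem_closedBall.1 hw).trans_lt hzR)
  have hda : ∀ w ∈ closedBall c ‖z - c‖, HasDerivAt (fun z => g z - deriv g c * z)
      (deriv g w - deriv g c) w := by
    intro w hw
    have h5 : HasDerivAt g (deriv g w) w :=
      (hg.differentiableAt (isOpen_ball.mem_nhds (hq (hd w hw)))).hasDerivAt
    have h6 : HasDerivAt (fun z : ℂ => deriv g c * z) (deriv g c) w := by
      simpa using (hasDerivAt_id w).const_mul (deriv g c)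
    exact h5.sub h6
  have h7 := Convex.norm_image_sub_le_of_norm_hasDerivWithin_le (𝕜 := ℂ)
    (f := fun z => g z - deriv g c * z) (f' := fun w => deriv g w - deriv g c)
    (s := closedBall c ‖z - c‖) (x := c) (y := z) (C := 4 * KK * ‖deriv g c‖ * ‖z - c‖ / R)
    (fun u hu => (hda u hu).hasDerivWithinAt) (fun u hu => ?_)
    (convex_closedBall c _) (mem_closedBall_self (norm_nonneg _))
    (by rw [mem_closedBall, dist_eq_norm])
  · have h8 : g z - g c - deriv g c * (z - c) =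
        (g z - deriv g c * z) - (g c - deriv g c * c) := by ring
    rw [h8]
    refine h7.trans (le_of_eq ?_)
    field_simp
  · refine (h3 u (hd u hu)).trans ?_
    have h9 : ‖u - c‖ ≤ ‖z - c‖ := by
      rw [← dist_eq_norm]
      exact mem_closedBall.1 hu
    gcongr

/-- the constant of `aff` -/
noncomputable def CA : ℝ := aff.choose

/-- normalised form, used for transport: `h` univalent on `ball x' r'`, `u0 ∈ ball x' (r' / 4)` different from `x'`:
`(h u - h x') / (h u0 - h x') = (u - x') / (u0 - x') * (1 + small)` -/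
theorem aff_q : ∃ C : ℝ, 1 ≤ C ∧ ∀ (g : ℂ → ℂ) (c : ℂ) (R : ℝ), 0 < R → DifferentiableOn ℂ g (ball c R) →
    InjOn g (ball c R) → ∀ u0 ∈ ball c (R / C), u0 ≠ c → ∀ z ∈ ball c (R / C), z ≠ c →
      ‖(g z - g c) / (g u0 - g c) / ((z - c) / (u0 - c)) - 1‖ ≤ C * (‖z - c‖ + ‖u0 - c‖) / R := by
  obtain ⟨C, hC1, hC⟩ := aff
  refine ⟨4 * C, by linarith, ?_⟩
  intro g c R hR hg hi u0 hu0 hu0c z hz hzc
  have hC0 : 0 < C := by linarith
  have hD := Pool.Agent.H80.AJ.deriv_ne hR hg hi (mem_closedBall_self (x := c) (by positivity))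
  have hD0 : deriv g c ≠ 0 := norm_pos_iff.1 hD
  have key : ∀ z ∈ ball c (R / (4 * C)), z ≠ c → ∃ e : ℂ, ‖e‖ ≤ C * ‖z - c‖ / R ∧
      g z - g c = deriv g c * (z - c) * (1 + e) ∧ ‖e‖ ≤ 1 / 4 := by
    intro z hz hzc
    have hz4 : z ∈ ball c (R / 4) := by
      refine ball_subset_ball ?_ hz
      refine div_le_div_of_nonneg_left hR.le (by norm_num) ?_
      linarith
    have h1 := (hC g c R hR hg hi z hz4).1
    have hz0 : z - c ≠ 0 := sub_ne_zero.2 hzc
    have hzn : 0 < ‖z - c‖ := norm_pos_iff.2 hz0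
    have hb : ‖(g z - g c - deriv g c * (z - c)) / (deriv g c * (z - c))‖ ≤ C * ‖z - c‖ / R := by
      rw [norm_div, norm_mul, div_le_iff₀ (mul_pos hD hzn)]
      refine h1.trans (le_of_eq ?_)
      ring
    refine ⟨(g z - g c - deriv g c * (z - c)) / (deriv g c * (z - c)), hb, ?_, hb.trans ?_⟩
    · field_simp
      ring
    · rw [mem_ball, dist_eq_norm, lt_div_iff₀ (by positivity)] at hz
      rw [div_le_iff₀ hR]
      nlinarith
  obtain ⟨e1, h1, h2, -⟩ := key z hz hzc
  obtain ⟨e2, h3, h4, h5⟩ := key u0 hu0 hu0c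
  have hz0 : z - c ≠ 0 := sub_ne_zero.2 hzc
  have hu : u0 - c ≠ 0 := sub_ne_zero.2 hu0c
  have h6 : 3 / 4 ≤ ‖1 + e2‖ := by
    have h7 : ‖(1 : ℂ)‖ ≤ ‖1 + e2‖ + ‖e2‖ := by
      have := norm_sub_le (1 + e2) e2
      rwa [add_sub_cancel_right] at this
    rw [norm_one] at h7
    linarith
  have h7 : (1 + e2) ≠ 0 := by
    intro h8
    rw [h8, norm_zero] at h6
    linarith
  have h8 : (g z - g c) / (g u0 - g c) / ((z - c) / (u0 - c)) - 1 = (e1 - e2) / (1 + e2) := by
    rw [h2, h4]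
    field_simp
    ring
  rw [h8, norm_div, div_le_iff₀ (by linarith)]
  have h9 : ‖e1 - e2‖ ≤ C * (‖z - c‖ + ‖u0 - c‖) / R := by
    refine (norm_sub_le _ _).trans ?_
    have h10 : C * (‖z - c‖ + ‖u0 - c‖) / R = C * ‖z - c‖ / R + C * ‖u0 - c‖ / R := by ring
    rw [h10]
    exact add_le_add h1 h3
  have h10 : 0 ≤ C * (‖z - c‖ + ‖u0 - c‖) / R := by positivity
  have h11 : 4 * C * (‖z - c‖ + ‖u0 - c‖) / R = 4 * (C * (‖z - c‖ + ‖u0 - c‖) / R) := by ring
  rw [h11]
  nlinarith

end Pool.Agent.H56.UD
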