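import Pool.Agent.H55.PB.Main

/-!
PROVED in Pool/Agent/H55/PB (helper55): Sq, Sa, Ty, Lu, StA, StB, StC, StD, Main.

# THEOREM UD, chapter D: lifts of collars which close after one or two turns come from pull back units (PB)

PROOF by induction on `k`. `ρ0 = (1 + θ) / 2`. `k = 0`: `q ζ = ψ (exp ζ)`, `φ = ψ`, `β = id` (`ball x r ⊆ thickening δ J`).
STEP. `q` a lift for `f^[k+1]`, closed after two turns. `q1 = f ∘ q` is a lift for `f^[k]`, closed after two turns: `φ1, β1` with `q1 '' Qc θ ⊆ φ1 '' ball 0 1`. By `sh2` the set `φ1 '' {|β1 v| < ρ0}` is in a ball `ball y δ1`, `y ∈ J` (`PS.loc`).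
(1) COORDINATES. `β1 = id`: `q1 ζ = φ1 (exp ζ)`. `β1` of degree `2`, `a⁻¹ u = (u - α) / (1 - conj α u)`: `s ζ = exp (ζ / 2 + (log (1 - α exp (-ζ)) - log (1 - conj α exp ζ)) / 2)` (principal logarithms, `|α exp (-ζ)| < 1`, `|conj α exp ζ| < 1` on `Qc θ`) satisfies `s ζ ^ 2 = a⁻¹ (exp ζ)`, `β1 (s ζ) = exp ζ`, `s (ζ + 2 π i) = - s ζ`; `q1 ζ = φ1 (± s ζ)` with a constant sign; replace `φ1 v` by `φ1 (-v)`.
(2) On the part `Q' = {ζ ∈ Qc θ, |exp ζ| < ρ0}` use `PS.loc` at `z = q ζ1`. CASE (i), `g` a branch of `f⁻¹` on `ball y δ1`: `q = g ∘ q1` on `Q'` (lifts are unique). CASE (ii), `z ∈ η c '' ball 0 ρ`: `q ζ = η c (w ζ)` on `Q'`, `w ζ ^ 2 = q1 ζ - f c` (open-closed argument; `|q1 ζ - f c| < ρ ^ 2 / 4`). If `f c ∉ φ1 '' {|β1 v| < ρ0}`: `φ1 v - f c` has a holomorphic square root on `{|β1 v| < ρ0}` (for `β1` of degree 2 the function is on this set; write it as a function on the disc `v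 = s`-coordinates: the set `{|β1 v| < ρ0} = {v : v ^ 2 ∈ a⁻¹ (ball 0 ρ0)}` is star-shaped with respect to `0`; or use the monodromy of `Q'`: see below).
In both cases `q = φ0 ∘ (exp or s)` on `Q'` with `φ0` holomorphic on `{|β1 v| < ρ0}`, `f ∘ φ0 = φ1`. So `q` has there the period of `exp` resp. `s`, hence on `Qc θ` (identity theorem), and `φ v := φ0 v` for `|β1 v| < ρ0`, `φ (exp ζ) := q ζ` resp. `φ (s ζ) := q ζ` is well defined and holomorphic, `f ∘ φ = φ1`, so injective: unit with `β = β1`.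
(3) `f c = φ1 v0`, `|β1 v0| < ρ0`. `ψ (β1 v0) = f^[k] (f c) ∈ P`, so `|β1 v0| ≤ θ`. `β1 = id`: `φ1 u - f c = (u - v0) / (1 - conj v0 u) * κ u` with `κ` holomorphic without zeros on `ball 0 ρ0` (`φ1` injective), `κ = σ ^ 2`; new unit: `α = v0`, `β v = (v ^ 2 + α) / (1 + conj α v ^ 2)`, `φ v = η c (v σ (β v))` for `|β v| < ρ0` and `φ (s ζ) = q ζ` (sign of `s` or `σ` chosen such that they agree): here `q` is not closed after one turn (`w (ζ + 2 π i) = - w ζ`).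
`β1` of degree 2: then `w (ζ + 4 π i) = - w ζ` (winding number 1 of `φ1 v - f c` along the collar in the `v`-plane: `w ζ = σ~ (s ζ) sqrt(s ζ - v0 ..)`), so `q (ζ + 4 π i) ≠ q ζ`: contradiction with `Cls θ 2 q`.
-/

set_option autoImplicit false

open Filter Topology Metric Set MeasureTheory

namespace Pool.Agent.H56.UD

variable {f : ℂ → ℂ} {U J P Cr : Set ℂ} {δ : ℝ} {η : ℂ → ℂ → ℂ} {ρ : ℝ}

theorem pbk (h : PS f U J P Cr δ η ρ) {θ C : ℝ} (hθ : 0 < θ) (hθ1 : θ < 1) (hC : 1 ≤ C) :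
    ∃ δ2 : ℝ, 0 < δ2 ∧ ∀ (k : ℕ) (x : ℂ) (r : ℝ) (ψ q : ℂ → ℂ), x ∈ P → 0 < r → r < δ2 → GD θ C P x r ψ →
      Lf (f^[k]) (dm f U J δ k) θ ψ q → Cls θ 2 q →
      ∃ φ β : ℂ → ℂ, PU (f^[k]) (dm f U J δ k) θ ψ φ β ∧ q '' Qc θ ⊆ φ '' ball 0 1 ∧ (Cls θ 1 q → ∀ v, β v = v) := by
  exact Pool.Agent.H55.PB.pbk h hθ hθ1 hC

end Pool.Agent.H56.UD
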