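import Pool.Agent.H56.UD.DE
import Pool.Agent.H56.UD.BDefs

/-!
# THEOREM UD, chapter M: states, base lemmas

`ST f U J P E δ z k x R α β L G` (Defs): `f^k (G ζ) = x + R exp ζ` on `Qr α β L`, `G` injective, `G 0 = z`.
`st_val`: `R = f^k z - x`. `st_der`: `deriv (f^[k]) z * deriv G 0 = R`, `deriv G 0 ≠ 0`. `st_mono`: smaller rectangles.
`st_ball`: the branch over `ball (f^k z) (‖R‖ / 2)`: `u ↦ G (Complex.log ((u - x) / R))` (principal logarithm: `(u - x) / R ∈ ball 1 (1/2)`, `log` of it has real part in `(- log 2, log 2)`, imaginary part `< π / 6`).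
`st_small`: PROOF: `nc` with `y = f^k z ∈ J`, the branch of `st_ball` on `ball y δ'' `, `δ'' ≤ ‖R‖ / 4` fixed, `σ = ‖deriv G 0‖`, values within `M σ` of `z` by `distort_lip`.
`st_seq`: a sequence of states with `deriv (G n) 0 → 0` is a sequence of frames with `σ n = deriv (G n) 0`, and `g n ζ = (G n ζ - z n) / σ n` satisfies `g n 0 = 0`, `deriv (g n) 0 = 1`, `Fn n (g n ζ) = exp ζ`.
-/

set_option autoImplicit false

open Filter Topology Metric Set MeasureTheory Pool.Agent.H80.AJ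

namespace Pool.Agent.H56.UD

variable {f : ℂ → ℂ} {U J P Cr E : Set ℂ} {δ b0 : ℝ} {η : ℂ → ℂ → ℂ} {ρ : ℝ} {X hh μ : ℂ → ℂ}

private theorem ma_zero {α β L : ℝ} (hα : α < 0) (hβ : 0 < β) (hL : 0 < L) : (0 : ℂ) ∈ Qr α β L :=
  ⟨by simpa using hα, by simpa using hβ, by simpa using hL⟩

theorem ma_open (α β L : ℝ) : IsOpen (Qr α β L) := by
  refine (isOpen_lt continuous_const Complex.continuous_re).inter
    ((isOpen_lt Complex.continuous_re continuous_const).inter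
      (isOpen_lt (continuous_abs.comp Complex.continuous_im) continuous_const))

theorem st_val {z : ℂ} {k : ℕ} {x R : ℂ} {α β L : ℝ} {G : ℂ → ℂ} (hs : ST f U J P E δ z k x R α β L G)
    (hα : α < 0) (hβ : 0 < β) (hL : 0 < L) : R = f^[k] z - x := by
  have h0 : (0 : ℂ) ∈ Qr α β L := ma_zero hα hβ hL
  have h1 := (hs.val 0 h0).2
  rw [hs.base, Complex.exp_zero, mul_one] at h1
  rw [h1]
  ring

theorem st_der (h : PS f U J P Cr δ η ρ) {z : ℂ} {k : ℕ} {x R : ℂ} {α β L : ℝ} {G : ℂ → ℂ}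
    (hs : ST f U J P E δ z k x R α β L G) (hα : α < 0) (hβ : 0 < β) (hL : 0 < L) :
    deriv (f^[k]) z * deriv G 0 = R ∧ deriv G 0 ≠ 0 := by
  have h0 : (0 : ℂ) ∈ Qr α β L := ma_zero hα hβ hL
  have h1 := der_lift h (ma_open α β L) hs.diff hs.val h0
  have h2 : deriv (fun ζ : ℂ => x + R * Complex.exp ζ) 0 = R := by
    have h3 := ((Complex.hasDerivAt_exp (0 : ℂ)).const_mul R).const_add x
    rw [h3.deriv, Complex.exp_zero, mul_one]
  rw [h2, hs.base] at h1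
  refine ⟨h1, fun h3 => hs.R0 ?_⟩
  rw [← h1, h3, mul_zero]

theorem st_mono {z : ℂ} {k : ℕ} {x R : ℂ} {α β L α' β' L' : ℝ} {G : ℂ → ℂ} (hs : ST f U J P E δ z k x R α β L G)
    (hα : α ≤ α') (hβ : β' ≤ β) (hL : L' ≤ L) : ST f U J P E δ z k x R α' β' L' G := by
  have hsub : Qr α' β' L' ⊆ Qr α β L := fun ζ hζ =>
    ⟨lt_of_le_of_lt hα hζ.1, lt_of_lt_of_le hζ.2.1 hβ, lt_of_lt_of_le hζ.2.2 hL⟩
  exact ⟨hs.zE, hs.xP, hs.R0, hs.diff.mono hsub, hs.inj.mono hsub, fun ζ hζ => hs.val ζ (hsub hζ),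
    hs.base⟩

/-- the branch over a disc around `f^k z` -/
theorem st_ball (h : PS f U J P Cr δ η ρ) : ∃ M : ℝ, 1 ≤ M ∧ ∀ {z : ℂ} {k : ℕ} {x R : ℂ} {α β L : ℝ} {G : ℂ → ℂ},
    ST f U J P E δ z k x R α β L G → α ≤ -1 → 1 ≤ β → 1 ≤ L →
    ∃ g : ℂ → ℂ, DifferentiableOn ℂ g (ball (f^[k] z) (‖R‖ / 2)) ∧ g (f^[k] z) = z ∧
      (∀ u ∈ ball (f^[k] z) (‖R‖ / 2), g u ∈ dm f U J δ k ∧ f^[k] (g u) = u) ∧
      (∀ u ∈ ball (f^[k] z) (‖R‖ / 4), ‖g u - z‖ ≤ M * ‖deriv G 0‖) ∧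
      deriv g (f^[k] z) * R = deriv G 0 := by
  refine ⟨KK, one_le_KK, ?_⟩
  intro z k x R α β L G hs hα hβ hL
  have hy : f^[k] z = x + R := by
    rw [st_val hs (by linarith) (by linarith) (by linarith)]
    ring
  have hR := hs.R0
  have hR' : 0 < ‖R‖ := norm_pos_iff.2 hR
  have hw : ∀ {u : ℂ} {t : ℝ}, u ∈ ball (f^[k] z) (‖R‖ * t) → ‖(u - x) / R - 1‖ < t := by
    intro u t hu
    rw [mem_ball, dist_eq_norm, hy] at hu
    have h1 : (u - x) / R - 1 = (u - (x + R)) / R := by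
      field_simp
      ring
    rw [h1, norm_div, div_lt_iff₀ hR']
    linarith
  have hlog : ∀ {w : ℂ} {t : ℝ}, ‖w - 1‖ < t → t ≤ 1 / 2 →
      ‖Complex.log w‖ ≤ t ^ 2 + t ∧ w ∈ Complex.slitPlane := by
    intro w t hw ht
    have h1 : ‖w - 1‖ < 1 := by linarith
    have h2 := Complex.norm_log_one_add_le h1
    rw [add_sub_cancel] at h2
    have h3 : (1 - ‖w - 1‖)⁻¹ ≤ 2 := by
      rw [inv_le_comm₀ (by linarith) (by norm_num)]
      linarith
    have h4 : 0 ≤ ‖w - 1‖ := norm_nonneg _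
    refine ⟨?_, ?_⟩
    · have h5 : ‖w - 1‖ ^ 2 * (1 - ‖w - 1‖)⁻¹ / 2 ≤ ‖w - 1‖ ^ 2 := by
        have h6 : ‖w - 1‖ ^ 2 * (1 - ‖w - 1‖)⁻¹ ≤ ‖w - 1‖ ^ 2 * 2 :=
          mul_le_mul_of_nonneg_left h3 (sq_nonneg _)
        linarith
      nlinarith
    · rw [← add_sub_cancel (1 : ℂ) w]
      exact Complex.mem_slitPlane_of_norm_lt_one h1
  have hQ : ∀ w : ℂ, ‖w‖ < 1 → w ∈ Qr α β L := by
    intro w hw
    have h1 := Complex.abs_re_le_norm w
    have h2 := Complex.abs_im_le_norm w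
    have h3 := abs_le.1 h1
    exact ⟨by linarith, by linarith, by linarith⟩
  have hball : ball (0 : ℂ) 1 ⊆ Qr α β L := fun w hw => hQ w (by simpa using hw)
  have hlQ : ∀ u ∈ ball (f^[k] z) (‖R‖ / 2), Complex.log ((u - x) / R) ∈ Qr α β L ∧
      (u - x) / R ∈ Complex.slitPlane := by
    intro u hu
    obtain ⟨h1, h2⟩ := hlog (t := 1 / 2) (hw (by rwa [mul_one_div])) le_rfl
    exact ⟨hQ _ (by norm_num at h1 ⊢; linarith), h2⟩
  refine ⟨fun u => G (Complex.log ((u - x) / R)), ?_, ?_, ?_, ?_, ?_⟩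
  · intro u hu
    obtain ⟨h1, h2⟩ := hlQ u hu
    have h3 : DifferentiableAt ℂ G (Complex.log ((u - x) / R)) :=
      (hs.diff _ h1).differentiableAt ((ma_open α β L).mem_nhds h1)
    have h4 : DifferentiableAt ℂ (fun u : ℂ => Complex.log ((u - x) / R)) u :=
      ((differentiableAt_id.sub_const x).div_const R).clog h2
    exact (DifferentiableAt.comp u h3 h4).differentiableWithinAt
  · show G (Complex.log ((f^[k] z - x) / R)) = z
    rw [hy, add_sub_cancel_left, div_self hR, Complex.log_one, hs.base]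
  · intro u hu
    obtain ⟨h1, h2⟩ := hlQ u hu
    obtain ⟨h3, h4⟩ := hs.val _ h1
    refine ⟨h3, ?_⟩
    show f^[k] (G (Complex.log ((u - x) / R))) = u
    rw [h4, Complex.exp_log (Complex.slitPlane_ne_zero h2)]
    field_simp
    ring
  · intro u hu
    obtain ⟨h1, -⟩ := hlog (t := 1 / 4) (hw (by rwa [mul_one_div])) (by norm_num)
    have h2 : Complex.log ((u - x) / R) ∈ closedBall (0 : ℂ) (1 / 2) := by
      rw [mem_closedBall_zero_iff]
      norm_num at h1 ⊢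
      linarith
    have h3 := distort_lip one_pos (hs.diff.mono hball) (hs.inj.mono hball) h2
      (mem_closedBall_self (by norm_num)) (mem_closedBall_self (by norm_num))
    rw [hs.base, sub_zero] at h3
    refine h3.trans ?_
    have h4 : ‖Complex.log ((u - x) / R)‖ ≤ 1 := by
      rw [mem_closedBall_zero_iff] at h2
      linarith
    exact mul_le_of_le_one_right (mul_nonneg KK_pos.le (norm_nonneg _)) h4
  · have h0 : (0 : ℂ) ∈ Qr α β L := ma_zero (by linarith) (by linarith) (by linarith)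
    have h1 : HasDerivAt G (deriv G 0) (Complex.log ((f^[k] z - x) / R)) := by
      rw [hy, add_sub_cancel_left, div_self hR, Complex.log_one]
      exact ((hs.diff _ h0).differentiableAt ((ma_open α β L).mem_nhds h0)).hasDerivAt
    have h2 : HasDerivAt (fun u : ℂ => Complex.log ((u - x) / R)) (1 / R / ((f^[k] z - x) / R))
        (f^[k] z) := by
      refine HasDerivAt.clog (((hasDerivAt_id _).sub_const x).div_const R) ?_
      exact (hlQ _ (mem_ball_self (by positivity))).2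
    have h3 := HasDerivAt.comp (f^[k] z) h1 h2
    have h4 : deriv (fun u => G (Complex.log ((u - x) / R))) (f^[k] z) =
        deriv G 0 * (1 / R / ((f^[k] z - x) / R)) := h3.deriv
    rw [h4, hy, add_sub_cancel_left, div_self hR]
    field_simp

theorem st_small (h : PS f U J P Cr δ η ρ) (hX : FX f U J E δ X hh μ b0) {δ' : ℝ} (hδ : 0 < δ') :
    ∃ ε : ℝ, 0 < ε ∧ ∀ {z : ℂ} {k : ℕ} {x R : ℂ} {α β L : ℝ} {G : ℂ → ℂ},
      ST f U J P E δ z k x R α β L G → α ≤ -1 → 1 ≤ β → 1 ≤ L → ‖deriv G 0‖ < ε → ‖R‖ < δ' := by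
  obtain ⟨M, hM, hb⟩ := st_ball (E := E) h
  obtain ⟨B, hB⟩ := h.Jc.isBounded.subset_closedBall (0 : ℂ)
  have hd : 0 < min (δ' / 4) δ := lt_min (by positivity) h.hδ
  obtain ⟨ε, hε, hn⟩ := nc h hX (M := max M (2 * B)) hd
  refine ⟨ε, hε, ?_⟩
  intro z k x R α β L G hs hα hβ hL hG
  by_contra hR
  rw [not_lt] at hR
  obtain ⟨g, g1, g2, g3, g4, g5⟩ := hb hs hα hβ hL
  have hσ : deriv G 0 ≠ 0 := (st_der h hs (by linarith) (by linarith) (by linarith)).2
  have hzJ : f^[k] z ∈ J := J_it h k (hX.EJ hs.zE)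
  have hsub : ball (f^[k] z) (min (δ' / 4) δ) ⊆ ball (f^[k] z) (‖R‖ / 4) :=
    ball_subset_ball ((min_le_left _ _).trans (by linarith))
  have hsub2 : ball (f^[k] z) (min (δ' / 4) δ) ⊆ ball (f^[k] z) (‖R‖ / 2) :=
    hsub.trans (ball_subset_ball (by have := norm_nonneg R; linarith))
  have hR2 : ‖R‖ ≤ 2 * B := by
    rw [st_val hs (by linarith) (by linarith) (by linarith)]
    have h1 := hB hzJ
    have h2 := hB (h.PJ hs.xP)
    rw [mem_closedBall_zero_iff] at h1 h2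
    exact (norm_sub_le _ _).trans (by linarith)
  have h1 := hn z hs.zE k (f^[k] z) ‖deriv G 0‖ g hzJ
    ((ball_subset_ball (min_le_right _ _)).trans (ball_subset_thickening hzJ δ))
    (norm_pos_iff.2 hσ) (g1.mono hsub2) (fun u hu => ⟨(g3 u (hsub2 hu)).1, (g3 u (hsub2 hu)).2,
      (g4 u (hsub hu)).trans (mul_le_mul_of_nonneg_right (le_max_left _ _) (norm_nonneg _))⟩) (by
      rw [← g5, norm_mul, mul_comm]
      exact mul_le_mul_of_nonneg_right (hR2.trans (le_max_right _ _)) (norm_nonneg _))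
  linarith

theorem st_seq (h : PS f U J P Cr δ η ρ) (hX : FX f U J E δ X hh μ b0) {𝒰 : Ultrafilter ℕ} {z : ℕ → ℂ} {k : ℕ → ℕ}
    {x R : ℕ → ℂ} {α : ℕ → ℝ} {β L : ℝ} {G : ℕ → ℂ → ℂ} (hs : ∀ n, ST f U J P E δ (z n) (k n) (x n) (R n) (α n) β L (G n))
    (hα : ∀ n, α n ≤ -1) (hβ : 1 ≤ β) (hL : 1 ≤ L) (ht : Tendsto (fun n => deriv (G n) 0) (𝒰 : Filter ℕ) (𝓝 0)) :
    Fm 𝒰 E P z k x R (fun n => deriv (G n) 0) ∧
    ∀ n, (∀ ζ ∈ Qr (α n) β L, (G n ζ - z n) / deriv (G n) 0 ∈ Dn f U J δ z k (fun n => deriv (G n) 0) n ∧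
      Fn f z k x R (fun n => deriv (G n) 0) n ((G n ζ - z n) / deriv (G n) 0) = Complex.exp ζ) := by
  have hσ : ∀ n, deriv (G n) 0 ≠ 0 := fun n =>
    (st_der h (hs n) (by have := hα n; linarith) (by linarith) (by linarith)).2
  refine ⟨⟨fun n => (hs n).zE, fun n => (hs n).xP, fun n => (hs n).R0, hσ, ?_, ht⟩, ?_⟩
  · rw [Metric.tendsto_nhds]
    intro δ' hδ'
    obtain ⟨ε, hε, hsm⟩ := st_small h hX hδ'
    have h1 := Metric.tendsto_nhds.1 ht ε hε
    filter_upwards [h1] with n hn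
    rw [dist_zero_right] at hn ⊢
    exact hsm (hs n) (hα n) hβ hL hn
  · intro n ζ hζ
    obtain ⟨h1, h2⟩ := (hs n).val ζ hζ
    have h3 : z n + deriv (G n) 0 * ((G n ζ - z n) / deriv (G n) 0) = G n ζ := by
      rw [mul_div_cancel₀ _ (hσ n)]
      ring
    refine ⟨?_, ?_⟩
    · show z n + deriv (G n) 0 * ((G n ζ - z n) / deriv (G n) 0) ∈ dm f U J δ (k n)
      rw [h3]
      exact h1
    · show (f^[k n] (z n + deriv (G n) 0 * ((G n ζ - z n) / deriv (G n) 0)) - x n) / R n = _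
      rw [h3, h2, add_sub_cancel_left, mul_div_cancel_left₀ _ (hs n).R0]

end Pool.Agent.H56.UD
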