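import Pool.Agent.H56.UD.RC

/-!
# THEOREM UD, chapter R: the limit of the lifts is the identity

PROOF. `Xp`: `κ, c`. Near `ζb`: `g' ζ ∈ Sc (g' ζb)`, `Gd (exp ζ) (g' ζ)` (`el_gd`, `el_sc`; `exp ζ ∉ Ph` near `ζb` since `Ph` is closed), so `exp ζ = exp ((g' ζ - c) / κ)`: `(g' ζ - c) / κ - ζ` is continuous with values in `2 π i ℤ` near `ζb`, so it is a constant `2 π i m` (`Complex.exp_eq_exp_iff_exists_int`; derivative: `deriv g' ζ = κ` near `ζb`, by the chain rule `exp' ..`: simpler: differentiate `exp ζ = exp ((g' ζ - c) / κ)` to get `deriv g' ζ = κ`). Identity theorem on the convex open set `Ql β L`: `g' ζ = κ (ζ + 2 π i m) + c` for all `ζ ∈ Ql β L`; `g' 0 = 0`, `deriv g' 0 = 1`: `κ = 1`, `c = - 2 π i m`. The lift `G1` of `Xp` for the radius `Λ + 2 π |m| + 1` and `ε`; `G ζ = G1 (ζ + 2 π i m)`.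
-/

set_option autoImplicit false

open Filter Topology Metric Set MeasureTheory

namespace Pool.Agent.H56.UD

variable {𝒰 : Ultrafilter ℕ} {F : ℕ → ℂ → ℂ} {D P : ℕ → Set ℂ} {θ C β L : ℝ} {α : ℕ → ℝ} {g : ℕ → ℂ → ℂ} {g' : ℂ → ℂ}

private theorem rh_open (β L : ℝ) : IsOpen (Ql β L) :=
  (isOpen_lt Complex.continuous_re continuous_const).inter
    (isOpen_lt Complex.continuous_im.abs continuous_const)

private theorem rh_convex (β L : ℝ) : Convex ℝ (Ql β L) := by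
  have h1 : Ql β L = {ζ : ℂ | ζ.re < β} ∩ {ζ : ℂ | ζ.im < L} ∩ {ζ : ℂ | -L < ζ.im} := by
    ext ζ
    constructor
    · intro h
      exact ⟨⟨h.1, (abs_lt.1 h.2).2⟩, (abs_lt.1 h.2).1⟩
    · intro h
      exact ⟨h.1.1, abs_lt.2 ⟨h.2, h.1.2⟩⟩
  rw [h1]
  exact ((convex_halfSpace_re_lt β).inter (convex_halfSpace_im_lt L)).inter
    (convex_halfSpace_im_gt (-L))

theorem el_xp (h : LS 𝒰 F D P θ C) (he : EL 𝒰 F D β L α g g') {ζb : ℂ} (hζ : ζb ∈ Ql β L)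
    (hb : Complex.exp ζb ∉ Ph 𝒰 P) (hx : Xp 𝒰 F D P (g' ζb)) (Λ ε : ℝ) (hε : 0 < ε) :
    ∀ᶠ n in (𝒰 : Filter ℕ), ∃ G : ℂ → ℂ, DifferentiableOn ℂ G (ball 0 Λ) ∧
      ∀ ζ ∈ ball (0 : ℂ) Λ, G ζ ∈ D n ∧ F n (G ζ) = Complex.exp ζ ∧ ‖G ζ - ζ‖ < ε := by
  obtain ⟨κ, c, hκ, h2, h3⟩ := hx
  have hQo := rh_open β L
  have hQc := (rh_convex β L).isPreconnected
  obtain ⟨W, hW⟩ : ∃ W : Set ℂ, W = Ql β L \ {ζ : ℂ | Complex.exp ζ ∈ Ph 𝒰 P} := ⟨_, rfl⟩
  have hWo : IsOpen W := by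
    rw [hW]
    exact hQo.sdiff (ph_exp h).1
  have hWb : ζb ∈ W := by
    rw [hW]
    exact ⟨hζ, hb⟩
  have hval : ∀ ζ ∈ W, Complex.exp ζ = Complex.exp ((g' ζ - c) / κ) := by
    intro ζ hz
    rw [hW] at hz
    exact h2 (g' ζ) (el_sc h he hζ hb hz.1 hz.2) (Complex.exp ζ) (el_gd h he hz.1 hz.2)
  have hder : ∀ ζ ∈ W, deriv g' ζ = κ := by
    intro ζ hz
    have hzQ : ζ ∈ Ql β L := by
      rw [hW] at hz
      exact hz.1
    have h4 : HasDerivAt g' (deriv g' ζ) ζ :=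
      (he.dif'.differentiableAt (hQo.mem_nhds hzQ)).hasDerivAt
    have h5 : HasDerivAt (fun u => Complex.exp ((g' u - c) / κ))
        (Complex.exp ((g' ζ - c) / κ) * (deriv g' ζ / κ)) ζ := ((h4.sub_const c).div_const κ).cexp
    have h6 : HasDerivAt (fun u => Complex.exp ((g' u - c) / κ)) (Complex.exp ζ) ζ := by
      refine (Complex.hasDerivAt_exp ζ).congr_of_eventuallyEq ?_
      filter_upwards [hWo.mem_nhds hz] with u hu
      exact (hval u hu).symm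
    have h7 := h5.unique h6
    rw [← hval ζ hz] at h7
    have h8 : deriv g' ζ / κ = 1 := by
      have h9 : Complex.exp ζ * (deriv g' ζ / κ) = Complex.exp ζ * 1 := by rw [h7, mul_one]
      exact mul_left_cancel₀ (Complex.exp_ne_zero ζ) h9
    rwa [div_eq_one_iff_eq hκ] at h8
  have hall : EqOn (deriv g') (fun _ => κ) (Ql β L) := by
    refine AnalyticOnNhd.eqOn_of_preconnected_of_eventuallyEq
      (he.dif'.analyticOnNhd hQo).deriv analyticOnNhd_const hQc hζ ?_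
    filter_upwards [hWo.mem_nhds hWb] with u hu
    exact hder u hu
  have h0 : (0 : ℂ) ∈ Ql β L := ⟨by simpa using he.hβ, by simpa using he.hL⟩
  have hκ1 : κ = 1 := by
    have h4 := hall h0
    rw [he.g1] at h4
    exact h4.symm
  have hid : EqOn g' (fun ζ => ζ) (Ql β L) := by
    refine hQo.eqOn_of_deriv_eq hQc he.dif' differentiableOn_id ?_ h0 he.g0
    intro u hu
    rw [hall hu, hκ1]
    exact (deriv_id u).symm
  have hc : Complex.exp c = 1 := by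
    have h4 := hval ζb hWb
    rw [hid hζ, hκ1, div_one, Complex.exp_sub] at h4
    have h5 : Complex.exp ζb * Complex.exp c = Complex.exp ζb * 1 := by
      rw [mul_one]
      exact (eq_div_iff (Complex.exp_ne_zero c)).1 h4
    exact mul_left_cancel₀ (Complex.exp_ne_zero ζb) h5
  filter_upwards [h3 (Λ + ‖c‖) ε hε] with n hn
  obtain ⟨G, hG1, hG2⟩ := hn
  have hmem : ∀ ζ ∈ ball (0 : ℂ) Λ, ζ - c ∈ ball (0 : ℂ) (Λ + ‖c‖) := by
    intro ζ hz
    rw [mem_ball, dist_zero_right] at hz ⊢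
    exact (norm_sub_le _ _).trans_lt (by linarith)
  refine ⟨fun ζ => G (ζ - c), ?_, fun ζ hz => ?_⟩
  · exact hG1.comp (differentiableOn_id.sub_const c) fun ζ hz => hmem ζ hz
  · obtain ⟨h4, h5, h6⟩ := hG2 (ζ - c) (hmem ζ hz)
    refine ⟨h4, ?_, ?_⟩
    · show F n (G (ζ - c)) = Complex.exp ζ
      rw [h5, Complex.exp_sub, hc, div_one]
    · show ‖G (ζ - c) - ζ‖ < ε
      rwa [hκ1, one_mul, sub_add_cancel] at h6

end Pool.Agent.H56.UD
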