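import Pool.Agent.H56.UD.RG
import Pool.Agent.H56.UD.RH
import Pool.Agent.H56.UD.RI

/-!
# THEOREM UD, chapter M: restoration (RES)

PROOF (think 1470, section 4, 1477). Suppose not: `α0 = -n`, `ε = 1 / (n + 1)`: states `(z n, k n, x n, R n; α n, log 10, 9 π; G n)`, `α n ≤ -n`, `σ n = deriv (G n) 0 → 0`, without an extension to `Qr (α n) β (9 π)`. `𝒰 = hyperfilter ℕ`, frames by `st_seq`, limit system by `fm_ls`. `g n = (G n - z n) / σ n → g` on `Qr' = {Re ζ < log 10, |Im ζ| < 9 π}` (locally bounded by Koebe since `g n 0 = 0`, `deriv = 1`), `g` injective, `g 0 = 0`.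
(1) For `ζ ∈ Qr'` with `exp ζ ∉ Ph`: `Gd (exp ζ) (g ζ)`. The set of these `ζ` is preconnected and not empty (CON for the closed set `{ζ : exp ζ ∈ Ph}`, or CON upstairs: chapter B). Base point: `ζb` near `0` with `exp ζb ∉ Ph`, `sb = g ζb`; all these `g ζ ∈ Sc sb`.
(2) `Ord`: SMALL `r ≤ 1`: gap discs `ψ n` of `Pn n` at `(0, r)`: `q n ζ' = g n (λ n ζ')`, `λ n` the logarithm of `ψ n (exp ζ')` on `Qc θ` (`ψ n (exp ζ') ≠ 0` since `0 ∈ ψ n (ball 0 θ)`, winding number 1: `λ n (ζ' + 2 π i) = λ n ζ' + 2 π i`; imaginary parts `< 9 π` after a choice of the branch: `|Im λ n ζ' - Im ζ' - const| ≤ 2 π`..: use only the turns needed), lift, not closed after two turns since `g n` is injective. LARGE `r > 1`: gap disc `ψ n` at `(0, r)`, `r ≥ 2 C`, take the lift `q n` through a point of `Sc sb` over the collar which is joined to `sb` by a compact connected set `K ⊆ Sg` over `ψ (closedBall 0 ρ)` (PATH lemma of chapter B). If `q n` were closed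 after two turns: `pb`: a unit `φ n, β n`, `K ⊆ φ n (ball 0 1)` (open-closed, `pu_con`), so `g n (ζ)`, `ζ` near `ζb`, and then (the circle of radius `|exp ζb|` is in `ψ n (closedBall 0 ρ)`) `g n ζb, g n (ζb + 2 π i), g n (ζb + 4 π i)` are in `φ n (ball 0 1)` and have the same image under `Fn n`: two are equal (`pu_two`): contradiction. (For `1 < r < 2 C` use the gap disc of a smaller... `Ord` needs a gap disc for every `r`; for `r < 2 C` the same argument with the base point replaced by `g n (ζ)` with `|exp ζ|` small: choose `ζ` with `|exp ζ| ≤ r / (2 C)`.) So one argument suffices for all `r`: choose `ζ1` with `exp ζ1 ∈ ball 0 (r / (2 C))`, `exp ζ1 ∉ Ph`.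
(3) `clx`: `Xp`: `g ζ = κ ζ + c` (from `exp ζ = exp ((g ζ - c) / κ)`), so with `c = 0` (change `c` by a period: `g 0 = 0`), and for large `n` there is `G~ n` on `ball 0 L`, `L ≥ 9 π + β + ..`, with `Fn n (G~ n ζ) = exp ζ`, `|G~ n ζ - κ ζ| < ε`; near `0` it agrees with `g n` (both lifts, close to each other, `g n` is injective near `0` with image containing a fixed disc around `0`); so on the intersection of the domains. Glue `g n` and `G~ n` to a function on `Qr (α n) β (9 π)`; injective: two points with the same value differ by `2 π i m`, `|m| ≤ 9`; if the real part is `< log 10` use `g n`, otherwise `G~ n` is `ε`-close to `κ ζ`.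
-/

set_option autoImplicit false

open Filter Topology Metric Set MeasureTheory

namespace Pool.Agent.H56.UD

variable {f : ℂ → ℂ} {U J P Cr E : Set ℂ} {δ b0 : ℝ} {η : ℂ → ℂ → ℂ} {ρ : ℝ} {X hh μ : ℂ → ℂ}

/-- restoration of the outer radius -/
theorem res (h : PS f U J P Cr δ η ρ) (hX : FX f U J E δ X hh μ b0) {θ C r0 : ℝ} (hθ : 0 < θ) (hθ1 : θ < 1) (hC : 1 ≤ C)
    (hr0 : 0 < r0) (hU : UG θ C r0 P) (β : ℝ) :
    ∃ α0 ε : ℝ, α0 ≤ -1 ∧ 0 < ε ∧ ∀ {z : ℂ} {k : ℕ} {x R : ℂ} {α : ℝ} {G : ℂ → ℂ}, α ≤ α0 →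
      ST f U J P E δ z k x R α (Real.log 10) (9 * Real.pi) G → ‖deriv G 0‖ < ε →
      ∃ G' : ℂ → ℂ, ST f U J P E δ z k x R α β (9 * Real.pi) G' ∧ EqOn G G' (Qr α (Real.log 10) (9 * Real.pi)) := by
  obtain ⟨Λ, ε1, hε1, hgl⟩ := glue (E := E) h β
  have hlog : 1 ≤ Real.log 10 := by
    rw [Real.le_log_iff_exp_le (by norm_num)]
    have := Real.exp_one_lt_d9
    linarith
  have hpi := Real.pi_gt_three
  by_contra hcon
  have hseq : ∀ n : ℕ, ∃ (z : ℂ) (k : ℕ) (x R : ℂ) (α : ℝ) (G : ℂ → ℂ), α ≤ -((n : ℝ) + 1) ∧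
      ST f U J P E δ z k x R α (Real.log 10) (9 * Real.pi) G ∧ ‖deriv G 0‖ < 1 / ((n : ℝ) + 1) ∧
      ¬ ∃ G' : ℂ → ℂ, ST f U J P E δ z k x R α β (9 * Real.pi) G' ∧ EqOn G G' (Qr α (Real.log 10) (9 * Real.pi)) := by
    intro n
    by_contra h1
    apply hcon
    refine ⟨-((n : ℝ) + 1), 1 / ((n : ℝ) + 1), by have : (0 : ℝ) ≤ n := n.cast_nonneg; linarith, by positivity, ?_⟩
    intro z k x R α G hα hs hσ
    by_contra h2
    exact h1 ⟨z, k, x, R, α, G, hα, hs, hσ, h2⟩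
  choose z k x R α G hα hs hσ hno using hseq
  obtain ⟨𝒰, h𝒰⟩ : ∃ 𝒰 : Ultrafilter ℕ, (𝒰 : Filter ℕ) ≤ atTop := ⟨Ultrafilter.of atTop, Ultrafilter.of_le atTop⟩
  have hnn : Tendsto (fun n : ℕ => (n : ℝ) + 1) atTop atTop := tendsto_atTop_add_const_right _ _ tendsto_natCast_atTop_atTop
  have hαt : Tendsto α (𝒰 : Filter ℕ) atBot := by
    refine tendsto_atBot_mono hα ?_
    exact (tendsto_neg_atTop_atBot.comp hnn).mono_left h𝒰
  have ht : Tendsto (fun n => deriv (G n) 0) (𝒰 : Filter ℕ) (𝓝 0) := by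
    rw [tendsto_zero_iff_norm_tendsto_zero]
    refine squeeze_zero (fun n => norm_nonneg _) (fun n => (hσ n).le) ?_
    have h1 : Tendsto (fun n : ℕ => 1 / ((n : ℝ) + 1)) atTop (𝓝 0) := tendsto_one_div_add_atTop_nhds_zero_nat
    exact h1.mono_left h𝒰
  have hα1 : ∀ n, α n ≤ -1 := fun n => (hα n).trans (by have : (0 : ℝ) ≤ n := n.cast_nonneg; linarith)
  obtain ⟨hfm, hval⟩ := st_seq h hX hs hα1 hlog (by linarith) ht
  have hLS := fm_ls h hX hθ hθ1 hC hr0 hU hfm
  obtain ⟨g', he⟩ := el_of h hX hs hα1 hlog (by linarith) ht hαt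
  obtain ⟨ζb, hζb, hPb⟩ := exp_out hLS 0 (ε := 1 / 2) (by norm_num)
  have hζQ : ζb ∈ Ql (Real.log 10) (9 * Real.pi) := by
    rw [mem_ball, dist_zero_right] at hζb
    have h1 := (abs_le.1 ((Complex.abs_re_le_norm ζb).trans hζb.le)).2
    have h2 := (Complex.abs_im_le_norm ζb).trans hζb.le
    refine ⟨by linarith, by linarith⟩
  have hgd := el_gd hLS he hζQ hPb
  have hord := el_ord hLS he (by linarith) hζQ hPb
  have hxp := clx hLS hgd hord
  obtain ⟨n, G1, hG1d, hG1⟩ := (el_xp hLS he hζQ hPb hxp Λ ε1 hε1).exists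
  refine hno n (hgl (hα1 n) (hs n) ⟨G1, hG1d, fun ζ hζ => ?_⟩)
  obtain ⟨h1, h2, h3⟩ := hG1 ζ hζ
  refine ⟨h1, ?_, h3⟩
  unfold Fn at h2
  rw [div_eq_iff (hfm.R0 n)] at h2
  linear_combination h2

end Pool.Agent.H56.UD
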