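import Pool.Agent.H56.UD.MC
import Pool.Agent.H56.UD.ML

/-!
# THEOREM UD, chapter M: the machine between two encounters

`chain`: PROOF by induction on `j` (think 1470, section 5, CLAIM): `Tb` with `r' = K1' ‖R_l‖` at time `l = i + j` gives the state (`trans`), `res` extends it to `β`; `f^[i] (G^ ζ) = g (x' + R' exp ζ)` on the small rectangle, so `f^[i] (G^ ζ)` is `2 π i`-periodic on `Qr (α + 1/10) β (9 π)` (identity theorem) and defines (with `g` near `x'`) a univalent branch `g^` on `ball x' (‖R'‖ exp β)`: `Tb` with the large radius. No critical point in `ball x_l (‖R_l‖ exp β / 3)`: `local_br` with `K = K1'`: branch `g1` of `f⁻¹` on `ball x_(l+1) (K1' ‖R_(l+1)‖)` with values in `ball x_l (‖R_l‖ exp β)`: `g^ ∘ g1`.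
-/

set_option autoImplicit false

open Filter Topology Metric Set MeasureTheory

namespace Pool.Agent.H56.UD

private theorem me_open (α β L : ℝ) : IsOpen (Qr α β L) :=
  (isOpen_lt continuous_const Complex.continuous_re).and
    ((isOpen_lt Complex.continuous_re continuous_const).and
      (isOpen_lt Complex.continuous_im.abs continuous_const))

private theorem me_conv (a b c d : ℝ) :
    Convex ℝ {ζ : ℂ | a < ζ.re ∧ ζ.re < b ∧ c < ζ.im ∧ ζ.im < d} :=
  (convex_halfSpace_re_gt a).inter ((convex_halfSpace_re_lt b).inter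
    ((convex_halfSpace_im_gt c).inter (convex_halfSpace_im_lt d)))

private theorem me_im (ζ : ℂ) (n : ℝ) : (ζ + n * (2 * Real.pi * Complex.I)).im = ζ.im + n * (2 * Real.pi) ∧
    (ζ + n * (2 * Real.pi * Complex.I)).re = ζ.re := by
  constructor <;> simp

/-- periodicity by the identity theorem -/
private theorem me_per {g H : ℂ → ℂ} {x' R' : ℂ} {α' β L : ℝ} (hα : α' < 0) (hβ : 0 < β)
    (hL : 2 * Real.pi < L) (hH : DifferentiableOn ℂ H (Qr α' β L))
    (hgH : ∀ ζ ∈ Qr α' (Real.log 10) L, H ζ = g (x' + R' * Complex.exp ζ)) :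
    ∀ ζ ∈ Qr α' β L, ζ + 2 * Real.pi * Complex.I ∈ Qr α' β L →
      H (ζ + 2 * Real.pi * Complex.I) = H ζ := by
  have hπ := Real.pi_pos
  have hlog : 0 < Real.log 10 := Real.log_pos (by norm_num)
  set S : Set ℂ := {ζ : ℂ | α' < ζ.re ∧ ζ.re < β ∧ -L < ζ.im ∧ ζ.im < L - 2 * Real.pi} with hS
  have hSo : IsOpen S := (isOpen_lt continuous_const Complex.continuous_re).and
    ((isOpen_lt Complex.continuous_re continuous_const).and
      ((isOpen_lt continuous_const Complex.continuous_im).and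
        (isOpen_lt Complex.continuous_im continuous_const)))
  have him : ∀ ζ : ℂ, (ζ + 2 * Real.pi * Complex.I).im = ζ.im + 2 * Real.pi ∧
      (ζ + 2 * Real.pi * Complex.I).re = ζ.re := by
    intro ζ
    constructor <;> simp
  have hSQ : ∀ ζ ∈ S, ζ ∈ Qr α' β L ∧ ζ + 2 * Real.pi * Complex.I ∈ Qr α' β L := by
    rintro ζ ⟨h1, h2, h3, h4⟩
    refine ⟨⟨h1, h2, ?_⟩, ?_, ?_, ?_⟩
    · rw [abs_lt]
      constructor <;> linarith
    · rw [(him ζ).2]
      exact h1
    · rw [(him ζ).2]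
      exact h2
    · rw [(him ζ).1, abs_lt]
      constructor <;> linarith
  have hd1 : DifferentiableOn ℂ (fun ζ => H (ζ + 2 * Real.pi * Complex.I)) S :=
    hH.comp (by fun_prop) (fun ζ hζ => (hSQ ζ hζ).2)
  have hd2 : DifferentiableOn ℂ H S := hH.mono (fun ζ hζ => (hSQ ζ hζ).1)
  have h0 : (0 : ℂ) ∈ S := by
    refine ⟨by simpa using hα, by simpa using hβ, ?_, ?_⟩
    · rw [Complex.zero_im]
      linarith
    · rw [Complex.zero_im]
      linarith
  have key : EqOn (fun ζ => H (ζ + 2 * Real.pi * Complex.I)) H S := by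
    refine (hd1.analyticOnNhd hSo).eqOn_of_preconnected_of_eventuallyEq (hd2.analyticOnNhd hSo)
      (me_conv _ _ _ _).isPreconnected h0 ?_
    have h1 : ∀ᶠ ζ : ℂ in 𝓝 0, ζ ∈ S := hSo.mem_nhds h0
    have h2 : ∀ᶠ ζ : ℂ in 𝓝 0, ζ.re < Real.log 10 := by
      refine (isOpen_lt Complex.continuous_re continuous_const).mem_nhds ?_
      simpa using hlog
    filter_upwards [h1, h2] with ζ h3 h4
    obtain ⟨h5, h6⟩ := hSQ ζ h3
    have h7 : H (ζ + 2 * Real.pi * Complex.I) =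
        g (x' + R' * Complex.exp (ζ + 2 * Real.pi * Complex.I)) := by
      refine hgH _ ⟨h6.1, ?_, h6.2.2⟩
      rw [(him ζ).2]
      exact h4
    have h8 : H ζ = g (x' + R' * Complex.exp ζ) := hgH _ ⟨h5.1, h4, h5.2.2⟩
    show H (ζ + 2 * Real.pi * Complex.I) = H ζ
    rw [h7, h8, Complex.exp_add, Complex.exp_two_pi_mul_I, mul_one]
  intro ζ hζ hζ'
  refine key (x := ζ) ⟨hζ.1, hζ.2.1, (abs_lt.1 hζ.2.2).1, ?_⟩
  have h1 := (abs_lt.1 hζ'.2.2).2
  rw [(him ζ).1] at h1
  linarith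

private theorem me_per_nat {H : ℂ → ℂ} {α' β L : ℝ}
    (hp : ∀ ζ ∈ Qr α' β L, ζ + 2 * Real.pi * Complex.I ∈ Qr α' β L →
      H (ζ + 2 * Real.pi * Complex.I) = H ζ) (n : ℕ) :
    ∀ ζ ∈ Qr α' β L, ζ + n * (2 * Real.pi * Complex.I) ∈ Qr α' β L →
      H (ζ + n * (2 * Real.pi * Complex.I)) = H ζ := by
  have hπ := Real.pi_pos
  induction n with
  | zero =>
    intro ζ _ _
    simp
  | succ n ih =>
    intro ζ hζ hζ'
    have e : ζ + ((n + 1 : ℕ) : ℂ) * (2 * Real.pi * Complex.I) =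
        ζ + n * (2 * Real.pi * Complex.I) + 2 * Real.pi * Complex.I := by
      push_cast
      ring
    have h1 : ζ + n * (2 * Real.pi * Complex.I) ∈ Qr α' β L := by
      have h2 := me_im ζ n
      have h3 := me_im ζ ((n + 1 : ℕ) : ℝ)
      simp only [Complex.ofReal_natCast] at h2 h3
      obtain ⟨h4, h5, h6⟩ := hζ'
      rw [h3.1] at h6
      rw [h3.2] at h4 h5
      refine ⟨?_, ?_, ?_⟩
      · rw [h2.2]
        exact h4
      · rw [h2.2]
        exact h5
      · rw [h2.1, abs_lt]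
        rw [abs_lt] at h6
        have h7 := (abs_lt.1 hζ.2.2)
        have h8 : 0 ≤ (n : ℝ) * (2 * Real.pi) := by positivity
        have h9 : (((n + 1 : ℕ) : ℝ)) * (2 * Real.pi) = (n : ℝ) * (2 * Real.pi) + 2 * Real.pi := by
          push_cast
          ring
        rw [h9] at h6
        constructor
        · linarith [h7.1]
        · linarith [h6.2]
    rw [e] at hζ' ⊢
    rw [hp _ h1 hζ', ih ζ hζ h1]

private theorem me_per_exp {H : ℂ → ℂ} {α' β L : ℝ}
    (hp : ∀ ζ ∈ Qr α' β L, ζ + 2 * Real.pi * Complex.I ∈ Qr α' β L →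
      H (ζ + 2 * Real.pi * Complex.I) = H ζ) {ζ ζ' : ℂ} (hζ : ζ ∈ Qr α' β L)
    (hζ' : ζ' ∈ Qr α' β L) (he : Complex.exp ζ = Complex.exp ζ') : H ζ = H ζ' := by
  obtain ⟨n, hn⟩ := Complex.exp_eq_exp_iff_exists_int.1 he
  rcases Int.le_total 0 n with h0 | h0
  · obtain ⟨m, rfl⟩ := Int.eq_ofNat_of_zero_le h0
    have h1 : ζ = ζ' + (m : ℂ) * (2 * Real.pi * Complex.I) := by
      rw [hn]
      push_cast
      ring
    rw [h1]
    rw [h1] at hζ
    exact me_per_nat hp m ζ' hζ' hζ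
  · obtain ⟨m, hm⟩ := Int.eq_ofNat_of_zero_le (neg_nonneg.2 h0)
    have h2 : (n : ℂ) = -(m : ℂ) := by
      have h3 : n = -(m : ℤ) := by
        rw [← hm]
        ring
      rw [h3]
      push_cast
      ring
    have h1 : ζ' = ζ + (m : ℂ) * (2 * Real.pi * Complex.I) := by
      rw [hn, h2]
      ring
    rw [h1]
    rw [h1] at hζ'
    exact (me_per_nat hp m ζ hζ hζ').symm

/-- extension of a branch by its lift -/
private theorem me_ext {g H : ℂ → ℂ} {x' R' : ℂ} {α' β L : ℝ} (hR : R' ≠ 0) (hα : α' < 0)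
    (hβ : 0 < β) (hL : 3 * Real.pi < L) (hg : DifferentiableOn ℂ g (ball x' (10 * ‖R'‖)))
    (hH : DifferentiableOn ℂ H (Qr α' β L))
    (hgH : ∀ ζ ∈ Qr α' (Real.log 10) L, H ζ = g (x' + R' * Complex.exp ζ)) :
    ∃ gh : ℂ → ℂ, DifferentiableOn ℂ gh (ball x' (‖R'‖ * Real.exp β)) ∧
      (∀ u ∈ ball x' (10 * ‖R'‖), gh u = g u) ∧
      (∀ u ∈ ball x' (‖R'‖ * Real.exp β), u ∉ ball x' (10 * ‖R'‖) →
        ∃ ζ ∈ Qr α' β L, x' + R' * Complex.exp ζ = u ∧ gh u = H ζ) := by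
  classical
  have hπ := Real.pi_pos
  have hRn : 0 < ‖R'‖ := norm_pos_iff.2 hR
  have hp := me_per (g := g) (x' := x') (R' := R') hα hβ (by linarith) hH hgH
  have hexp : Real.exp α' < 1 := by
    rw [← Real.exp_zero]
    exact Real.exp_lt_exp.2 hα
  set gh : ℂ → ℂ := fun u => if u ∈ ball x' (10 * ‖R'‖) then g u else
    H (Complex.log ((u - x') / R')) with hgh
  have hw : ∀ u : ℂ, ‖R'‖ * Real.exp α' < ‖u - x'‖ → (u - x') / R' ≠ 0 ∧
      Real.exp α' < ‖(u - x') / R'‖ := by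
    intro u hu
    have h1 : Real.exp α' < ‖(u - x') / R'‖ := by
      rw [norm_div, lt_div_iff₀ hRn, mul_comm]
      exact hu
    refine ⟨fun h0 => ?_, h1⟩
    rw [h0, norm_zero] at h1
    exact absurd h1 (not_lt.2 (Real.exp_pos _).le)
  have hlog : ∀ (b : ℝ) (u : ℂ), ‖R'‖ * Real.exp α' < ‖u - x'‖ → ‖u - x'‖ < ‖R'‖ * Real.exp b →
      Complex.log ((u - x') / R') ∈ Qr α' b L ∧
      x' + R' * Complex.exp (Complex.log ((u - x') / R')) = u := by
    intro b u h1 h2
    obtain ⟨h3, h4⟩ := hw u h1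
    have h5 : ‖(u - x') / R'‖ < Real.exp b := by
      rw [norm_div, div_lt_iff₀ hRn, mul_comm]
      exact h2
    have h6 : 0 < ‖(u - x') / R'‖ := norm_pos_iff.2 h3
    refine ⟨⟨?_, ?_, ?_⟩, ?_⟩
    · rw [Complex.log_re]
      exact (Real.lt_log_iff_exp_lt h6).2 h4
    · rw [Complex.log_re]
      exact (Real.log_lt_iff_lt_exp h6).2 h5
    · rw [Complex.log_im]
      exact (Complex.abs_arg_le_pi _).trans_lt (by linarith)
    · rw [Complex.exp_log h3]
      field_simp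
      ring
  have h10 : Real.exp (Real.log 10) = 10 := Real.exp_log (by norm_num)
  have hval : ∀ u : ℂ, ‖R'‖ * Real.exp α' < ‖u - x'‖ → ‖u - x'‖ < ‖R'‖ * Real.exp β →
      gh u = H (Complex.log ((u - x') / R')) := by
    intro u h1 h2
    by_cases h3 : u ∈ ball x' (10 * ‖R'‖)
    · have h4 : ‖u - x'‖ < ‖R'‖ * Real.exp (Real.log 10) := by
        rw [h10, mul_comm]
        exact mem_ball_iff_norm.1 h3
      obtain ⟨h5, h6⟩ := hlog (Real.log 10) u h1 h4
      rw [hgh]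
      simp only [if_pos h3]
      rw [hgH _ h5, h6]
    · rw [hgh]
      simp only [if_neg h3]
  refine ⟨gh, ?_, ?_, ?_⟩
  · intro u0 hu0
    refine DifferentiableAt.differentiableWithinAt ?_
    by_cases h3 : u0 ∈ ball x' (10 * ‖R'‖)
    · have h4 : gh =ᶠ[𝓝 u0] g := by
        filter_upwards [isOpen_ball.mem_nhds h3] with u hu
        rw [hgh]
        simp only [if_pos hu]
      exact (h4.differentiableAt_iff).2 (hg.differentiableAt (isOpen_ball.mem_nhds h3))
    · have h4 : 10 * ‖R'‖ ≤ ‖u0 - x'‖ := by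
        rw [mem_ball_iff_norm] at h3
        exact not_lt.1 h3
      have h5 : ‖R'‖ * Real.exp α' < ‖u0 - x'‖ := by
        have h6 : ‖R'‖ * Real.exp α' ≤ ‖R'‖ * 1 := mul_le_mul_of_nonneg_left hexp.le hRn.le
        linarith
      have h6 : ‖u0 - x'‖ < ‖R'‖ * Real.exp β := mem_ball_iff_norm.1 hu0
      obtain ⟨hw0, -⟩ := hw u0 h5
      obtain ⟨h7, h8⟩ := hlog β u0 h5 h6
      set w0 : ℂ := (u0 - x') / R' with hw0'
      set φ : ℂ → ℂ := fun u => Complex.log w0 + Complex.log ((u - x') / R' / w0) with hφ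
      have hφd : DifferentiableAt ℂ φ u0 := by
        have h9 : DifferentiableAt ℂ (fun u : ℂ => (u - x') / R' / w0) u0 := by fun_prop
        refine (differentiableAt_const _).add (h9.clog ?_)
        show (u0 - x') / R' / w0 ∈ Complex.slitPlane
        rw [← hw0', div_self hw0]
        exact Complex.one_mem_slitPlane
      have hφ0 : φ u0 = Complex.log w0 := by
        show Complex.log w0 + Complex.log ((u0 - x') / R' / w0) = Complex.log w0
        rw [← hw0', div_self hw0, Complex.log_one, add_zero]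
      have h9 : ∀ᶠ u in 𝓝 u0, φ u ∈ Qr α' β L := by
        have h11 := hφd.continuousAt
        refine h11.eventually_mem ((me_open α' β L).mem_nhds ?_)
        rw [hφ0]
        exact h7
      have h12 : ∀ᶠ u in 𝓝 u0, ‖R'‖ * Real.exp α' < ‖u - x'‖ := by
        have hc : Continuous fun u : ℂ => ‖u - x'‖ := by fun_prop
        exact (isOpen_lt continuous_const hc).mem_nhds h5
      have h13 : ∀ᶠ u in 𝓝 u0, ‖u - x'‖ < ‖R'‖ * Real.exp β := by
        have hc : Continuous fun u : ℂ => ‖u - x'‖ := by fun_prop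
        exact (isOpen_lt hc continuous_const).mem_nhds h6
      have h14 : gh =ᶠ[𝓝 u0] fun u => H (φ u) := by
        filter_upwards [h9, h12, h13] with u g1 g2 g3
        rw [hval u g2 g3]
        refine me_per_exp hp (hlog β u g2 g3).1 g1 ?_
        obtain ⟨g4, -⟩ := hw u g2
        rw [hφ]
        simp only
        rw [Complex.exp_add, Complex.exp_log g4, Complex.exp_log hw0,
          Complex.exp_log (div_ne_zero g4 hw0)]
        field_simp
      refine (h14.differentiableAt_iff).2 ?_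
      refine DifferentiableAt.comp (g := H) u0 ?_ hφd
      rw [hφ0]
      exact hH.differentiableAt ((me_open α' β L).mem_nhds h7)
  · intro u hu
    rw [hgh]
    simp only [if_pos hu]
  · intro u hu h3
    have h4 : 10 * ‖R'‖ ≤ ‖u - x'‖ := by
      rw [mem_ball_iff_norm] at h3
      exact not_lt.1 h3
    have h5 : ‖R'‖ * Real.exp α' < ‖u - x'‖ := by
      have h6 : ‖R'‖ * Real.exp α' ≤ ‖R'‖ * 1 := mul_le_mul_of_nonneg_left hexp.le hRn.le
      linarith
    have h6 : ‖u - x'‖ < ‖R'‖ * Real.exp β := mem_ball_iff_norm.1 hu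
    obtain ⟨h7, h8⟩ := hlog β u h5 h6
    exact ⟨_, h7, h8, hval u h5 h6⟩

variable {f : ℂ → ℂ} {U J P Cr E : Set ℂ} {δ b0 : ℝ} {η : ℂ → ℂ → ℂ} {ρ : ℝ} {X hh μ : ℂ → ℂ}

private theorem me_it (h : PS f U J P Cr δ η ρ) {k : ℕ} {z : ℂ} (hz : ∀ m < k, f^[m] z ∈ U) :
    DifferentiableAt ℂ (f^[k]) z := by
  induction k with
  | zero => exact differentiableAt_id
  | succ k ih =>
    rw [Function.iterate_succ']
    refine DifferentiableAt.comp z ?_ (ih fun m hm => hz m (by omega))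
    exact h.fd.differentiableAt (h.Uo.mem_nhds (hz k (Nat.lt_succ_self k)))

/-- the machine runs until a critical point is met -/
theorem chain (h : PS f U J P Cr δ η ρ) (hX : FX f U J E δ X hh μ b0) {θ C r0 : ℝ} (hθ : 0 < θ) (hθ1 : θ < 1) (hC : 1 ≤ C)
    (hr0 : 0 < r0) (hU : UG θ C r0 P) (K : ℝ) (hK : 1 ≤ K) :
    ∃ β0 : ℝ, ∀ β : ℝ, β0 ≤ β → ∃ α0 : ℝ, ∀ α : ℝ, α ≤ α0 → ∃ ε : ℝ, 0 < ε ∧ ∀ {z : ℂ} {i : ℕ} {x R : ℂ} {G : ℂ → ℂ},
      ST f U J P E δ z i x R α (Real.log 10 + 1) (10 * Real.pi) G → ‖deriv G 0‖ < ε → ∀ j : ℕ,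
      (∀ m < j, ∀ c ∈ Cr, ‖f^[i + m] z - f^[m] x‖ * Real.exp β / 3 ≤ ‖c - f^[m] x‖) →
      ∃ g G' : ℂ → ℂ, Tb f U J δ j x (f^[j] x) (K * ‖f^[i + j] z - f^[j] x‖) g ∧ g (f^[i + j] z) = f^[i] z ∧
        ST f U J P E δ z (i + j) (f^[j] x) (f^[i + j] z - f^[j] x) (α + 1 / 10) β (9 * Real.pi) G' ∧
        ‖deriv G' 0‖ ≤ 101 / 100 * ‖deriv G 0‖ := by
  classical
  have hπ := Real.pi_gt_three
  have hlog10 : 0 < Real.log 10 := Real.log_pos (by norm_num)
  obtain ⟨K1, hK1, htr⟩ := trans (E := E) h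
  obtain ⟨Cl, hCl, hloc⟩ := local_br h
  obtain ⟨K', hK'⟩ : ∃ K' : ℝ, K' = max K (K1 + 10) := ⟨_, rfl⟩
  have hKK : K ≤ K' := by
    rw [hK']
    exact le_max_left _ _
  have hK1K : K1 + 10 ≤ K' := by
    rw [hK']
    exact le_max_right _ _
  have hK'1 : 1 < K' := by linarith
  have hK'0 : 0 < K' := by linarith
  obtain ⟨δ3, hδ3, hloc3⟩ := hloc K' hK'1.le
  refine ⟨max 1 (Real.log (3 * Cl * K')), fun β hβ => ?_⟩
  have hβ1 : 1 ≤ β := (le_max_left _ _).trans hβ
  have hβe : Cl * K' ≤ Real.exp β / 3 := by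
    have h1 : 3 * Cl * K' ≤ Real.exp β :=
      (Real.log_le_iff_le_exp (by positivity)).1 ((le_max_right _ _).trans hβ)
    linarith
  obtain ⟨αr, εr, hαr, hεr, hres⟩ := res h hX hθ hθ1 hC hr0 hU β
  refine ⟨min (-5) (αr - 1 / 10), fun α hα => ?_⟩
  have hα5 : α ≤ -5 := hα.trans (min_le_left _ _)
  have hαr' : α ≤ αr - 1 / 10 := hα.trans (min_le_right _ _)
  obtain ⟨ε1, hε1, hs1⟩ := st_small h hX (δ' := δ / K') (div_pos h.hδ hK'0)
  obtain ⟨ε2, hε2, hs2⟩ := st_small h hX hδ3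
  refine ⟨min ε1 (min (εr / 2) (ε2 / 2)), by positivity, ?_⟩
  intro z i x R G hS hG
  have hG1 : ‖deriv G 0‖ < ε1 := hG.trans_le (min_le_left _ _)
  have hG2 : ‖deriv G 0‖ < εr / 2 := hG.trans_le ((min_le_right _ _).trans (min_le_left _ _))
  have hG3 : ‖deriv G 0‖ < ε2 / 2 := hG.trans_le ((min_le_right _ _).trans (min_le_right _ _))
  have hG0 : 0 ≤ ‖deriv G 0‖ := norm_nonneg _
  have hRv : R = f^[i] z - x := st_val hS (by linarith) (by linarith) (by positivity)
  -- the state at time `i + j`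
  have hstate : ∀ (j : ℕ) (g : ℂ → ℂ),
      Tb f U J δ j x (f^[j] x) (K' * ‖f^[i + j] z - f^[j] x‖) g → g (f^[i + j] z) = f^[i] z →
      f^[i + j] z - f^[j] x ≠ 0 ∧ ∃ G' : ℂ → ℂ,
        ST f U J P E δ z (i + j) (f^[j] x) (f^[i + j] z - f^[j] x) (α + 1 / 10) β (9 * Real.pi) G' ∧
        ‖deriv G' 0‖ ≤ 101 / 100 * ‖deriv G 0‖ ∧
        ∀ ζ ∈ Qr (α + 1 / 10) (Real.log 10) (9 * Real.pi),
          f^[i] (G' ζ) = g (f^[j] x + (f^[i + j] z - f^[j] x) * Complex.exp ζ) := by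
    intro j g hT hgz
    have hne : f^[i + j] z - f^[j] x ≠ 0 := by
      intro h0
      have h1 : f^[i + j] z = f^[j] x := sub_eq_zero.1 h0
      rw [h1, hT.cen] at hgz
      refine hS.R0 ?_
      rw [hRv, ← hgz, sub_self]
    have hpos : 0 < ‖f^[i + j] z - f^[j] x‖ := norm_pos_iff.2 hne
    obtain ⟨G1, h1, h2, h3⟩ := htr hS hα5 hT hgz
      (mul_lt_mul_of_pos_right (by linarith) hpos)
    have h4 : ‖deriv G1 0‖ < εr := by linarith
    obtain ⟨G2, h5, h6⟩ := hres (by linarith) h1 h4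
    have h0 : (0 : ℂ) ∈ Qr (α + 1 / 10) (Real.log 10) (9 * Real.pi) := by
      refine ⟨?_, ?_, ?_⟩
      · rw [Complex.zero_re]
        linarith
      · rw [Complex.zero_re]
        exact hlog10
      · rw [Complex.zero_im, abs_zero]
        positivity
    have h7 : G1 =ᶠ[𝓝 0] G2 := by
      filter_upwards [(me_open _ _ _).mem_nhds h0] with ζ hζ
      exact h6 hζ
    refine ⟨hne, G2, h5, ?_, ?_⟩
    · rw [← h7.deriv_eq]
      exact h2
    · intro ζ hζ
      rw [← h6 hζ]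
      exact h3 ζ hζ
  -- the branches
  have hmain : ∀ j : ℕ,
      (∀ m < j, ∀ c ∈ Cr, ‖f^[i + m] z - f^[m] x‖ * Real.exp β / 3 ≤ ‖c - f^[m] x‖) →
      ∃ g : ℂ → ℂ, Tb f U J δ j x (f^[j] x) (K' * ‖f^[i + j] z - f^[j] x‖) g ∧
        g (f^[i + j] z) = f^[i] z := by
    intro j
    induction j with
    | zero =>
      intro _
      refine ⟨id, ⟨differentiableOn_id, fun u hu => ⟨?_, rfl⟩, rfl⟩, rfl⟩
      rw [dm_zero, id, mem_thickening_iff]
      refine ⟨x, h.PJ hS.xP, ?_⟩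
      have h1 : ‖R‖ < δ / K' := hs1 hS (by linarith) (by linarith) (by linarith) hG1
      have h2 : dist u x < K' * ‖f^[i + 0] z - f^[0] x‖ := mem_ball.1 hu
      rw [lt_div_iff₀ hK'0] at h1
      have h3 : f^[i + 0] z - f^[0] x = R := by
        rw [hRv]
        rfl
      rw [h3] at h2
      linarith
    | succ j ih =>
      intro hcr
      obtain ⟨g, hT, hgz⟩ := ih fun m hm => hcr m (by omega)
      obtain ⟨hne, G', hS', hd', hper⟩ := hstate j g hT hgz
      obtain ⟨xj, hxj⟩ : ∃ xj : ℂ, xj = f^[j] x := ⟨_, rfl⟩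
      obtain ⟨zj, hzj⟩ : ∃ zj : ℂ, zj = f^[i + j] z := ⟨_, rfl⟩
      have hcrj := hcr j (Nat.lt_succ_self j)
      have e1 : f^[j + 1] x = f xj := by rw [hxj, Function.iterate_succ_apply']
      have e2 : f^[i + (j + 1)] z = f zj := by
        rw [hzj, ← add_assoc, Function.iterate_succ_apply']
      rw [e1, e2]
      rw [← hxj, ← hzj] at hT hne hS' hper hcrj
      rw [← hzj] at hgz
      have hpos : 0 < ‖zj - xj‖ := norm_pos_iff.2 hne
      have hsm : ‖zj - xj‖ < δ3 :=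
        hs2 hS' (by linarith) hβ1 (by linarith) (by linarith)
      -- extension of the branch
      have hHd : DifferentiableOn ℂ (fun ζ => f^[i] (G' ζ)) (Qr (α + 1 / 10) β (9 * Real.pi)) := by
        intro ζ hζ
        refine DifferentiableAt.differentiableWithinAt ?_
        refine DifferentiableAt.comp (g := f^[i]) ζ (me_it h ?_)
          (hS'.diff.differentiableAt ((me_open _ _ _).mem_nhds hζ))
        exact dm_U (hS'.val ζ hζ).1
      have h10K : 10 * ‖zj - xj‖ ≤ K' * ‖zj - xj‖ :=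
        mul_le_mul_of_nonneg_right (by linarith) hpos.le
      obtain ⟨gh, hg1, hg2, hg3⟩ := me_ext (g := g) (H := fun ζ => f^[i] (G' ζ)) (x' := xj)
        (R' := zj - xj) (α' := α + 1 / 10) (β := β) (L := 9 * Real.pi) hne (by linarith)
        (by linarith) (by linarith) (hT.diff.mono (ball_subset_ball h10K)) hHd hper
      have hxm : xj ∈ ball xj (10 * ‖zj - xj‖) := mem_ball_self (by positivity)
      have hzm : zj ∈ ball xj (10 * ‖zj - xj‖) := by
        rw [mem_ball_iff_norm]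
        linarith
      have hTh : Tb f U J δ j x xj (‖zj - xj‖ * Real.exp β) gh := by
        refine ⟨hg1, fun u hu => ?_, ?_⟩
        · by_cases h3 : u ∈ ball xj (10 * ‖zj - xj‖)
          · rw [hg2 u h3]
            exact hT.val u (ball_subset_ball h10K h3)
          · obtain ⟨ζ, hζ, h4, h5⟩ := hg3 u hu h3
            obtain ⟨h6, h7⟩ := hS'.val ζ hζ
            rw [h5]
            refine ⟨dm_add h6, ?_⟩
            show f^[j] (f^[i] (G' ζ)) = u
            rw [← Function.iterate_add_apply, add_comm j i, h7, h4]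
        · rw [hg2 xj hxm, hT.cen]
      -- one more step
      have hxJ : xj ∈ J := h.PJ hS'.xP
      have hcrit : ∀ c ∈ Cr, Cl * K' * ‖zj - xj‖ ≤ ‖c - xj‖ := by
        intro c hc
        refine le_trans ?_ (hcrj c hc)
        have h3 : Cl * K' * ‖zj - xj‖ ≤ Real.exp β / 3 * ‖zj - xj‖ :=
          mul_le_mul_of_nonneg_right hβe hpos.le
        linarith
      obtain ⟨hwU, hwne, g1, hT1, hg1w, hg1b⟩ :=
        hloc3 xj hxJ zj (sub_ne_zero.1 hne) hsm hcrit
      have hsub : ∀ u ∈ ball (f xj) (K' * ‖f zj - f xj‖), g1 u ∈ ball xj (‖zj - xj‖ * Real.exp β) := by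
        intro u hu
        refine ball_subset_ball ?_ (hg1b u hu)
        have h3 : Cl * K' * ‖zj - xj‖ ≤ Real.exp β / 3 * ‖zj - xj‖ :=
          mul_le_mul_of_nonneg_right hβe hpos.le
        have h4 : 0 < Real.exp β := Real.exp_pos _
        nlinarith
      refine ⟨fun u => gh (g1 u), ⟨?_, ?_, ?_⟩, ?_⟩
      · exact hTh.diff.comp hT1.diff hsub
      · intro u hu
        obtain ⟨h3, h4⟩ := hTh.val (g1 u) (hsub u hu)
        obtain ⟨h5, h6⟩ := hT1.val u hu
        refine ⟨?_, ?_⟩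
        · refine dm_add' (j := j) (k := 1) h3.1 ?_
          rw [h4]
          exact h5
        · show f^[j + 1] (gh (g1 u)) = u
          rw [Function.iterate_succ_apply', h4]
          exact h6
      · show gh (g1 (f xj)) = x
        rw [hT1.cen, hTh.cen]
      · show gh (g1 (f zj)) = f^[i] z
        rw [hg1w hK'1, hg2 zj hzm, hgz]
  intro j hcr
  obtain ⟨g, hT, hgz⟩ := hmain j hcr
  obtain ⟨-, G', hS', hd', -⟩ := hstate j g hT hgz
  have hle : K * ‖f^[i + j] z - f^[j] x‖ ≤ K' * ‖f^[i + j] z - f^[j] x‖ :=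
    mul_le_mul_of_nonneg_right hKK (norm_nonneg _)
  exact ⟨g, G', ⟨hT.diff.mono (ball_subset_ball hle),
    fun u hu => hT.val u (ball_subset_ball hle hu), hT.cen⟩, hgz, hS', hd'⟩

end Pool.Agent.H56.UD
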