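import Pool.Agent.H56.UD.MD

/-!
# THEOREM UD, chapter M: passage through a critical point

PROOF of `pass` (`A2 = 20`): `η = η c`, `A = deriv (η c) 0`; `f^[l] z = η v_z` (`‖f^[l] z - c‖ ≤ 2 ‖R‖` small; `univ_cover`: `ball c (ρ ‖A‖ / 16) ⊆ η '' ball 0 ρ`), `R' = f^[l+1] z - f c = v_z ^ 2`. For `ζ ∈ Qr (2 α + 20) (2 β - 2) (17 π)` put `v = v_z exp (ζ / 2)`, `w = η v`: `f w = f c + R' exp ζ`. `aff_q` for `η` at `0`: `(w - c) / (f^[l] z - c) = exp (ζ / 2) (1 + small)`, `small ≤ C (‖v‖ + ‖v_z‖) / ρ ≤ 1/1000` for `‖R‖ < δ3`. `(w - x) / R = (w - c) / R + (c - x) / R`, `(f^[l] z - c) / R = 1 - (c - x) / R`, `‖(c - x) / R‖ ≤ 20 exp α1`, and `‖exp (ζ / 2)‖ ≥ exp (α1 + 10)`: `(w - x) / (R exp (ζ / 2)) = 1 + small`, `small ≤ 1/500`. `λ ζ = ζ / 2 + Complex.log (..)`, `λ ζ ∈ Qr α1 β (9 π)`, `G' = G ∘ λ`, `λ 0 = 0`. As in `trans`. `deriv λ 0 = 1/2 + small`.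
TRAP: `w ∈ ball c (‖f^[l] z - c‖ / 2)`: `w = η v`, `‖v‖ ≤ 0.505 ‖v_z‖`, so `‖f w - f c‖ = ‖v‖ ^ 2 ≤ 0.26 ‖v_z‖ ^ 2`.
-/

set_option autoImplicit false

open Filter Topology Metric Set MeasureTheory

namespace Pool.Agent.H56.UD

variable {f : ℂ → ℂ} {U J P Cr E : Set ℂ} {δ b0 : ℝ} {η : ℂ → ℂ → ℂ} {ρ : ℝ} {X hh μ : ℂ → ℂ}

private theorem e10 : 20 * Real.exp (-10) ≤ 1 / 1000 - 1 / 20000 := by
  have h1 : Real.exp (-10) = Real.exp (-1) ^ 10 := by
    rw [← Real.exp_nat_mul]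
    norm_num
  have h2 := Real.exp_neg_one_lt_d9
  have h3 : Real.exp (-1) ^ 10 ≤ (0.3679 : ℝ) ^ 10 :=
    pow_le_pow_left₀ (Real.exp_pos _).le (by linarith) 10
  rw [h1]
  have h4 : 20 * (0.3679 : ℝ) ^ 10 ≤ 1 / 1000 - 1 / 20000 := by norm_num
  linarith

private theorem e20 : 20 * Real.exp (-20) ≤ 1 / 50000 := by
  have h1 : Real.exp (-20) = Real.exp (-1) ^ 20 := by
    rw [← Real.exp_nat_mul]
    norm_num
  have h2 := Real.exp_neg_one_lt_d9
  have h3 : Real.exp (-1) ^ 20 ≤ (0.3679 : ℝ) ^ 20 :=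
    pow_le_pow_left₀ (Real.exp_pos _).le (by linarith) 20
  rw [h1]
  have h4 : 20 * (0.3679 : ℝ) ^ 20 ≤ 1 / 50000 := by norm_num
  linarith

/-- the algebra of `T - 1` -/
private theorem t_small {q κ e : ℂ} (hq : ‖q - 1‖ ≤ 1 / 1000) (hκ : ‖κ‖ ≤ 1 / 50000)
    (he : ‖κ / e‖ ≤ 1 / 1000 - 1 / 20000) : ‖q * (1 - κ) + κ / e - 1‖ ≤ 1 / 500 := by
  have h1 : q * (1 - κ) + κ / e - 1 = (q - 1) - (q - 1) * κ - κ + κ / e := by ring
  rw [h1]
  have h2 : ‖(q - 1) * κ‖ ≤ 1 / 1000 * (1 / 50000) := by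
    rw [norm_mul]
    exact mul_le_mul hq hκ (norm_nonneg _) (by norm_num)
  calc ‖(q - 1) - (q - 1) * κ - κ + κ / e‖ ≤ ‖(q - 1) - (q - 1) * κ - κ‖ + ‖κ / e‖ := norm_add_le _ _
    _ ≤ ‖(q - 1) - (q - 1) * κ‖ + ‖κ‖ + ‖κ / e‖ := by
        have := norm_sub_le ((q - 1) - (q - 1) * κ) κ
        linarith
    _ ≤ ‖q - 1‖ + ‖(q - 1) * κ‖ + ‖κ‖ + ‖κ / e‖ := by
        have := norm_sub_le (q - 1) ((q - 1) * κ)
        linarith
    _ ≤ 1 / 500 := by
        norm_num at *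
        linarith

private theorem log_small {T : ℂ} (h : ‖T - 1‖ ≤ 1 / 500) : T ∈ Complex.slitPlane ∧ ‖Complex.log T‖ ≤ 1 / 250 := by
  have h1 : T = 1 + (T - 1) := by ring
  constructor
  · rw [h1]
    exact Complex.mem_slitPlane_of_norm_lt_one (by linarith)
  · rw [h1]
    have h2 := Complex.norm_log_one_add_half_le_self (z := T - 1) (by linarith)
    refine h2.trans ?_
    linarith

private theorem lam_ex {η : ℂ → ℂ} {ρ C τ β α1 : ℝ} {vz x R : ℂ} (hρ : 0 < ρ) (hη : DifferentiableOn ℂ η (ball 0 ρ))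
    (hi : InjOn η (ball 0 ρ)) (hC1 : 1 ≤ C)
    (hC : ∀ u0 ∈ ball (0 : ℂ) (ρ / C), u0 ≠ 0 → ∀ z ∈ ball (0 : ℂ) (ρ / C), z ≠ 0 →
      ‖(η z - η 0) / (η u0 - η 0) / ((z - 0) / (u0 - 0)) - 1‖ ≤ C * (‖z - 0‖ + ‖u0 - 0‖) / ρ)
    (hτ0 : 0 < τ) (hτ : τ ≤ ρ / (2000 * C)) (hβ : 5 ≤ β) (hvz : ‖vz‖ < τ * Real.exp (-β)) (hvz0 : vz ≠ 0)
    (hR : R ≠ 0) (hy : η vz = x + R) (hα : α1 ≤ -20) (hκ : ‖η 0 - x‖ ≤ 20 * Real.exp α1 * ‖R‖) :
    ∃ lam : ℂ → ℂ, DifferentiableOn ℂ lam (Qr (2 * α1 + 20) (2 * β - 2) (17 * Real.pi)) ∧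
      (∀ ζ ∈ Qr (2 * α1 + 20) (2 * β - 2) (17 * Real.pi), lam ζ ∈ Qr α1 β (9 * Real.pi)) ∧
      (∀ ζ ∈ Qr (2 * α1 + 20) (2 * β - 2) (17 * Real.pi), x + R * Complex.exp (lam ζ) = η (vz * Complex.exp (ζ / 2)) ∧
        ‖vz * Complex.exp (ζ / 2)‖ < τ) ∧
      lam 0 = 0 ∧ ‖deriv lam 0‖ ≤ 6 / 10 ∧ InjOn lam (Qr (2 * α1 + 20) (2 * β - 2) (17 * Real.pi)) := by
  obtain ⟨Q, hQ⟩ : ∃ Q, Q = Qr (2 * α1 + 20) (2 * β - 2) (17 * Real.pi) := ⟨_, rfl⟩
  have hC0 : 0 < C := by linarith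
  have hτC : τ * (2000 * C) ≤ ρ := by
    rw [le_div_iff₀ (by positivity)] at hτ
    exact hτ
  have hτρC : τ < ρ / C := by
    rw [lt_div_iff₀ hC0]
    nlinarith
  have hτρ : τ < ρ := by nlinarith
  have heβ : Real.exp (-β) ≤ 1 := Real.exp_le_one_iff.2 (by linarith)
  have hvzτ : ‖vz‖ < τ := by nlinarith
  obtain ⟨κ, hκd⟩ : ∃ κ, κ = (η 0 - x) / R := ⟨_, rfl⟩
  have hRn : 0 < ‖R‖ := norm_pos_iff.2 hR
  have hκ1 : ‖κ‖ ≤ 20 * Real.exp α1 := by
    rw [hκd, norm_div, div_le_iff₀ hRn]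
    exact hκ
  have hκ2 : ‖κ‖ ≤ 1 / 50000 := by
    have h1 : Real.exp α1 ≤ Real.exp (-20) := Real.exp_le_exp.2 hα
    have h2 := e20
    linarith
  -- the point `V ζ`
  have hV : ∀ ζ ∈ Q, ‖vz * Complex.exp (ζ / 2)‖ < τ := by
    intro ζ hζ
    rw [hQ] at hζ
    obtain ⟨-, h2, -⟩ := hζ
    rw [norm_mul, Complex.norm_exp]
    have h3 : (ζ / 2).re = ζ.re / 2 := by
      simp
    rw [h3]
    have h4 : Real.exp (ζ.re / 2) ≤ Real.exp β := Real.exp_le_exp.2 (by linarith)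
    have h5 : Real.exp (-β) * Real.exp β = 1 := by
      rw [← Real.exp_add, neg_add_cancel, Real.exp_zero]
    calc ‖vz‖ * Real.exp (ζ.re / 2) < (τ * Real.exp (-β)) * Real.exp β := by
          refine mul_lt_mul hvz h4 (Real.exp_pos _) (by positivity)
      _ = τ := by rw [mul_assoc, h5, mul_one]
  have hV0 : ∀ ζ : ℂ, vz * Complex.exp (ζ / 2) ≠ 0 := fun ζ => mul_ne_zero hvz0 (Complex.exp_ne_zero _)
  obtain ⟨T, hT⟩ : ∃ T : ℂ → ℂ, T = fun ζ => (η (vz * Complex.exp (ζ / 2)) - x) / (R * Complex.exp (ζ / 2)) := ⟨_, rfl⟩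
  have hyc : η vz - η 0 = R * (1 - κ) := by
    rw [hy, hκd, mul_sub, mul_div_cancel₀ _ hR]
    ring
  have h1κ : (1 : ℂ) - κ ≠ 0 := by
    intro h0
    have h1 : κ = 1 := (sub_eq_zero.1 h0).symm
    rw [h1, norm_one] at hκ2
    norm_num at hκ2
  have hT1 : ∀ ζ ∈ Q, ‖T ζ - 1‖ ≤ 1 / 500 := by
    intro ζ hζ
    have hVζ := hV ζ hζ
    obtain ⟨e, he⟩ : ∃ e, e = Complex.exp (ζ / 2) := ⟨_, rfl⟩
    have he0 : e ≠ 0 := by
      rw [he]
      exact Complex.exp_ne_zero _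
    obtain ⟨q, hq⟩ : ∃ q, q = (η (vz * e) - η 0) / (η vz - η 0) / e := ⟨_, rfl⟩
    have hq1 : ‖q - 1‖ ≤ 1 / 1000 := by
      have h1 := hC vz (by rw [mem_ball_zero_iff]; linarith) hvz0 (vz * e)
        (by rw [mem_ball_zero_iff, he]; linarith) (by rw [he]; exact hV0 ζ)
      rw [sub_zero, sub_zero, mul_div_cancel_left₀ _ hvz0, ← hq] at h1
      refine h1.trans ?_
      rw [div_le_iff₀ hρ]
      have h2 : ‖vz * e‖ < τ := by
        rw [he]
        exact hVζ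
      nlinarith
    have hTq : T ζ = q * (1 - κ) + κ / e := by
      have h1 : η (vz * e) - η 0 = q * e * (R * (1 - κ)) := by
        rw [hq, hyc]
        field_simp
      have h2 : η 0 - x = κ * R := by
        rw [hκd, div_mul_cancel₀ _ hR]
      rw [hT]
      simp only []
      rw [← he]
      have h3 : η (vz * e) - x = q * e * (R * (1 - κ)) + κ * R := by
        rw [← h1, ← h2]
        ring
      rw [h3]
      field_simp
    rw [hTq]
    refine t_small hq1 hκ2 ?_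
    rw [norm_div, he, Complex.norm_exp]
    rw [hQ] at hζ
    obtain ⟨h1, -, -⟩ := hζ
    have h3 : (ζ / 2).re = ζ.re / 2 := by
      simp
    rw [h3, div_le_iff₀ (Real.exp_pos _)]
    have h4 : Real.exp α1 = Real.exp (-10) * Real.exp (α1 + 10) := by
      rw [← Real.exp_add]
      congr 1
      ring
    have h5 : Real.exp (α1 + 10) ≤ Real.exp (ζ.re / 2) := Real.exp_le_exp.2 (by linarith)
    have h6 := e10
    have h7 : 0 < Real.exp (α1 + 10) := Real.exp_pos _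
    have h8 : 20 * Real.exp α1 ≤ (1 / 1000 - 1 / 20000) * Real.exp (α1 + 10) := by
      rw [h4]
      nlinarith
    nlinarith
  have hTl := fun ζ hζ => log_small (hT1 ζ hζ)
  have hVd : DifferentiableOn ℂ (fun ζ : ℂ => η (vz * Complex.exp (ζ / 2))) Q := by
    refine hη.comp (Differentiable.differentiableOn (by fun_prop)) fun ζ hζ => ?_
    rw [mem_ball_zero_iff]
    exact (hV ζ hζ).trans hτρ
  have hTd : DifferentiableOn ℂ T Q := by
    rw [hT]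
    refine (hVd.sub_const _).div (Differentiable.differentiableOn (by fun_prop)) fun ζ _ => ?_
    exact mul_ne_zero hR (Complex.exp_ne_zero _)
  have hLd : DifferentiableOn ℂ (fun ζ => Complex.log (T ζ)) Q := hTd.clog fun ζ hζ => (hTl ζ hζ).1
  have hpi := Real.pi_gt_three
  obtain ⟨lam, hlam⟩ : ∃ lam : ℂ → ℂ, lam = fun ζ => ζ / 2 + Complex.log (T ζ) := ⟨_, rfl⟩
  have h0Q : ball (0 : ℂ) 2 ⊆ Q := by
    intro ζ hζ
    rw [mem_ball_zero_iff] at hζ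
    have h2 := (Complex.abs_re_le_norm ζ).trans_lt hζ
    have h3 := (Complex.abs_im_le_norm ζ).trans_lt hζ
    rw [abs_lt] at h2
    rw [hQ]
    exact ⟨by linarith, by linarith, by linarith⟩
  have hexp : ∀ ζ ∈ Q, x + R * Complex.exp (lam ζ) = η (vz * Complex.exp (ζ / 2)) := by
    intro ζ hζ
    have hT0 : T ζ ≠ 0 := Complex.slitPlane_ne_zero (hTl ζ hζ).1
    have h2 : R * Complex.exp (ζ / 2) ≠ 0 := mul_ne_zero hR (Complex.exp_ne_zero _)
    have h3 : T ζ * (R * Complex.exp (ζ / 2)) = η (vz * Complex.exp (ζ / 2)) - x := by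
      rw [hT]
      exact div_mul_cancel₀ _ h2
    rw [hlam]
    simp only []
    rw [Complex.exp_add, Complex.exp_log hT0]
    linear_combination h3
  have hld : ∀ ζ ∈ Q, ‖lam ζ - ζ / 2‖ ≤ 1 / 250 := by
    intro ζ hζ
    rw [hlam]
    simp only [add_sub_cancel_left]
    exact (hTl ζ hζ).2
  rw [← hQ]
  refine ⟨lam, ?_, ?_, ?_, ?_, ?_, ?_⟩
  · rw [hlam]
    exact (Differentiable.differentiableOn (by fun_prop)).add hLd
  · intro ζ hζ
    rw [hlam]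
    have h1 := (hTl ζ hζ).2
    have h2 := (Complex.abs_re_le_norm (Complex.log (T ζ))).trans h1
    have h3 := (Complex.abs_im_le_norm (Complex.log (T ζ))).trans h1
    rw [abs_le] at h2 h3
    rw [hQ] at hζ
    obtain ⟨h4, h5, h6⟩ := hζ
    rw [abs_lt] at h6
    have e1 : (ζ / 2).re = ζ.re / 2 := by simp
    have e2 : (ζ / 2).im = ζ.im / 2 := by simp
    refine ⟨?_, ?_, ?_⟩
    · show α1 < (ζ / 2 + Complex.log (T ζ)).re
      rw [Complex.add_re, e1]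
      linarith
    · show (ζ / 2 + Complex.log (T ζ)).re < β
      rw [Complex.add_re, e1]
      linarith
    · show |(ζ / 2 + Complex.log (T ζ)).im| < 9 * Real.pi
      rw [Complex.add_im, e2, abs_lt]
      constructor <;> linarith
  · exact fun ζ hζ => ⟨hexp ζ hζ, hV ζ hζ⟩
  · have h1 : T 0 = 1 := by
      rw [hT]
      simp only [zero_div, Complex.exp_zero, mul_one]
      rw [hy, add_sub_cancel_left, div_self hR]
    rw [hlam]
    simp only [zero_div, zero_add, h1, Complex.log_one]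
  · have h1 : ‖deriv (fun ζ => Complex.log (T ζ)) 0‖ ≤ (1 / 250) / 1 := by
      refine Complex.norm_deriv_le_of_forall_mem_sphere_norm_le one_pos ?_ ?_
      · refine DifferentiableOn.diffContOnCl ?_
        refine hLd.mono ?_
        rw [closure_ball _ one_ne_zero]
        exact (closedBall_subset_ball (by norm_num)).trans h0Q
      · intro ζ hζ
        exact (hTl ζ (h0Q (by
          rw [mem_ball_zero_iff]
          rw [mem_sphere_zero_iff_norm] at hζ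
          linarith))).2
    have h2 : HasDerivAt (fun ζ => Complex.log (T ζ)) (deriv (fun ζ => Complex.log (T ζ)) 0) 0 :=
      (hLd.differentiableAt (Filter.mem_of_superset (isOpen_ball.mem_nhds (mem_ball_self two_pos)) h0Q)).hasDerivAt
    have h3 : HasDerivAt (fun ζ : ℂ => ζ / 2) (1 / 2) 0 := (hasDerivAt_id (0 : ℂ)).div_const 2
    have h4 := (h3.add h2).deriv
    have h5 : lam = (fun ζ : ℂ => ζ / 2) + fun ζ => Complex.log (T ζ) := by
      rw [hlam]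
      rfl
    rw [h5, h4]
    refine (norm_add_le _ _).trans ?_
    have h6 : ‖(1 / 2 : ℂ)‖ = 1 / 2 := by norm_num
    rw [h6]
    linarith
  · intro ζ hζ ζ' hζ' hl
    have h1 : vz * Complex.exp (ζ / 2) = vz * Complex.exp (ζ' / 2) := by
      refine hi ?_ ?_ ?_
      · rw [mem_ball_zero_iff]
        exact (hV ζ hζ).trans hτρ
      · rw [mem_ball_zero_iff]
        exact (hV ζ' hζ').trans hτρ
      · rw [← hexp ζ hζ, ← hexp ζ' hζ', hl]
    have h2 := mul_left_cancel₀ hvz0 h1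
    rw [Complex.exp_eq_exp_iff_exists_int] at h2
    obtain ⟨n, hn⟩ := h2
    have h3 : ζ / 2 - ζ' / 2 = (lam ζ' - ζ' / 2) - (lam ζ - ζ / 2) := by
      rw [hl]
      ring
    have h4 : ‖ζ / 2 - ζ' / 2‖ ≤ 1 / 250 + 1 / 250 := by
      rw [h3]
      exact (norm_sub_le _ _).trans (add_le_add (hld ζ' hζ') (hld ζ hζ))
    have h5 : ζ / 2 - ζ' / 2 = n * (2 * Real.pi * Complex.I) := by
      rw [hn]
      ring
    have h6 : n = 0 := by
      by_contra hn0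
      have h7 : (1 : ℝ) ≤ |(n : ℝ)| := by
        have := Int.one_le_abs hn0
        exact_mod_cast this
      rw [h5, norm_mul, norm_mul, norm_mul, Complex.norm_I, Complex.norm_real, Real.norm_of_nonneg Real.pi_pos.le,
        Complex.norm_intCast] at h4
      have h8 : ‖(2 : ℂ)‖ = 2 := by norm_num
      rw [h8] at h4
      nlinarith
    rw [h6] at hn
    have h7 : ζ / 2 = ζ' / 2 := by
      rw [hn]
      simp
    have h8 : ζ = 2 * (ζ / 2) := by ring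
    rw [h8, h7]
    ring

private theorem qr_open (α β L : ℝ) : IsOpen (Qr α β L) := by
  have h1 : Qr α β L = {ζ : ℂ | α < ζ.re} ∩ ({ζ : ℂ | ζ.re < β} ∩ {ζ : ℂ | |ζ.im| < L}) := rfl
  rw [h1]
  exact (isOpen_lt continuous_const Complex.continuous_re).inter
    ((isOpen_lt Complex.continuous_re continuous_const).inter
      (isOpen_lt (continuous_abs.comp Complex.continuous_im) continuous_const))

private theorem fin_lb {S : Set ℂ} (hS : S.Finite) {g : ℂ → ℝ} (hg : ∀ c ∈ S, 0 < g c) :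
    ∃ m : ℝ, 0 < m ∧ ∀ c ∈ S, m ≤ g c := by
  by_cases hne : S.Nonempty
  · obtain ⟨a, ha, hmin⟩ := Set.exists_min_image S g hS hne
    exact ⟨g a, hg a ha, hmin⟩
  · rw [Set.not_nonempty_iff_eq_empty] at hne
    subst hne
    exact ⟨1, one_pos, fun c hc => absurd hc (Set.notMem_empty c)⟩

/-- passage through a critical point -/
theorem pass (h : PS f U J P Cr δ η ρ) (β : ℝ) (hβ : 5 ≤ β) : ∃ δ3 : ℝ, 0 < δ3 ∧
    ∀ {z : ℂ} {l : ℕ} {x R c : ℂ} {α1 : ℝ} {G : ℂ → ℂ},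
    ST f U J P E δ z l x R α1 β (9 * Real.pi) G → α1 ≤ -20 → c ∈ Cr → ‖c - x‖ ≤ 20 * Real.exp α1 * ‖R‖ → ‖R‖ < δ3 →
    ∃ G' : ℂ → ℂ, ST f U J P E δ z (l + 1) (f c) (f^[l + 1] z - f c) (2 * α1 + 20) (2 * β - 2) (17 * Real.pi) G' ∧
      ‖deriv G' 0‖ ≤ 6 / 10 * ‖deriv G 0‖ ∧
      (∀ w ∈ ball c (‖f^[l] z - c‖ / 2), w ∈ U ∧ f w ∈ ball (f c) (26 / 100 * ‖f^[l + 1] z - f c‖)) := by
  obtain ⟨C, hC1, hC⟩ := aff_q
  have hδ := h.hδ
  have hρ := h.hρ
  have hC0 : 0 < C := by linarith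
  obtain ⟨τ, hτ0, hτ1, hτ2, hτ3⟩ : ∃ τ : ℝ, 0 < τ ∧ τ ≤ ρ / (2000 * C) ∧ τ ≤ 1 ∧ τ ≤ δ :=
    ⟨min (min (ρ / (2000 * C)) 1) δ, lt_min (lt_min (by positivity) one_pos) hδ,
      (min_le_left _ _).trans (min_le_left _ _), (min_le_left _ _).trans (min_le_right _ _), min_le_right _ _⟩
  have hτC : τ * (2000 * C) ≤ ρ := by
    rw [le_div_iff₀ (by positivity)] at hτ1
    exact hτ1
  have hτρC : τ < ρ / C := by
    rw [lt_div_iff₀ hC0]
    nlinarith
  have hτρ : τ < ρ := by nlinarith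
  have heβ : Real.exp (-β) ≤ 1 := Real.exp_le_one_iff.2 (by linarith)
  obtain ⟨ε0, hε0⟩ : ∃ ε0, ε0 = τ * Real.exp (-β) := ⟨_, rfl⟩
  have hε0p : 0 < ε0 := by
    rw [hε0]
    positivity
  have hε0τ : ε0 ≤ τ := by
    rw [hε0]
    nlinarith
  obtain ⟨m, hm0, hm⟩ := fin_lb h.Cf (g := fun c => ‖deriv (η c) 0‖) fun c hc =>
    Pool.Agent.H80.AJ.deriv_ne hρ (h.nf c hc).1 (h.nf c hc).2.1 (mem_closedBall_self (by positivity))
  refine ⟨ε0 * m / 64, by positivity, ?_⟩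
  intro z l x R c α1 G hs hα hc hcx hR
  obtain ⟨hη, hi, hη0, hηv⟩ := h.nf c hc
  have hpi := Real.pi_gt_three
  have hRv := st_val hs (by linarith) (by linarith) (by positivity)
  have hRn : 0 < ‖R‖ := norm_pos_iff.2 hs.R0
  have hcx2 : ‖c - x‖ ≤ 1 / 50000 * ‖R‖ := by
    refine hcx.trans (mul_le_mul_of_nonneg_right ?_ hRn.le)
    have h1 : Real.exp α1 ≤ Real.exp (-20) := Real.exp_le_exp.2 hα
    have h2 := e20
    linarith
  have hcov : ball (η c 0) (ε0 * ‖deriv (η c) 0‖ / 16) ⊆ η c '' ball 0 ε0 :=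
    Pool.Agent.H80.AJ.univ_cover hε0p (hη.mono (ball_subset_ball (hε0τ.trans hτρ.le)))
      (hi.mono (ball_subset_ball (hε0τ.trans hτρ.le)))
  rw [hη0] at hcov
  have hmc : ε0 * m ≤ ε0 * ‖deriv (η c) 0‖ := mul_le_mul_of_nonneg_left (hm c hc) hε0p.le
  have hyc : f^[l] z - c = R - (c - x) := by
    rw [hRv]
    ring
  have hyc1 : ‖f^[l] z - c‖ ≤ 2 * ‖R‖ := by
    rw [hyc]
    refine (norm_sub_le _ _).trans ?_
    linarith
  have hyc2 : 1 / 2 * ‖R‖ ≤ ‖f^[l] z - c‖ := by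
    rw [hyc]
    have := norm_sub_norm_le R (c - x)
    linarith
  obtain ⟨vz, hvz, hvy⟩ := hcov (show f^[l] z ∈ ball c (ε0 * ‖deriv (η c) 0‖ / 16) by
    rw [mem_ball, dist_eq_norm]
    linarith)
  rw [mem_ball_zero_iff] at hvz
  have hvz0 : vz ≠ 0 := by
    intro h0
    rw [h0, hη0] at hvy
    rw [← hvy, sub_self, norm_zero] at hyc2
    linarith
  have hvzτ : ‖vz‖ < τ := hvz.trans_le hε0τ
  have hvzn : 0 < ‖vz‖ := norm_pos_iff.2 hvz0
  have hyR : η c vz = x + R := by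
    rw [hvy, hRv]
    ring
  obtain ⟨lam, hl1, hl2, hl3, hl4, hl5, hl6⟩ := lam_ex hρ hη hi hC1 (hC (η c) 0 ρ hρ hη hi) hτ0 hτ1 hβ
    (by rw [← hε0]; exact hvz) hvz0 hs.R0 hyR hα (by rw [hη0]; exact hcx)
  have hR' : f^[l + 1] z - f c = vz ^ 2 := by
    rw [Function.iterate_succ_apply', ← hvy, (hηv vz (by rw [mem_ball_zero_iff]; linarith)).2]
    ring
  refine ⟨G ∘ lam, ⟨hs.zE, h.CP c hc, ?_, ?_, ?_, ?_, ?_⟩, ?_, ?_⟩
  · rw [hR']
    exact pow_ne_zero 2 hvz0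
  · exact hs.diff.comp hl1 fun ζ hζ => hl2 ζ hζ
  · exact hs.inj.comp hl6 fun ζ hζ => hl2 ζ hζ
  · intro ζ hζ
    obtain ⟨h1, h2⟩ := hs.val (lam ζ) (hl2 ζ hζ)
    obtain ⟨h3, h4⟩ := hl3 ζ hζ
    rw [h3] at h2
    obtain ⟨h5, h6⟩ := hηv (vz * Complex.exp (ζ / 2)) (by rw [mem_ball_zero_iff]; linarith)
    have h7 : (vz * Complex.exp (ζ / 2)) ^ 2 = vz ^ 2 * Complex.exp ζ := by
      rw [mul_pow, ← Complex.exp_nat_mul]
      congr 2
      push_cast
      ring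
    have h8 : f^[l + 1] ((G ∘ lam) ζ) = f c + vz ^ 2 * Complex.exp ζ := by
      rw [Function.iterate_succ_apply', Function.comp_apply, h2, h6, h7]
    refine ⟨⟨fun j hj => ?_, ?_⟩, ?_⟩
    · rcases Nat.lt_succ_iff_lt_or_eq.1 hj with hj | rfl
      · exact h1.1 j hj
      · rw [Function.comp_apply, h2]
        exact h5
    · rw [h8, mem_thickening_iff]
      refine ⟨f c, h.PJ (h.CP c hc), ?_⟩
      rw [dist_eq_norm, add_sub_cancel_left, ← h7, norm_pow]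
      have h9 : 0 ≤ ‖vz * Complex.exp (ζ / 2)‖ := norm_nonneg _
      nlinarith
    · rw [h8, hR']
  · rw [Function.comp_apply, hl4]
    exact hs.base
  · have h0Q : (0 : ℂ) ∈ Qr α1 β (9 * Real.pi) := ⟨by rw [Complex.zero_re]; linarith, by rw [Complex.zero_re]; linarith,
      by rw [Complex.zero_im, abs_zero]; positivity⟩
    have h0Q' : (0 : ℂ) ∈ Qr (2 * α1 + 20) (2 * β - 2) (17 * Real.pi) :=
      ⟨by rw [Complex.zero_re]; linarith, by rw [Complex.zero_re]; linarith,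
        by rw [Complex.zero_im, abs_zero]; positivity⟩
    have h1 : HasDerivAt G (deriv G 0) (lam 0) := by
      rw [hl4]
      exact (hs.diff.differentiableAt ((qr_open _ _ _).mem_nhds h0Q)).hasDerivAt
    have h2 : HasDerivAt lam (deriv lam 0) 0 :=
      (hl1.differentiableAt ((qr_open _ _ _).mem_nhds h0Q')).hasDerivAt
    rw [(h1.comp 0 h2).deriv, norm_mul, mul_comm]
    exact mul_le_mul_of_nonneg_right hl5 (norm_nonneg _)
  · intro w hw
    rw [mem_ball, dist_eq_norm] at hw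
    obtain ⟨v, hv, rfl⟩ := hcov (show w ∈ ball c (ε0 * ‖deriv (η c) 0‖ / 16) by
      rw [mem_ball, dist_eq_norm]
      linarith)
    rw [mem_ball_zero_iff] at hv
    obtain ⟨h5, h6⟩ := hηv v (by rw [mem_ball_zero_iff]; linarith)
    refine ⟨h5, ?_⟩
    rw [h6, hR', mem_ball, dist_eq_norm, add_sub_cancel_left, norm_pow, norm_pow]
    rcases eq_or_ne v 0 with hv0 | hv0
    · rw [hv0, norm_zero, zero_pow two_ne_zero]
      exact mul_pos (by norm_num) (pow_pos hvzn 2)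
    · have h1 := hC (η c) 0 ρ hρ hη hi vz (by rw [mem_ball_zero_iff]; linarith) hvz0 v
        (by rw [mem_ball_zero_iff]; linarith) hv0
      rw [sub_zero, sub_zero, hη0] at h1
      obtain ⟨q, hq⟩ : ∃ q, q = (η c v - c) / (η c vz - c) / (v / vz) := ⟨_, rfl⟩
      rw [← hq] at h1
      have h2 : ‖q - 1‖ ≤ 1 / 1000 := by
        refine h1.trans ?_
        rw [div_le_iff₀ hρ]
        nlinarith
      have h3 : 999 / 1000 ≤ ‖q‖ := by
        have h4 := norm_sub_norm_le (1 : ℂ) (1 - q)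
        rw [norm_one, sub_sub_cancel, norm_sub_rev] at h4
        linarith
      have hyn : 0 < ‖f^[l] z - c‖ := by linarith
      have hvn : 0 < ‖v‖ := norm_pos_iff.2 hv0
      have h4 : ‖q‖ * (‖v‖ / ‖vz‖) < 1 / 2 := by
        have h7 : q * (v / vz) = (η c v - c) / (η c vz - c) := by
          rw [hq]
          exact div_mul_cancel₀ _ (div_ne_zero hv0 hvz0)
        rw [← norm_div, ← norm_mul, h7, norm_div, hvy, div_lt_iff₀ hyn]
        linarith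
      have h7 : ‖v‖ / ‖vz‖ < 501 / 1000 := by
        by_contra hcon
        push Not at hcon
        nlinarith
      rw [div_lt_iff₀ hvzn] at h7
      nlinarith

end Pool.Agent.H56.UD
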