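import Pool.Agent.H56.UD.MB
import Pool.Agent.H56.UD.ME
import Pool.Agent.H56.UD.MP

/-!
# THEOREM UD, chapter M: one cycle of the machine

`cycle`: PROOF. Constants: `K` large (`K ≥ 10 ^ 4 CA`), `β0` from `chain`, `β = max β0 10`, `α0` from `chain`, `α = min α0 (-100)`, so `2 (α + 1/10) + 20 ≤ α`, `ε` below those of `chain`, `enc` (for `α + 1/10`, `β`), `st_small` for `δ'` = the `δ3` of `pass` and small against `δ1`. Given the base state at time `i`.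
(1) An encounter occurs: otherwise for all `j` the branch `g_j` on `ball (f^[j] x) (K ‖R_j‖)` with `g_j (f^[j] x) = x`, `g_j (f^[i+j] z) = f^[i] z = x + R`, so `‖deriv g_j‖ ‖R_j‖ ≥ ‖R‖ / 2` (`aff`) and `ball x (‖R‖) ⊆ g_j '' ball (f^[j] x) (K ‖R_j‖)` (`univ_cover`, `K ≥ 64`), so `f^[j] '' ball x ‖R‖ ⊆ ball (f^[j] x) (K ‖R_j‖)`, `K ‖R_j‖ < K δ'` (`st_small` for the states): contradiction with `PS.leo` and `Jt` (`K δ'` less than half of the distance of two points of `J`).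
(2) Take the least `j` with a critical point `c`, `‖c - x_j‖ < ‖R_j‖ exp β / 3`. `enc`: `‖c - x_j‖ ≤ 20 exp (α + 1/10) ‖R_j‖`. `pass` with `l = i + j`: the new base state (restrict: `st_mono`). `‖deriv‖ ≤ 0.6 * 1.01 * ..`.
(3) Inclusion: for `w ∈ ball x (26/100 ‖R‖)`: `w = g_j u` with `‖u - x_j‖ ≤ 27/100 ‖R_j‖` (`aff_q`), so `f^[j] w = u ∈ ball c (3/10 ‖R_c‖)`, `R_c = f^[i+j] z - c`, `‖R_c - R_j‖ ≤ 1/1000 ‖R_j‖`.
-/

set_option autoImplicit false

open Filter Topology Metric Set MeasureTheory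

namespace Pool.Agent.H56.UD

variable {f : ℂ → ℂ} {U J P Cr E : Set ℂ} {δ b0 : ℝ} {η : ℂ → ℂ → ℂ} {ρ : ℝ} {X hh μ : ℂ → ℂ}

theorem tb_inj {j : ℕ} {x x' : ℂ} {r' : ℝ} {g : ℂ → ℂ} (ht : Tb f U J δ j x x' r' g) : InjOn g (ball x' r') := by
  intro u hu v hv huv
  rw [← (ht.val u hu).2, ← (ht.val v hv).2, huv]

/-- a branch over a very large disc is almost affine -/
theorem cyc_key {CA : ℝ} (hCA1 : 1 ≤ CA) (hCA : ∀ (g : ℂ → ℂ) (c : ℂ) (R : ℝ), 0 < R → DifferentiableOn ℂ g (ball c R) →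
    InjOn g (ball c R) → ∀ z ∈ ball c (R / 4),
      ‖g z - g c - deriv g c * (z - c)‖ ≤ CA * ‖deriv g c‖ * ‖z - c‖ ^ 2 / R ∧
      ‖deriv g z - deriv g c‖ ≤ CA * ‖deriv g c‖ * ‖z - c‖ / R) {j : ℕ} {x x' z' R : ℂ} {g : ℂ → ℂ}
    (hz : z' - x' ≠ 0) (ht : Tb f U J δ j x x' (10000 * CA * ‖z' - x'‖) g) (hg : g z' = x + R) :
    (∀ w ∈ ball x ‖R‖, f^[j] w ∈ ball x' (10000 * CA * ‖z' - x'‖)) ∧
    (∀ w ∈ ball x (26 / 100 * ‖R‖), ‖f^[j] w - x'‖ ≤ 262 / 1000 * ‖z' - x'‖) := by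
  have hR' : 0 < ‖z' - x'‖ := norm_pos_iff.2 hz
  set r : ℝ := ‖z' - x'‖ with hr
  have hCA0 : 0 < CA := by linarith
  have hK : 0 < 10000 * CA * r := by positivity
  have hi := tb_inj ht
  have hCr : r ≤ CA * r := by nlinarith
  set D : ℝ := ‖deriv g x'‖ with hD
  have hD0 : 0 < D := Pool.Agent.H80.AJ.deriv_ne hK ht.diff hi (mem_closedBall_self (by positivity))
  -- affine at z'
  have h1 := (hCA g x' (10000 * CA * r) hK ht.diff hi z' (by
    rw [mem_ball, dist_eq_norm, ← hr]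
    linarith)).1
  rw [ht.cen, hg, ← hr, ← hD] at h1
  have e1 : CA * D * r ^ 2 / (10000 * CA * r) = D * r / 10000 := by
    field_simp
  rw [e1, add_sub_cancel_left] at h1
  have h2 : ‖R‖ ≤ 10001 / 10000 * (D * r) := by
    have := norm_le_norm_add_norm_sub' R (deriv g x' * (z' - x'))
    rw [norm_mul, ← hD, ← hr] at this
    linarith
  constructor
  · intro w hw
    have hcov := Pool.Agent.H80.AJ.univ_cover hK ht.diff hi
    rw [ht.cen, ← hD] at hcov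
    obtain ⟨u, hu, rfl⟩ := hcov (ball_subset_ball (by nlinarith) hw)
    rw [(ht.val u hu).2]
    exact hu
  · intro w hw
    have hsub : ball x' (5 * r) ⊆ ball x' (10000 * CA * r) := ball_subset_ball (by nlinarith)
    have hcov := Pool.Agent.H80.AJ.univ_cover (by positivity : 0 < 5 * r) (ht.diff.mono hsub) (hi.mono hsub)
    rw [ht.cen, ← hD] at hcov
    obtain ⟨u, hu, rfl⟩ := hcov (ball_subset_ball (by nlinarith) hw)
    rw [(ht.val u (hsub hu)).2]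
    have hu5 : ‖u - x'‖ < 5 * r := by
      rwa [mem_ball, dist_eq_norm] at hu
    have h3 := (hCA g x' (10000 * CA * r) hK ht.diff hi u (by
      rw [mem_ball, dist_eq_norm]
      linarith)).1
    rw [ht.cen, ← hD] at h3
    have e2 : CA * D * ‖u - x'‖ ^ 2 / (10000 * CA * r) = D * ‖u - x'‖ * (‖u - x'‖ / r) / 10000 := by
      field_simp
    rw [e2] at h3
    have h4 : ‖u - x'‖ / r ≤ 5 := by
      rw [div_le_iff₀ hR']
      exact hu5.le
    have h5 : D * ‖u - x'‖ * (‖u - x'‖ / r) ≤ D * ‖u - x'‖ * 5 := mul_le_mul_of_nonneg_left h4 (by positivity)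
    have h6 : D * ‖u - x'‖ ≤ ‖g u - x‖ + ‖g u - x - deriv g x' * (u - x')‖ := by
      have := norm_le_norm_add_norm_sub' (deriv g x' * (u - x')) (g u - x)
      rw [norm_mul, ← hD, norm_sub_rev (deriv g x' * (u - x'))] at this
      exact this
    have h7 : ‖g u - x‖ < 26 / 100 * ‖R‖ := by
      rwa [mem_ball, dist_eq_norm] at hw
    have h8 : D * ‖u - x'‖ ≤ D * (262 / 1000 * r) := by
      nlinarith
    exact le_of_mul_le_mul_left h8 hD0

theorem exp_small {a : ℝ} (ha : a ≤ -99) : 20 * Real.exp a ≤ 1 / 1000 := by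
  have h1 : Real.exp a ≤ Real.exp (-99) := Real.exp_le_exp.2 ha
  have h2 : Real.exp (-99) = (Real.exp 1)⁻¹ ^ 99 := by
    rw [← Real.exp_neg, ← Real.exp_nat_mul]
    norm_num
  have h3 : (Real.exp 1)⁻¹ ≤ 1 / 2 := by
    have := Real.exp_one_gt_d9
    rw [one_div]
    exact inv_anti₀ (by norm_num) (by linarith)
  have h4 : (Real.exp 1)⁻¹ ^ 99 ≤ (1 / 2 : ℝ) ^ 99 := pow_le_pow_left₀ (by positivity) h3 99
  have h5 : (1 / 2 : ℝ) ^ 99 ≤ 1 / 20000 := by norm_num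
  linarith

theorem log_ten_le : Real.log 10 ≤ 4 := by
  have h1 : Real.log 10 ≤ Real.log 16 := Real.log_le_log (by norm_num) (by norm_num)
  have h2 : Real.log 16 = 4 * Real.log 2 := by
    rw [show (16 : ℝ) = 2 ^ 4 by norm_num, Real.log_pow]
    norm_num
  have := Real.log_two_lt_d9
  linarith

/-- one cycle of the machine -/
theorem cycle (h : PS f U J P Cr δ η ρ) (hX : FX f U J E δ X hh μ b0) {θ C r0 : ℝ} (hθ : 0 < θ) (hθ1 : θ < 1) (hC : 1 ≤ C)
    (hr0 : 0 < r0) (hU : UG θ C r0 P) {δ' : ℝ} (hδ' : 0 < δ') :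
    ∃ α ε : ℝ, α ≤ -5 ∧ 0 < ε ∧ ∀ {z : ℂ} {i : ℕ} {x R : ℂ} {G : ℂ → ℂ},
      ST f U J P E δ z i x R α (Real.log 10 + 1) (10 * Real.pi) G → ‖deriv G 0‖ < ε →
      ∃ (j : ℕ) (c : ℂ) (G' : ℂ → ℂ), c ∈ Cr ∧
        ST f U J P E δ z (i + j + 1) (f c) (f^[i + j + 1] z - f c) α (Real.log 10 + 1) (10 * Real.pi) G' ∧
        ‖deriv G' 0‖ < ε ∧ 0 < ‖f^[i + j] z - c‖ ∧ ‖f^[i + j] z - c‖ < δ' ∧
        (∀ w ∈ ball x (26 / 100 * ‖R‖), f^[j] w ∈ ball c (3 / 10 * ‖f^[i + j] z - c‖)) ∧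
        (∀ w ∈ ball c (‖f^[i + j] z - c‖ / 2), f w ∈ ball (f c) (26 / 100 * ‖f^[i + j + 1] z - f c‖)) := by
  obtain ⟨CA, hCA1, hCA⟩ := aff
  have hCA0 : 0 < CA := by linarith
  obtain ⟨β0, hβ0⟩ := chain h hX hθ hθ1 hC hr0 hU (10000 * CA) (by linarith)
  obtain ⟨α0, hα0⟩ := hβ0 (max β0 10) (le_max_left _ _)
  obtain ⟨ε1, hε1, hch⟩ := hα0 (min α0 (-100)) (min_le_left _ _)
  have hβ : 10 ≤ max β0 10 := le_max_right _ _
  have hα : min α0 (-100) ≤ -100 := min_le_right _ _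
  generalize max β0 10 = β at hch hβ
  generalize min α0 (-100) = α at hch hα
  clear hβ0 hα0
  obtain ⟨ε2, hε2, hen⟩ := enc h hX (α := α + 1 / 10) (β := β) (by linarith) (by linarith)
  obtain ⟨δ3, hδ3, hpa⟩ := pass h β (by linarith)
  obtain ⟨y1, hy1, y2, hy2, hy⟩ := h.Jt
  have hD : 0 < dist y1 y2 := dist_pos.2 hy
  obtain ⟨ε3, hε3, hsm⟩ := st_small h hX (δ' := min (min (δ' / 2) δ3) (dist y1 y2 / (2 * (10000 * CA)))) (by positivity)
  have hpi := Real.pi_gt_three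
  have hlt := log_ten_le
  have hlp : 0 < Real.log 10 := Real.log_pos (by norm_num)
  refine ⟨α, min (min ε1 ε2) ε3 / 2, by linarith, by positivity, ?_⟩
  intro z i x R G hs hG
  have m1 : min (min ε1 ε2) ε3 ≤ ε1 := (min_le_left _ _).trans (min_le_left _ _)
  have m2 : min (min ε1 ε2) ε3 ≤ ε2 := (min_le_left _ _).trans (min_le_right _ _)
  have m3 : min (min ε1 ε2) ε3 ≤ ε3 := min_le_right _ _
  have mp : 0 < min (min ε1 ε2) ε3 := by positivity
  generalize min (min ε1 ε2) ε3 = ε at hG m1 m2 m3 mp ⊢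
  have hRv := st_val hs (by linarith) (by linarith) (by positivity)
  have hgz : f^[i] z = x + R := by rw [hRv]; ring
  -- (1) an encounter occurs
  have hex : ∃ j : ℕ, ∃ c ∈ Cr, ‖c - f^[j] x‖ < ‖f^[i + j] z - f^[j] x‖ * Real.exp β / 3 := by
    by_contra hcon
    push Not at hcon
    obtain ⟨N, hN⟩ := h.leo (ball x ‖R‖) isOpen_ball ⟨x, mem_ball_self (norm_pos_iff.2 hs.R0), h.PJ hs.xP⟩
    obtain ⟨g, G', ht, hg, hs', hd'⟩ := hch hs (by linarith) N (fun m _ c hc => hcon m c hc)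
    have hk := (cyc_key hCA1 hCA hs'.R0 ht (hg.trans hgz)).1
    have hsm' := hsm hs' (by linarith) (by linarith) (by linarith) (by linarith [norm_nonneg (deriv G 0)])
    have h1 : ‖f^[i + N] z - f^[N] x‖ < dist y1 y2 / (2 * (10000 * CA)) := hsm'.trans_le (min_le_right _ _)
    obtain ⟨w1, hw1, hw1'⟩ := hN N le_rfl hy1
    obtain ⟨w2, hw2, hw2'⟩ := hN N le_rfl hy2
    have k1 := hk w1 hw1.1
    have k2 := hk w2 hw2.1
    rw [hw1', mem_ball] at k1
    rw [hw2', mem_ball] at k2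
    have k3 := dist_triangle_right y1 y2 (f^[N] x)
    rw [lt_div_iff₀ (by positivity)] at h1
    linarith
  classical
  obtain ⟨c, hc, hcj⟩ := Nat.find_spec hex
  have hmin : ∀ m < Nat.find hex, ∀ c ∈ Cr, ‖f^[i + m] z - f^[m] x‖ * Real.exp β / 3 ≤ ‖c - f^[m] x‖ := by
    intro m hm c hc
    by_contra hcon
    exact Nat.find_min hex hm ⟨c, hc, not_le.1 hcon⟩
  generalize Nat.find hex = j at hcj hmin
  obtain ⟨g, G1, ht, hg, hs1, hd1⟩ := hch hs (by linarith) j hmin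
  have hG0 := norm_nonneg (deriv G 0)
  have hcx := hen hs1 (by linarith) c hc hcj
  have hsm' := hsm hs1 (by linarith) (by linarith) (by linarith) (by linarith)
  have hR1 : ‖f^[i + j] z - f^[j] x‖ < δ' / 2 := hsm'.trans_le ((min_le_left _ _).trans (min_le_left _ _))
  have hR3 : ‖f^[i + j] z - f^[j] x‖ < δ3 := hsm'.trans_le ((min_le_left _ _).trans (min_le_right _ _))
  obtain ⟨G2, hs2, hd2, htrap⟩ := hpa hs1 (by linarith) hc hcx hR3
  have hRp : 0 < ‖f^[i + j] z - f^[j] x‖ := norm_pos_iff.2 hs1.R0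
  have hcx2 : ‖c - f^[j] x‖ ≤ 1 / 1000 * ‖f^[i + j] z - f^[j] x‖ :=
    hcx.trans (mul_le_mul_of_nonneg_right (exp_small (by linarith)) hRp.le)
  have hlow : 999 / 1000 * ‖f^[i + j] z - f^[j] x‖ ≤ ‖f^[i + j] z - c‖ := by
    have := norm_le_norm_add_norm_sub' (f^[i + j] z - f^[j] x) (f^[i + j] z - c)
    rw [show f^[i + j] z - f^[j] x - (f^[i + j] z - c) = c - f^[j] x by ring] at this
    linarith
  have hup : ‖f^[i + j] z - c‖ ≤ 1001 / 1000 * ‖f^[i + j] z - f^[j] x‖ := by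
    have := norm_sub_le (f^[i + j] z - f^[j] x) (c - f^[j] x)
    rw [show f^[i + j] z - f^[j] x - (c - f^[j] x) = f^[i + j] z - c by ring] at this
    linarith
  have hk := (cyc_key hCA1 hCA hs1.R0 ht (hg.trans hgz)).2
  refine ⟨j, c, G2, hc, st_mono hs2 (by linarith) (by linarith) (by linarith), by linarith, by linarith, by linarith,
    ?_, fun w hw => (htrap w hw).2⟩
  intro w hw
  have h1 := hk w hw
  rw [mem_ball, dist_eq_norm]
  have h2 := norm_sub_le (f^[j] w - f^[j] x) (c - f^[j] x)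
  rw [show f^[j] w - f^[j] x - (c - f^[j] x) = f^[j] w - c by ring] at h2
  linarith

end Pool.Agent.H56.UD
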