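import Pool.Agent.H56.UD.RB
import Pool.Agent.H56.UD.BI

/-!
# THEOREM UD, chapter R: the points of a limit of lifts of the exponential are good

PROOFS: see `RB`.
-/

set_option autoImplicit false

open Filter Topology Metric Set MeasureTheory

namespace Pool.Agent.H56.UD

variable {𝒰 : Ultrafilter ℕ} {F : ℕ → ℂ → ℂ} {D P : ℕ → Set ℂ} {θ C β L : ℝ} {α : ℕ → ℝ} {g : ℕ → ℂ → ℂ} {g' : ℂ → ℂ}

private theorem ql_open (β L : ℝ) : IsOpen (Ql β L) :=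
  (isOpen_lt Complex.continuous_re continuous_const).inter
    (isOpen_lt Complex.continuous_im.abs continuous_const)

private theorem ql_convex (β L : ℝ) : Convex ℝ (Ql β L) := by
  have h1 : Ql β L = {ζ : ℂ | ζ.re < β} ∩ {ζ : ℂ | ζ.im < L} ∩ {ζ : ℂ | -L < ζ.im} := by
    ext ζ
    constructor
    · intro h
      exact ⟨⟨h.1, (abs_lt.1 h.2).2⟩, (abs_lt.1 h.2).1⟩
    · intro h
      exact ⟨h.1.1, abs_lt.2 ⟨h.2, h.1.2⟩⟩
  rw [h1]
  exact ((convex_halfSpace_re_lt β).inter (convex_halfSpace_im_lt L)).inter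
    (convex_halfSpace_im_gt (-L))

private theorem rc_sub (α β L : ℝ) : Qr α β L ⊆ Ql β L := fun _ h => ⟨h.2.1, h.2.2⟩

theorem el_gd (h : LS 𝒰 F D P θ C) (he : EL 𝒰 F D β L α g g') {ζ : ℂ} (hζ : ζ ∈ Ql β L)
    (hP : Complex.exp ζ ∉ Ph 𝒰 P) : Gd 𝒰 F D P (Complex.exp ζ) (g' ζ) := by
  obtain ⟨α', hα'⟩ : ∃ α' : ℝ, α' < ζ.re := ⟨ζ.re - 1, by linarith⟩
  have hζq : ζ ∈ Qr α' β L := ⟨hα', hζ.1, hζ.2⟩
  have hev : ∀ᶠ n in (𝒰 : Filter ℕ), α n < α' := he.αt.eventually (eventually_lt_atBot α')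
  have hmon : ∀ n, α n < α' → Qr α' β L ⊆ Qr (α n) β L := fun n hn u hu =>
    ⟨hn.trans hu.1, hu.2⟩
  have hSo : IsOpen (Qr α' β L) := ma_open α' β L
  have hlim : TendstoLocallyUniformlyOn g g' (𝒰 : Filter ℕ) (Qr α' β L) :=
    he.lim.mono (rc_sub α' β L)
  have hder : Tendsto (fun n => deriv (g n) ζ) (𝒰 : Filter ℕ) (𝓝 (deriv g' ζ)) := by
    refine TendstoLocallyUniformlyOn.tendsto_at (hlim.deriv ?_ hSo) hζq
    filter_upwards [hev] with n hn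
    exact (he.diff n).mono (hmon n hn)
  have hne : deriv g' ζ ≠ 0 := by
    obtain ⟨ε, hε, hb⟩ := Metric.isOpen_iff.1 (ql_open β L) ζ hζ
    have h1 := H80.AJ.deriv_ne hε (he.dif'.mono hb) (he.inj'.mono hb)
      (mem_closedBall_self (by positivity : 0 ≤ ε / 2))
    exact norm_pos_iff.1 h1
  have hchain : ∀ n, α n < α' → deriv (F n) (g n ζ) * deriv (g n) ζ = Complex.exp ζ := by
    intro n hn
    have hζn : ζ ∈ Qr (α n) β L := hmon n hn hζq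
    have hD := (he.val n ζ hζn).1
    have hg : HasDerivAt (g n) (deriv (g n) ζ) ζ :=
      ((he.diff n).differentiableAt ((ma_open _ _ _).mem_nhds hζn)).hasDerivAt
    have hF : HasDerivAt (F n) (deriv (F n) (g n ζ)) (g n ζ) :=
      ((h.Fd n).differentiableAt ((h.Do n).mem_nhds hD)).hasDerivAt
    have h1 : HasDerivAt (fun u => F n (g n u)) (deriv (F n) (g n ζ) * deriv (g n) ζ) ζ :=
      hF.comp ζ hg
    have h2 : (fun u => F n (g n u)) =ᶠ[𝓝 ζ] Complex.exp := by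
      filter_upwards [(ma_open (α n) β L).mem_nhds hζn] with u hu
      exact (he.val n u hu).2
    exact (h1.congr_of_eventuallyEq h2.symm).unique (Complex.hasDerivAt_exp ζ)
  have hexp : 0 < ‖Complex.exp ζ‖ := norm_pos_iff.2 (Complex.exp_ne_zero ζ)
  have hdF : Tendsto (fun n => ‖deriv (F n) (g n ζ)‖) (𝒰 : Filter ℕ)
      (𝓝 (‖Complex.exp ζ‖ / ‖deriv g' ζ‖)) := by
    have h1 : Tendsto (fun n => ‖Complex.exp ζ‖ / ‖deriv (g n) ζ‖) (𝒰 : Filter ℕ)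
        (𝓝 (‖Complex.exp ζ‖ / ‖deriv g' ζ‖)) :=
      tendsto_const_nhds.div hder.norm (norm_ne_zero_iff.2 hne)
    refine h1.congr' ?_
    filter_upwards [hev] with n hn
    have h2 := hchain n hn
    have h3 : deriv (g n) ζ ≠ 0 := by
      intro h0
      rw [h0, mul_zero] at h2
      exact Complex.exp_ne_zero ζ h2.symm
    rw [← h2, norm_mul, mul_div_assoc, div_self (norm_ne_zero_iff.2 h3), mul_one]
  have hq : 0 < ‖Complex.exp ζ‖ / ‖deriv g' ζ‖ := div_pos hexp (norm_pos_iff.2 hne)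
  obtain ⟨q, hqq⟩ : ∃ q, q = ‖Complex.exp ζ‖ / ‖deriv g' ζ‖ := ⟨_, rfl⟩
  rw [← hqq] at hdF hq
  refine ⟨hP, max (2 * q) (2 / q), fun n => g n ζ, ?_, ?_, ?_⟩
  · filter_upwards [hev, hdF.eventually (lt_mem_nhds (half_lt_self hq)),
      hdF.eventually (gt_mem_nhds (by linarith : q < 2 * q))] with n hn h1 h2
    refine ⟨(he.val n ζ (hmon n hn hζq)).1, ?_, h2.le.trans (le_max_left _ _)⟩
    calc (1 : ℝ) = 2 / q * (q / 2) := by field_simp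
      _ ≤ max (2 * q) (2 / q) * ‖deriv (F n) (g n ζ)‖ :=
        mul_le_mul (le_max_right _ _) h1.le (by positivity)
          ((by positivity : (0 : ℝ) ≤ 2 / q).trans (le_max_right _ _))
  · exact he.lim.tendsto_at hζ
  · refine tendsto_const_nhds.congr' ?_
    filter_upwards [hev] with n hn
    exact ((he.val n ζ (hmon n hn hζq)).2).symm

theorem el_sc (h : LS 𝒰 F D P θ C) (he : EL 𝒰 F D β L α g g') {ζ ζ' : ℂ} (hζ : ζ ∈ Ql β L)
    (hP : Complex.exp ζ ∉ Ph 𝒰 P) (hζ' : ζ' ∈ Ql β L) (hP' : Complex.exp ζ' ∉ Ph 𝒰 P) :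
    g' ζ' ∈ Sc 𝒰 F D P (g' ζ) := by
  obtain ⟨hc, hg⟩ := ph_exp h
  have h1 := con_gen hc hg (ql_open β L) (ql_convex β L).isPreconnected
  have h2 : IsPreconnected (g' '' (Ql β L \ {ζ : ℂ | Complex.exp ζ ∈ Ph 𝒰 P})) :=
    h1.image _ (he.dif'.continuousOn.mono sdiff_subset)
  have h3 : g' '' (Ql β L \ {ζ : ℂ | Complex.exp ζ ∈ Ph 𝒰 P}) ⊆ Sg 𝒰 F D P := by
    rintro _ ⟨u, hu, rfl⟩
    exact ⟨Complex.exp u, el_gd h he hu.1 hu.2⟩
  exact h2.subset_connectedComponentIn ⟨ζ, ⟨hζ, hP⟩, rfl⟩ h3 ⟨ζ', ⟨hζ', hP'⟩, rfl⟩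

/-- points with `exp ζ ∉ Ph` exist in every disc -/
theorem exp_out (h : LS 𝒰 F D P θ C) (ζ : ℂ) {ε : ℝ} (hε : 0 < ε) : ∃ ζ' ∈ ball ζ ε, Complex.exp ζ' ∉ Ph 𝒰 P := by
  by_cases hz : Complex.exp ζ ∈ Ph 𝒰 P
  · obtain ⟨ψ, θ', h0, h1, -, -, -, hsub, hcol⟩ := (ph_exp h).2 ζ hz ε hε
    have hn : ‖(((θ' + 1) / 2 : ℝ) : ℂ)‖ = (θ' + 1) / 2 := by
      rw [Complex.norm_real, Real.norm_eq_abs, abs_of_pos (by linarith)]
    refine ⟨ψ (((θ' + 1) / 2 : ℝ) : ℂ), hsub ⟨_, ?_, rfl⟩, hcol _ ?_ ?_⟩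
    · rw [mem_ball_zero_iff, hn]
      linarith
    · rw [hn]
      linarith
    · rw [hn]
      linarith
  · exact ⟨ζ, mem_ball_self hε, hz⟩

end Pool.Agent.H56.UD
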