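import Pool.Agent.H56.UD.Defs

/-!
# THEOREM UD, chapter R: pull back units (finite stage)

PROOF of `pu_map`: `β = id`, or `|β v| < 1` since `w ↦ (w + α) / (1 + conj α w)` maps the unit disc into itself for `|α| < 1` (`mob_lt` in `H56/UD/DB` may help, or `Complex` library).
PROOF of `pu_cpt`: `{v ∈ ball 0 1 | ‖β v‖ ≤ ρ}` is compact: for `β = id` a closed ball; otherwise `w = v ^ 2 = (β v - α) / (1 - conj α (β v))` has norm `≤ ρ' < 1` (`ρ' ` = the maximum of the norm of this Moebius map on the compact ball of radius `ρ`), so the set is a closed subset of `closedBall 0 (√ρ')`.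
PROOF of `pu_con`: `K ∩ φ '' ball 0 1 = K ∩ φ '' {v ∈ ball 0 1 | ‖β v‖ ≤ ρ}`: if `s = φ v ∈ K` then `ψ (β v) = F s = ψ u`, `‖u‖ ≤ ρ`, so `β v = u` (`ψ` injective). The set on the right is closed in `K` (compact), the set on the left is open in `K` (`φ` is open: `AnalyticOnNhd.is_constant_or_isOpen`, or `DifferentiableOn` + `InjOn`), it is not empty, and `K` is preconnected.
PROOF of `pu_two`: the three points are `φ v1, φ v2, φ v3`, `β v1 = β v2 = β v3`, so `v1 ^ 2 = v2 ^ 2 = v3 ^ 2` (the Moebius map is injective on the unit disc).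
-/

set_option autoImplicit false

open Filter Topology Metric Set MeasureTheory

namespace Pool.Agent.H56.UD

variable {F : ℂ → ℂ} {D : Set ℂ} {θ : ℝ} {ψ φ β : ℂ → ℂ}

private theorem mid (α w : ℂ) :
    ‖1 + (starRingEnd ℂ) α * w‖ ^ 2 - ‖w + α‖ ^ 2 = (1 - ‖α‖ ^ 2) * (1 - ‖w‖ ^ 2) := by
  simp only [← Complex.normSq_eq_norm_sq, Complex.normSq_apply]
  simp only [Complex.add_re, Complex.add_im, Complex.mul_re, Complex.mul_im, Complex.conj_re, Complex.conj_im,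
    Complex.one_re, Complex.one_im]
  ring

private theorem mden {α w : ℂ} (ha : ‖α‖ < 1) (hw : ‖w‖ ≤ 1) : (1 + (starRingEnd ℂ) α * w) ≠ 0 := by
  intro h0
  have h1 : ‖(starRingEnd ℂ) α * w‖ = 1 := by
    have : (starRingEnd ℂ) α * w = -1 := by linear_combination h0
    rw [this]; simp
  rw [norm_mul, RCLike.norm_conj] at h1
  nlinarith [norm_nonneg α, norm_nonneg w]

private theorem mlt {α w : ℂ} (ha : ‖α‖ < 1) (hw : ‖w‖ < 1) :
    ‖(w + α) / (1 + (starRingEnd ℂ) α * w)‖ < 1 := by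
  rw [norm_div, div_lt_one (norm_pos_iff.2 (mden ha hw.le))]
  have key : ‖w + α‖ ^ 2 < ‖1 + (starRingEnd ℂ) α * w‖ ^ 2 := by
    have e1 := mid α w
    have : 0 < (1 - ‖α‖ ^ 2) * (1 - ‖w‖ ^ 2) := by
      apply mul_pos <;> nlinarith [norm_nonneg α, norm_nonneg w]
    linarith
  exact lt_of_pow_lt_pow_left₀ 2 (norm_nonneg _) key

private theorem meq {α w : ℂ} (ha : ‖α‖ < 1) (hw : ‖w‖ = 1) :
    ‖(w + α) / (1 + (starRingEnd ℂ) α * w)‖ = 1 := by
  have e0 := norm_pos_iff.2 (mden ha hw.le)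
  rw [norm_div, div_eq_one_iff_eq e0.ne']
  have e1 := mid α w
  rw [hw] at e1
  have e2 : ‖w + α‖ ^ 2 = ‖1 + (starRingEnd ℂ) α * w‖ ^ 2 := by nlinarith
  exact (pow_left_inj₀ (norm_nonneg _) (norm_nonneg _) two_ne_zero).1 e2

private theorem minj {α w w' : ℂ} (ha : ‖α‖ < 1) (hw : ‖w‖ ≤ 1) (hw' : ‖w'‖ ≤ 1)
    (h : (w + α) / (1 + (starRingEnd ℂ) α * w) = (w' + α) / (1 + (starRingEnd ℂ) α * w')) : w = w' := by
  rw [div_eq_div_iff (mden ha hw) (mden ha hw')] at h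
  have e : (1 - α * (starRingEnd ℂ) α) * (w - w') = 0 := by linear_combination h
  rcases mul_eq_zero.1 e with h1 | h1
  · exfalso
    have h2 : α * (starRingEnd ℂ) α = 1 := by linear_combination -h1
    have h3 : ‖α * (starRingEnd ℂ) α‖ = 1 := by rw [h2]; simp
    rw [norm_mul, RCLike.norm_conj] at h3
    nlinarith [norm_nonneg α]
  · exact sub_eq_zero.1 h1

theorem pu_map (h : PU F D θ ψ φ β) (hθ : θ < 1) {v : ℂ} (hv : v ∈ ball (0 : ℂ) 1) : β v ∈ ball (0 : ℂ) 1 := by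
  rcases h.typ with h1 | ⟨α, h1, h2⟩
  · rwa [h1]
  · rw [h2, mem_ball_zero_iff]
    rw [mem_ball_zero_iff] at hv
    refine mlt (h1.trans_lt hθ) ?_
    rw [norm_pow]
    nlinarith [norm_nonneg v]

theorem pu_cpt (h : PU F D θ ψ φ β) (hθ : θ < 1) {r : ℝ} (hr : r < 1) : IsCompact {v ∈ ball (0 : ℂ) 1 | ‖β v‖ ≤ r} := by
  have hc : ContinuousOn β (closedBall (0 : ℂ) 1) := by
    rcases h.typ with h1 | ⟨α, h1, h2⟩
    · exact continuousOn_id.congr fun v _ => h1 v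
    · refine ContinuousOn.congr (f := fun v : ℂ => (v ^ 2 + α) / (1 + (starRingEnd ℂ) α * v ^ 2)) ?_ fun v _ => h2 v
      refine ContinuousOn.div (by fun_prop) (by fun_prop) fun v hv => ?_
      refine mden (h1.trans_lt hθ) ?_
      rw [mem_closedBall_zero_iff] at hv
      rw [norm_pow]
      nlinarith [norm_nonneg v]
  have e : {v ∈ ball (0 : ℂ) 1 | ‖β v‖ ≤ r} = closedBall (0 : ℂ) 1 ∩ (fun v => ‖β v‖) ⁻¹' (Iic r) := by
    ext v
    simp only [Set.mem_ofPred_eq, mem_inter_iff, mem_preimage, mem_Iic, mem_ball_zero_iff, mem_closedBall_zero_iff]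
    constructor
    · exact fun h3 => ⟨h3.1.le, h3.2⟩
    · rintro ⟨h3, h4⟩
      refine ⟨lt_of_le_of_ne h3 fun h5 => ?_, h4⟩
      rcases h.typ with h1 | ⟨α, h1, h2⟩
      · rw [h1, h5] at h4
        linarith
      · rw [h2, meq (h1.trans_lt hθ) (by rw [norm_pow, h5]; norm_num)] at h4
        linarith
  rw [e]
  exact (isCompact_closedBall (0 : ℂ) 1).of_isClosed_subset
    (hc.norm.preimage_isClosed_of_isClosed isClosed_closedBall isClosed_Iic) inter_subset_left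

theorem pu_con (h : PU F D θ ψ φ β) (hθ : θ < 1) (hψ : InjOn ψ (ball 0 1)) {r : ℝ} (hr : r < 1) {K : Set ℂ}
    (hK : IsPreconnected K) (hKF : ∀ s ∈ K, F s ∈ ψ '' closedBall 0 r) (hm : (K ∩ φ '' ball 0 1).Nonempty) :
    K ⊆ φ '' ball 0 1 := by
  have hT : IsClosed (φ '' {v ∈ ball (0 : ℂ) 1 | ‖β v‖ ≤ r}) :=
    ((pu_cpt h hθ hr).image_of_continuousOn (h.diff.continuousOn.mono fun v hv => hv.1)).isClosed
  have hO : IsOpen (φ '' ball (0 : ℂ) 1) := by
    rcases (h.diff.analyticOnNhd isOpen_ball).is_constant_or_isOpen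
      (convex_ball (0 : ℂ) 1).isPreconnected with ⟨w, hw⟩ | h1
    · exfalso
      have a1 : (0 : ℂ) ∈ ball (0 : ℂ) 1 := mem_ball_self one_pos
      have a2 : (1 / 2 : ℂ) ∈ ball (0 : ℂ) 1 := by rw [mem_ball_zero_iff]; norm_num
      have := h.inj a1 a2 ((hw _ a1).trans (hw _ a2).symm)
      norm_num at this
    · exact h1 _ subset_rfl isOpen_ball
  have hKO : ∀ s ∈ K, s ∈ φ '' ball (0 : ℂ) 1 → s ∈ φ '' {v ∈ ball (0 : ℂ) 1 | ‖β v‖ ≤ r} := by
    rintro s hs ⟨v, hv, rfl⟩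
    obtain ⟨u, hu, hu1⟩ := hKF _ hs
    rw [(h.val v hv).2] at hu1
    rw [mem_closedBall_zero_iff] at hu
    have := hψ (mem_ball_zero_iff.2 (hu.trans_lt hr)) (pu_map h hθ hv) hu1
    exact ⟨v, ⟨hv, by rw [← this]; exact hu⟩, rfl⟩
  intro x hx
  by_contra hxO
  have hxT : x ∉ φ '' {v ∈ ball (0 : ℂ) 1 | ‖β v‖ ≤ r} := fun h1 => hxO (image_mono (fun v hv => hv.1) h1)
  obtain ⟨y, hyK, hyO, hyT⟩ := hK _ _ hO hT.isOpen_compl (fun y hy => by
    by_cases hy1 : y ∈ φ '' ball (0 : ℂ) 1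
    · exact Or.inl hy1
    · exact Or.inr fun h1 => hy1 (image_mono (fun v hv => hv.1) h1)) hm ⟨x, hx, hxT⟩
  exact hyT (hKO y hyK hyO)

theorem pu_two (h : PU F D θ ψ φ β) (hθ : θ < 1) (hψ : InjOn ψ (ball 0 1)) {a b c : ℂ} (ha : a ∈ φ '' ball 0 1)
    (hb : b ∈ φ '' ball 0 1) (hc : c ∈ φ '' ball 0 1) (hab : F a = F b) (hac : F a = F c) : a = b ∨ a = c ∨ b = c := by
  obtain ⟨v1, hv1, rfl⟩ := ha
  obtain ⟨v2, hv2, rfl⟩ := hb
  obtain ⟨v3, hv3, rfl⟩ := hc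
  rw [(h.val v1 hv1).2, (h.val v2 hv2).2] at hab
  rw [(h.val v1 hv1).2, (h.val v3 hv3).2] at hac
  have e12 := hψ (pu_map h hθ hv1) (pu_map h hθ hv2) hab
  have e13 := hψ (pu_map h hθ hv1) (pu_map h hθ hv3) hac
  rcases h.typ with h1 | ⟨α, h1, h2⟩
  · rw [h1, h1] at e12
    exact Or.inl (by rw [e12])
  · have hs : ∀ v : ℂ, v ∈ ball (0 : ℂ) 1 → ‖v ^ 2‖ ≤ 1 := fun v hv => by
      rw [mem_ball_zero_iff] at hv
      rw [norm_pow]
      nlinarith [norm_nonneg v]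
    rw [h2, h2] at e12 e13
    have q12 := minj (h1.trans_lt hθ) (hs _ hv1) (hs _ hv2) e12
    have q13 := minj (h1.trans_lt hθ) (hs _ hv1) (hs _ hv3) e13
    rcases sq_eq_sq_iff_eq_or_eq_neg.1 q12 with h3 | h3
    · exact Or.inl (by rw [h3])
    · rcases sq_eq_sq_iff_eq_or_eq_neg.1 q13 with h4 | h4
      · exact Or.inr (Or.inl (by rw [h4]))
      · refine Or.inr (Or.inr ?_)
        have : v2 = v3 := by
          have h5 : -v2 = -v3 := h3.symm.trans h4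
          exact neg_injective h5
        rw [this]

end Pool.Agent.H56.UD
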