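import Pool.Agent.H56.UD.RD
import Pool.Agent.H56.UD.BI

/-!
# THEOREM UD, chapter R: lifts of collars through good points, closed lifts

PROOF of `lft`. `w = ψ' (exp ζ) ∉ Ph` (`Gd`), `Ph` is closed (`ph_closed`): `closedBall w r'` is disjoint from `Ph`; `germ`: `G n → g`, `g w = s`, `Bq`. `u n = ψ n (exp ζ) → w` (locally uniform convergence at `exp ζ ∈ ball 0 1`), `s n = G n (u n) → s`; `s n ∈ D n`, `F n (s n) = u n` eventually. `LS.lift` with `M = r + 1`, `S = Qc θ` (open, convex), `H = ψ n ∘ exp` (`|exp ζ| < 1` on `Qc θ`, `GD.diff`; values in `ball 0 r` by `GD.out`, not in `P n` by `GD.col` since `θ < |exp ζ| < 1`), `q = ζ`. For the other `n` put `q n = 0`.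
PROOF of `img_in`: otherwise (ultrafilter) there are `v n ∈ V'` not in `ψ n '' closedBall 0 ρ'` eventually; a limit `v ∈ V'`, `v = ψ' u`, `‖u‖ < ρ`; `ulim_pre` on `ball 0 1`: `v n = ψ n (u n)`, `u n → u`: contradiction.
PROOF of `cls_unit`. `LS.pb` with `x = 0`, `M = r`: units `φ n, β n` with `q n '' Qc θ ⊆ φ n '' ball 0 1`. `q n ζ → s2 ∈ K`, `K` open: `q n ζ ∈ K ∩ φ n '' ball 0 1`. `img_in` and `pu_con`.
-/

set_option autoImplicit false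

open Filter Topology Metric Set MeasureTheory

namespace Pool.Agent.H56.UD

variable {𝒰 : Ultrafilter ℕ} {F : ℕ → ℂ → ℂ} {D P : ℕ → Set ℂ} {θ C : ℝ}

private theorem qc_open (θ : ℝ) : IsOpen (Qc θ) := by
  unfold Qc Qr
  exact (isOpen_lt continuous_const Complex.continuous_re).inter
    ((isOpen_lt Complex.continuous_re continuous_const).inter
      (isOpen_lt (Complex.continuous_im.abs) continuous_const))

private theorem qc_convex (θ : ℝ) : Convex ℝ (Qc θ) := by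
  have h : Qc θ = {c : ℂ | Real.log θ < c.re} ∩ {c : ℂ | c.re < 0} ∩ ({c : ℂ | -(6 * Real.pi) < c.im} ∩
      {c : ℂ | c.im < 6 * Real.pi}) := by
    ext c
    simp only [Qc, Qr, mem_ofPred_eq, mem_inter_iff, abs_lt, and_assoc]
  rw [h]
  exact ((convex_halfSpace_re_gt _).inter (convex_halfSpace_re_lt _)).inter
    ((convex_halfSpace_im_gt _).inter (convex_halfSpace_im_lt _))

private theorem qc_exp {θ : ℝ} (hθ : 0 < θ) {ζ : ℂ} (hζ : ζ ∈ Qc θ) :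
    θ < ‖Complex.exp ζ‖ ∧ ‖Complex.exp ζ‖ < 1 := by
  rw [Complex.norm_exp]
  obtain ⟨h1, h2, _⟩ := hζ
  constructor
  · calc θ = Real.exp (Real.log θ) := (Real.exp_log hθ).symm
      _ < Real.exp ζ.re := Real.exp_lt_exp.2 h1
  · rw [← Real.exp_zero]
    exact Real.exp_lt_exp.2 h2

theorem lft (h : LS 𝒰 F D P θ C) {r : ℝ} (hr : 0 < r) {ψ : ℕ → ℂ → ℂ} {ψ' : ℂ → ℂ}
    (hψ : ∀ᶠ n in (𝒰 : Filter ℕ), GD θ C (P n) 0 r (ψ n))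
    (hl : TendstoLocallyUniformlyOn ψ ψ' (𝒰 : Filter ℕ) (ball 0 1)) {ζ s : ℂ} (hζ : ζ ∈ Qc θ)
    (hs : Gd 𝒰 F D P (ψ' (Complex.exp ζ)) s) :
    ∃ q : ℕ → ℂ → ℂ, (∀ᶠ n in (𝒰 : Filter ℕ), Lf (F n) (D n) θ (ψ n) (q n)) ∧
      Tendsto (fun n => q n ζ) (𝒰 : Filter ℕ) (𝓝 s) := by
  obtain ⟨r1, hr1, hr1b⟩ := Metric.isOpen_iff.1 (ph_closed (𝒰 := 𝒰) (P := P)).isOpen_compl _ hs.1
  have hdis : Disjoint (closedBall (ψ' (Complex.exp ζ)) (r1 / 2)) (Ph 𝒰 P) := by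
    rw [Set.disjoint_left]
    intro u hu hu2
    exact hr1b (closedBall_subset_ball (by linarith) hu) hu2
  obtain ⟨M, G, g, hB, hGg, hgd, _, hgw, _⟩ := germ h hs (half_pos hr1) hdis
  have hζ1 := qc_exp h.θ0 hζ
  have hζb : Complex.exp ζ ∈ ball (0 : ℂ) 1 := by simpa using hζ1.2
  have hu : Tendsto (fun n => ψ n (Complex.exp ζ)) (𝒰 : Filter ℕ) (𝓝 (ψ' (Complex.exp ζ))) := hl.tendsto_at hζb
  have hwb : ψ' (Complex.exp ζ) ∈ ball (ψ' (Complex.exp ζ)) (r1 / 2) := mem_ball_self (half_pos hr1)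
  have hub : ∀ᶠ n in (𝒰 : Filter ℕ), ψ n (Complex.exp ζ) ∈ ball (ψ' (Complex.exp ζ)) (r1 / 2) :=
    hu (isOpen_ball.mem_nhds hwb)
  have hst : Tendsto (fun n => G n (ψ n (Complex.exp ζ))) (𝒰 : Filter ℕ) (𝓝 s) := by
    rw [← hgw]
    refine hGg.tendsto_comp (hgd.continuousOn _ hwb) hwb ?_
    exact tendsto_nhdsWithin_iff.2 ⟨hu, hub⟩
  have hex : ∀ n : ℕ, ∃ Q : ℂ → ℂ, (∃ Q' : ℂ → ℂ, DifferentiableOn ℂ Q' (Qc θ) ∧ Q' ζ = G n (ψ n (Complex.exp ζ)) ∧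
      ∀ u ∈ Qc θ, Q' u ∈ D n ∧ F n (Q' u) = ψ n (Complex.exp u)) →
      (DifferentiableOn ℂ Q (Qc θ) ∧ Q ζ = G n (ψ n (Complex.exp ζ)) ∧
        ∀ u ∈ Qc θ, Q u ∈ D n ∧ F n (Q u) = ψ n (Complex.exp u)) := by
    intro n
    by_cases hP : ∃ Q' : ℂ → ℂ, DifferentiableOn ℂ Q' (Qc θ) ∧ Q' ζ = G n (ψ n (Complex.exp ζ)) ∧
        ∀ u ∈ Qc θ, Q' u ∈ D n ∧ F n (Q' u) = ψ n (Complex.exp u)
    · obtain ⟨Q', hQ'⟩ := hP
      exact ⟨Q', fun _ => hQ'⟩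
    · exact ⟨0, fun hP' => absurd hP' hP⟩
  choose q hq using hex
  have hev : ∀ᶠ n in (𝒰 : Filter ℕ), DifferentiableOn ℂ (q n) (Qc θ) ∧ q n ζ = G n (ψ n (Complex.exp ζ)) ∧
      ∀ u ∈ Qc θ, q n u ∈ D n ∧ F n (q n u) = ψ n (Complex.exp u) := by
    filter_upwards [hψ, hB, hub, h.lift (r + 1)] with n h1 h2 h3 h4
    refine hq n ?_
    have h5 := h2.val _ h3
    refine h4 (Qc θ) (fun u => ψ n (Complex.exp u)) ζ (G n (ψ n (Complex.exp ζ))) (qc_convex θ) (qc_open θ) ?_ ?_ hζ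
      h5.1 h5.2.1
    · refine h1.diff.comp Complex.differentiable_exp.differentiableOn fun u hu => ?_
      simpa using (qc_exp h.θ0 hu).2
    · intro u hu
      have h6 := qc_exp h.θ0 hu
      have h7 : ψ n (Complex.exp u) ∈ ball (0 : ℂ) r := h1.out ⟨_, by simpa using h6.2, rfl⟩
      refine ⟨?_, h1.col _ h6.1 h6.2⟩
      have h8 : ‖ψ n (Complex.exp u)‖ < r := by simpa using h7
      linarith
  refine ⟨q, hev.mono fun n hn => ⟨hn.1, hn.2.2⟩, ?_⟩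
  exact hst.congr' (hev.mono fun n hn => hn.2.1.symm)

theorem img_in {ψ : ℕ → ℂ → ℂ} {ψ' : ℂ → ℂ}
    (hd : ∀ᶠ n in (𝒰 : Filter ℕ), DifferentiableOn ℂ (ψ n) (ball 0 1)) (hi : InjOn ψ' (ball 0 1))
    (hl : TendstoLocallyUniformlyOn ψ ψ' (𝒰 : Filter ℕ) (ball 0 1)) {r r' : ℝ} (hr : r < r') (hr' : r' ≤ 1) {V : Set ℂ}
    (hV : IsCompact V) (hVs : V ⊆ ψ' '' ball 0 r) : ∀ᶠ n in (𝒰 : Filter ℕ), V ⊆ ψ n '' ball 0 r' := by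
  by_contra hcon
  rw [← Ultrafilter.eventually_not] at hcon
  have hex : ∀ n : ℕ, ∃ v : ℂ, ¬ (V ⊆ ψ n '' ball 0 r') → v ∈ V ∧ v ∉ ψ n '' ball 0 r' := by
    intro n
    by_cases hP : V ⊆ ψ n '' ball 0 r'
    · exact ⟨0, fun hP' => absurd hP hP'⟩
    · obtain ⟨v, hv1, hv2⟩ := Set.not_subset.1 hP
      exact ⟨v, fun _ => ⟨hv1, hv2⟩⟩
  choose v hv using hex
  have hev : ∀ᶠ n in (𝒰 : Filter ℕ), v n ∈ V ∧ v n ∉ ψ n '' ball 0 r' := hcon.mono fun n hn => hv n hn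
  have hle : ((𝒰.map v : Ultrafilter ℂ) : Filter ℂ) ≤ 𝓟 V := by
    rw [le_principal_iff, Ultrafilter.coe_map, mem_map]
    exact hev.mono fun n hn => hn.1
  obtain ⟨y, hy, hy2⟩ := hV.ultrafilter_le_nhds _ hle
  rw [Ultrafilter.coe_map] at hy2
  obtain ⟨u, hu, rfl⟩ := hVs hy
  have hu1 : u ∈ ball (0 : ℂ) 1 := ball_subset_ball (by linarith) hu
  obtain ⟨v', hv', hv't⟩ := ulim_pre 𝒰 isOpen_ball hd hl hi hu1 (s := v) hy2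
  have hu2 : u ∈ ball (0 : ℂ) r' := ball_subset_ball hr.le hu
  have hev2 : ∀ᶠ n in (𝒰 : Filter ℕ), v' n ∈ ball (0 : ℂ) r' := hv't (isOpen_ball.mem_nhds hu2)
  obtain ⟨n, hn1, hn2, hn3⟩ := (hev.and (hv'.and hev2)).exists
  exact hn1.2 ⟨v' n, hn3, hn2.2⟩

/-- closed lifts give units which contain everything connected with them -/
theorem cls_unit (h : LS 𝒰 F D P θ C) {r : ℝ} (hr : 0 < r) {ψ : ℕ → ℂ → ℂ} {ψ' : ℂ → ℂ}
    (hψ : ∀ᶠ n in (𝒰 : Filter ℕ), GD θ C (P n) 0 r (ψ n)) (hi : InjOn ψ' (ball 0 1))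
    (hl : TendstoLocallyUniformlyOn ψ ψ' (𝒰 : Filter ℕ) (ball 0 1)) {q : ℕ → ℂ → ℂ}
    (hq : ∀ᶠ n in (𝒰 : Filter ℕ), Lf (F n) (D n) θ (ψ n) (q n)) {ζ s2 : ℂ} (hζ : ζ ∈ Qc θ)
    (ht : Tendsto (fun n => q n ζ) (𝒰 : Filter ℕ) (𝓝 s2)) (hc : ∀ᶠ n in (𝒰 : Filter ℕ), Cls θ 2 (q n)) {r' : ℝ}
    (hr' : r' < 1) {K V : Set ℂ} (hK : IsOpen K) (hKc : IsPreconnected K) (h2 : s2 ∈ K) (hV : IsCompact V)
    (hVs : V ⊆ ψ' '' ball 0 r') (hF : ∀ᶠ n in (𝒰 : Filter ℕ), K ⊆ D n ∧ ∀ s ∈ K, F n s ∈ V) :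
    ∀ᶠ n in (𝒰 : Filter ℕ), ∃ φ β : ℂ → ℂ, PU (F n) (D n) θ (ψ n) φ β ∧ K ⊆ φ '' ball 0 1 := by
  have h1 := img_in (hψ.mono fun n hn => hn.diff) hi hl (show r' < (r' + 1) / 2 by linarith)
    (show (r' + 1) / 2 ≤ 1 by linarith) hV hVs
  have h3 : ∀ᶠ n in (𝒰 : Filter ℕ), q n ζ ∈ K := ht (hK.mem_nhds h2)
  filter_upwards [h1, h3, hψ, hq, hc, hF, h.pb r] with n a1 a2 a3 a4 a5 a6 a7
  obtain ⟨φ, β, b1, b2, _⟩ := a7 0 r (ψ n) (q n) (h.P0 n) (by simpa using hr.le) hr le_rfl a3 a4 a5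
  refine ⟨φ, β, b1, ?_⟩
  refine pu_con b1 h.θ1 a3.inj (show (r' + 1) / 2 < 1 by linarith) hKc (fun s hs => ?_) ⟨q n ζ, a2, b2 ⟨ζ, hζ, rfl⟩⟩
  exact image_mono ball_subset_closedBall (a1 (a6.2 s hs))

end Pool.Agent.H56.UD
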