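import Pool.Agent.H56.UD.RC
import Pool.Agent.H56.UD.RE

/-!
# THEOREM UD, chapter R: no lift closes in the situation of restoration

PROOF. Let `r > 0`. `LS.gap` (`x = 0`, `P0`): gap discs `ψ n` at `(0, r)` eventually; `gdl` (`x n = 0`): `ψ'`. `ρ = (1 + θ) / 2`, `V = ψ' '' ball 0 ρ \ Ph`: open (`ψ'` is an open map on `ball 0 1`, `ph_closed`), preconnected (`con_gen`, `ph_gap`; `ψ' '' ball 0 ρ` is connected and open).
`ζ1`: `|Im ζ1| < 1`, `Re ζ1 < min β (log (r / C)) - ..`, `exp ζ1 ∉ Ph` (`exp_out`); so `w1 = exp ζ1 ∈ ball 0 (r / C) ⊆ ψ' '' ball 0 ρ`, `w1 ∈ V`, `s1 = g' ζ1`, `Gd w1 s1` (`el_gd`), `s1 ∈ Sc (g' ζb)` (`el_sc`).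
`ζ2 = log ((θ + ρ) / 2) ∈ Qc θ` (real), `w2 = ψ' (exp ζ2) ∈ V` (collar: `gdl`). `path`: `s2, K, V'`. `s2 ∈ Sc (g' ζb)`: `K` is preconnected, in `Sg`, contains `s1` and `s2`. `lft`: lifts `q n`, `q n ζ2 → s2`.
Claim: eventually `¬ Cls θ 2 (q n)`. Otherwise eventually `Cls θ 2 (q n)` (ultrafilter); `cls_unit`: units with `K ⊆ φ '' ball 0 1`. Eventually `α n < Re ζ1`, `g n ζ1 ∈ K` (it tends to `s1`). The set `K' = g n '' {ζ1 + i t, 0 ≤ t ≤ 4 π}` is preconnected, `F n` maps it into `ball 0 (r / C) ⊆ ψ n '' ball 0 θ` (`|exp (ζ1 + i t)| = |exp ζ1|`, `GD.inn`), so `K' ⊆ φ '' ball 0 1` (`pu_con`). `pu_two` for `g n ζ1, g n (ζ1 + 2 π i), g n (ζ1 + 4 π i)` contradicts the injectivity of `g n`.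
-/

set_option autoImplicit false

open Filter Topology Metric Set MeasureTheory

namespace Pool.Agent.H56.UD

variable {𝒰 : Ultrafilter ℕ} {F : ℕ → ℂ → ℂ} {D P : ℕ → Set ℂ} {θ C β L : ℝ} {α : ℕ → ℝ} {g : ℕ → ℂ → ℂ} {g' : ℂ → ℂ}

private theorem rg_open {ψ : ℂ → ℂ} (hd : DifferentiableOn ℂ ψ (ball 0 1)) (hi : InjOn ψ (ball 0 1)) {ρ : ℝ}
    (hρ : ρ ≤ 1) : IsOpen (ψ '' ball 0 ρ) := by
  rcases (hd.analyticOnNhd isOpen_ball).is_constant_or_isOpen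
    (convex_ball (0 : ℂ) 1).isPreconnected with ⟨w, hw⟩ | h1
  · exfalso
    have a1 : (0 : ℂ) ∈ ball (0 : ℂ) 1 := mem_ball_self one_pos
    have a2 : (1 / 2 : ℂ) ∈ ball (0 : ℂ) 1 := by
      rw [mem_ball_zero_iff]
      norm_num
    have := hi a1 a2 ((hw _ a1).trans (hw _ a2).symm)
    norm_num at this
  · exact h1 _ (ball_subset_ball hρ) isOpen_ball

theorem el_ord (h : LS 𝒰 F D P θ C) (he : EL 𝒰 F D β L α g g') (hL : 5 * Real.pi ≤ L) {ζb : ℂ} (hζ : ζb ∈ Ql β L)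
    (hb : Complex.exp ζb ∉ Ph 𝒰 P) : Ord 𝒰 F D P θ C (g' ζb) := by
  intro r hr
  have hθ0 := h.θ0
  have hθ1 := h.θ1
  have hC0 : 0 < C := lt_of_lt_of_le one_pos h.C1
  have hrC : 0 < r / C := div_pos hr hC0
  have hpi := Real.pi_gt_three
  -- the gap discs
  obtain ⟨ψ, hψ⟩ : ∃ ψ : ℕ → ℂ → ℂ, ∀ᶠ n in (𝒰 : Filter ℕ), GD θ C (P n) 0 r (ψ n) := by
    apply Filter.Eventually.choice
    filter_upwards [h.gap r 1 hr] with n hn
    exact hn 0 (h.P0 n) (by simp)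
  obtain ⟨ψ', hd, hi, hl, hball, -, hcol⟩ := gdl h hr (x := fun _ => (0 : ℂ)) (x0 := 0)
    tendsto_const_nhds hψ
  obtain ⟨ρ, hρ⟩ : ∃ ρ : ℝ, ρ = (1 + θ) / 2 := ⟨_, rfl⟩
  have hρ0 : θ < ρ := by linarith
  have hρ1 : ρ < 1 := by linarith
  have hUo : IsOpen (ψ' '' ball 0 ρ) := rg_open hd hi hρ1.le
  have hUc : IsPreconnected (ψ' '' ball 0 ρ) :=
    (convex_ball (0 : ℂ) ρ).isPreconnected.image ψ'
      (hd.continuousOn.mono (ball_subset_ball hρ1.le))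
  obtain ⟨V, hV⟩ : ∃ V : Set ℂ, V = ψ' '' ball 0 ρ \ Ph 𝒰 P := ⟨_, rfl⟩
  have hVo : IsOpen V := by
    rw [hV]
    exact hUo.sdiff ph_closed
  have hVc : IsPreconnected V := by
    rw [hV]
    exact con_gen ph_closed (ph_gap h) hUo hUc
  have hVd : Disjoint V (Ph 𝒰 P) := by
    rw [hV]
    exact disjoint_sdiff_left
  -- the point with small real part
  obtain ⟨x1, hx1⟩ : ∃ x1 : ℝ, x1 = min β (Real.log (r / C)) - 2 := ⟨_, rfl⟩
  obtain ⟨ζ1, hζ1b, hζ1P⟩ := exp_out h (x1 : ℂ) (ε := 1 / 2) (by norm_num)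
  have hn1 : ‖ζ1 - (x1 : ℂ)‖ < 1 / 2 := by
    rwa [mem_ball, dist_eq_norm] at hζ1b
  have him1 : |ζ1.im| < 1 / 2 := by
    have h1 := Complex.abs_im_le_norm (ζ1 - (x1 : ℂ))
    rw [Complex.sub_im, Complex.ofReal_im, sub_zero] at h1
    linarith
  have hre1 : ζ1.re < x1 + 1 / 2 := by
    have h1 := Complex.abs_re_le_norm (ζ1 - (x1 : ℂ))
    rw [Complex.sub_re, Complex.ofReal_re] at h1
    have := (abs_le.1 h1).2
    linarith
  have hreβ : ζ1.re < β := by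
    have := min_le_left β (Real.log (r / C))
    linarith
  have hreC : ζ1.re < Real.log (r / C) := by
    have := min_le_right β (Real.log (r / C))
    linarith
  have hζ1q : ζ1 ∈ Ql β L := ⟨hreβ, by linarith⟩
  have hexp : ∀ t : ℝ, Complex.exp (ζ1 + t * Complex.I) ∈ ball (0 : ℂ) (r / C) := by
    intro t
    rw [mem_ball_zero_iff, Complex.norm_exp]
    have e : (ζ1 + t * Complex.I).re = ζ1.re := by simp
    rw [e, ← Real.lt_log_iff_exp_lt hrC]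
    exact hreC
  have hw1 : Complex.exp ζ1 ∈ V := by
    rw [hV]
    refine ⟨hball ρ hρ0 ?_, hζ1P⟩
    have := hexp 0
    simpa using this
  have hgd1 := el_gd h he hζ1q hζ1P
  have hsc1 := el_sc h he hζ hb hζ1q hζ1P
  -- the point in the collar
  obtain ⟨ρ2, hρ2⟩ : ∃ ρ2 : ℝ, ρ2 = (θ + ρ) / 2 := ⟨_, rfl⟩
  have hρ20 : θ < ρ2 := by linarith
  have hρ21 : ρ2 < ρ := by linarith
  have hρ2p : 0 < ρ2 := by linarith
  obtain ⟨ζ2, hζ2⟩ : ∃ ζ2 : ℂ, ζ2 = ((Real.log ρ2 : ℝ) : ℂ) := ⟨_, rfl⟩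
  have hζ2q : ζ2 ∈ Qc θ := by
    rw [hζ2]
    refine ⟨?_, ?_, ?_⟩
    · rw [Complex.ofReal_re]
      exact Real.log_lt_log hθ0 hρ20
    · rw [Complex.ofReal_re]
      exact Real.log_neg hρ2p (by linarith)
    · rw [Complex.ofReal_im, abs_zero]
      positivity
  have hexp2 : Complex.exp ζ2 = (ρ2 : ℂ) := by
    rw [hζ2, ← Complex.ofReal_exp, Real.exp_log hρ2p]
  have hnρ2 : ‖(ρ2 : ℂ)‖ = ρ2 := by
    rw [Complex.norm_real, Real.norm_eq_abs, abs_of_pos hρ2p]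
  have hw2 : ψ' (Complex.exp ζ2) ∈ V := by
    rw [hV, hexp2]
    refine ⟨⟨_, ?_, rfl⟩, hcol _ ?_ ?_⟩
    · rw [mem_ball_zero_iff, hnρ2]
      exact hρ21
    · rw [hnρ2]
      exact hρ20
    · rw [hnρ2]
      linarith
  obtain ⟨s2, K, V', hgd2, hKo, hKc, hs1K, hs2K, hV'c, hV'V, hKg, hKF⟩ :=
    path h hVo hVc hVd hw1 hw2 hgd1
  have hs2S : s2 ∈ Sc 𝒰 F D P (g' ζb) := by
    have h1 : K ⊆ Sg 𝒰 F D P := by
      intro s hs
      obtain ⟨w, -, hw⟩ := hKg s hs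
      exact ⟨w, hw⟩
    have h2 := hKc.subset_connectedComponentIn hs1K h1
    have h3 := connectedComponentIn_eq hsc1
    change s2 ∈ connectedComponentIn (Sg 𝒰 F D P) (g' ζb)
    rw [h3]
    exact h2 hs2K
  obtain ⟨q, hq, ht⟩ := lft h hr hψ hl hζ2q hgd2
  have hcl : ∀ᶠ n in (𝒰 : Filter ℕ), ¬ Cls θ 2 (q n) := by
    by_contra hcon
    rw [Ultrafilter.eventually_not, not_not] at hcon
    have hV's : V' ⊆ ψ' '' ball 0 ρ := by
      intro v hv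
      have := hV'V hv
      rw [hV] at this
      exact this.1
    have hu := cls_unit h hr hψ hi hl hq hζ2q ht hcon hρ1 hKo hKc hs2K hV'c hV's hKF
    have hα : ∀ᶠ n in (𝒰 : Filter ℕ), α n < ζ1.re := he.αt.eventually (eventually_lt_atBot _)
    have hgK : ∀ᶠ n in (𝒰 : Filter ℕ), g n ζ1 ∈ K :=
      (he.lim.tendsto_at hζ1q) (hKo.mem_nhds hs1K)
    obtain ⟨n, ⟨φ, b, hPU, hKφ⟩, hαn, hgn, hψn⟩ := (hu.and (hα.and (hgK.and hψ))).exists
    have hmem : ∀ t ∈ Icc (0 : ℝ) (4 * Real.pi), ζ1 + t * Complex.I ∈ Qr (α n) β L := by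
      intro t ht
      have e1 : (ζ1 + t * Complex.I).re = ζ1.re := by simp
      have e2 : (ζ1 + t * Complex.I).im = ζ1.im + t := by simp
      refine ⟨by rw [e1]; exact hαn, by rw [e1]; exact hreβ, ?_⟩
      rw [e2, abs_lt]
      have h1 := abs_lt.1 him1
      have h2 := ht.1
      have h3 := ht.2
      constructor <;> linarith
    have hcont : ContinuousOn (fun t : ℝ => g n (ζ1 + t * Complex.I)) (Icc 0 (4 * Real.pi)) := by
      refine (he.diff n).continuousOn.comp (Continuous.continuousOn (by fun_prop)) hmem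
    have hK'c := isPreconnected_Icc.image _ hcont
    have hK'F : ∀ s ∈ (fun t : ℝ => g n (ζ1 + t * Complex.I)) '' Icc 0 (4 * Real.pi),
        F n s ∈ ψ n '' closedBall 0 θ := by
      rintro _ ⟨t, ht, rfl⟩
      simp only
      rw [(he.val n _ (hmem t ht)).2]
      exact image_mono ball_subset_closedBall (hψn.inn (hexp t))
    have h4pi : (0 : ℝ) ≤ 4 * Real.pi := by positivity
    have m0 : (0 : ℝ) ∈ Icc (0 : ℝ) (4 * Real.pi) := ⟨le_rfl, h4pi⟩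
    have m1 : 2 * Real.pi ∈ Icc (0 : ℝ) (4 * Real.pi) := ⟨by positivity, by linarith⟩
    have m2 : 4 * Real.pi ∈ Icc (0 : ℝ) (4 * Real.pi) := ⟨h4pi, le_rfl⟩
    have hsub := pu_con hPU hθ1 hψn.inj hθ1 hK'c hK'F ⟨g n ζ1, ⟨0, m0, by simp⟩, hKφ hgn⟩
    have p0 := hsub ⟨0, m0, rfl⟩
    have p1 := hsub ⟨2 * Real.pi, m1, rfl⟩
    have p2 := hsub ⟨4 * Real.pi, m2, rfl⟩
    simp only at p0 p1 p2
    have v0 := (he.val n _ (hmem 0 m0)).2
    have v1 := (he.val n _ (hmem (2 * Real.pi) m1)).2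
    have v2 := (he.val n _ (hmem (4 * Real.pi) m2)).2
    have e0 : Complex.exp (ζ1 + ((0 : ℝ) : ℂ) * Complex.I) = Complex.exp ζ1 := by simp
    have e1 : Complex.exp (ζ1 + ((2 * Real.pi : ℝ) : ℂ) * Complex.I) = Complex.exp ζ1 := by
      have : ζ1 + ((2 * Real.pi : ℝ) : ℂ) * Complex.I = ζ1 + 2 * Real.pi * Complex.I := by
        push_cast
        ring
      rw [this, Complex.exp_add, Complex.exp_two_pi_mul_I, mul_one]
    have e2 : Complex.exp (ζ1 + ((4 * Real.pi : ℝ) : ℂ) * Complex.I) = Complex.exp ζ1 := by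
      have : ζ1 + ((4 * Real.pi : ℝ) : ℂ) * Complex.I =
          ζ1 + 2 * Real.pi * Complex.I + 2 * Real.pi * Complex.I := by
        push_cast
        ring
      rw [this, Complex.exp_add, Complex.exp_add, Complex.exp_two_pi_mul_I, mul_one, mul_one]
    have hne : ∀ s t : ℝ, s ∈ Icc (0 : ℝ) (4 * Real.pi) → t ∈ Icc (0 : ℝ) (4 * Real.pi) → s ≠ t →
        g n (ζ1 + s * Complex.I) ≠ g n (ζ1 + t * Complex.I) := by
      intro s t hs ht hst h0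
      have h1 := he.inj n (hmem s hs) (hmem t ht) h0
      have h2 := congrArg Complex.im h1
      simp at h2
      exact hst h2
    rcases pu_two hPU hθ1 hψn.inj p0 p1 p2 (by rw [v0, v1, e0, e1]) (by rw [v0, v2, e0, e2]) with
      h1 | h1 | h1
    · exact hne 0 (2 * Real.pi) m0 m1 (by positivity) h1
    · exact hne 0 (4 * Real.pi) m0 m2 (by positivity) h1
    · exact hne (2 * Real.pi) (4 * Real.pi) m1 m2 (by
        intro h2
        linarith) h1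
  refine ⟨ψ, q, ?_, ζ2, hζ2q, s2, hs2S, ht⟩
  filter_upwards [hψ, hq, hcl] with n a1 a2 a3
  exact ⟨a1, a2, a3⟩

end Pool.Agent.H56.UD
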